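import Mathlib

/-! The limit sets of a hypothetical sequence of numbers which are not sums of three gaps: contradiction. -/

set_option autoImplicit false

namespace Pool.Agent.P8H77.SG

/-- the sets modulo three -/
theorem comb_three (P N : Set ℤ)
    (S4 : ∀ x y : ℤ, x ∈ N → y ∈ N → x + y ∉ P)
    (hN : ∀ x y z : ℤ, ¬ (3 : ℤ) ∣ y - x → ¬ (3 : ℤ) ∣ z - x → ¬ (3 : ℤ) ∣ z - y → x ∈ N ∨ y ∈ N ∨ z ∈ N)
    (hP : ∀ x y z : ℤ, ¬ (3 : ℤ) ∣ y - x → ¬ (3 : ℤ) ∣ z - x → ¬ (3 : ℤ) ∣ z - y →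
      -x ∈ P ∨ -y ∈ P ∨ -z ∈ P)
    (hM : ∀ x y z : ℤ, ¬ (3 : ℤ) ∣ y - x → ¬ (3 : ℤ) ∣ z - x → ¬ (3 : ℤ) ∣ z - y →
      -x ∈ P ∨ y ∈ N ∨ z ∈ N) : False := by
  -- full classes
  have fN : ∃ c : ℤ, ∀ z : ℤ, (3 : ℤ) ∣ z - c → z ∈ N := by
    by_contra hcon
    push Not at hcon
    obtain ⟨a, ha, haN⟩ := hcon 0
    obtain ⟨b, hb, hbN⟩ := hcon 1
    obtain ⟨c, hc, hcN⟩ := hcon 2
    rcases hN a b c (by omega) (by omega) (by omega) with h | h | h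
    · exact haN h
    · exact hbN h
    · exact hcN h
  have fP : ∃ c : ℤ, ∀ z : ℤ, (3 : ℤ) ∣ z + c → z ∈ P := by
    by_contra hcon
    push Not at hcon
    obtain ⟨a, ha, haN⟩ := hcon 0
    obtain ⟨b, hb, hbN⟩ := hcon 1
    obtain ⟨c, hc, hcN⟩ := hcon 2
    rcases hP (-a) (-b) (-c) (by omega) (by omega) (by omega) with h | h | h
    · exact haN (by simpa using h)
    · exact hbN (by simpa using h)
    · exact hcN (by simpa using h)
  obtain ⟨ρ, hρ⟩ := fN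
  obtain ⟨σ, hσ⟩ := fP
  by_cases hcase : (∃ y : ℤ, (3 : ℤ) ∣ y - (ρ + 1) ∧ y ∉ N) ∧ (∃ z : ℤ, (3 : ℤ) ∣ z - (ρ + 2) ∧ z ∉ N)
  · obtain ⟨⟨y, hy, hyN⟩, z, hz, hzN⟩ := hcase
    -- `P` contains the class of `-ρ`
    have hP' : ∀ x : ℤ, (3 : ℤ) ∣ x + ρ → x ∈ P := by
      intro x hx
      rcases hM (-x) y z (by omega) (by omega) (by omega) with h | h | h
      · simpa using h
      · exact absurd h hyN
      · exact absurd h hzN
    exact S4 ρ ρ (hρ _ (by simp)) (hρ _ (by simp)) (hP' _ (by omega))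
  · -- two full classes
    have hcase' : ∃ ρ' : ℤ, ¬ (3 : ℤ) ∣ ρ' - ρ ∧ ∀ z : ℤ, (3 : ℤ) ∣ z - ρ' → z ∈ N := by
      by_contra hcon
      push Not at hcon
      exact hcase ⟨hcon _ (by omega), hcon _ (by omega)⟩
    obtain ⟨ρ', hne, hρ'⟩ := hcase'
    have h1 : ¬ (3 : ℤ) ∣ ρ - σ := by
      intro h
      exact S4 ρ ρ (hρ _ (by simp)) (hρ _ (by simp)) (hσ _ (by omega))
    have h2 : ¬ (3 : ℤ) ∣ ρ' - σ := by
      intro h
      exact S4 ρ' ρ' (hρ' _ (by simp)) (hρ' _ (by simp)) (hσ _ (by omega))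
    have h3 : (3 : ℤ) ∣ ρ + ρ' + σ := by
      have e1 : ρ % 3 = 0 ∨ ρ % 3 = 1 ∨ ρ % 3 = 2 := by omega
      have e2 : ρ' % 3 = 0 ∨ ρ' % 3 = 1 ∨ ρ' % 3 = 2 := by omega
      rcases e1 with e1 | e1 | e1 <;> rcases e2 with e2 | e2 | e2 <;> omega
    exact S4 ρ ρ' (hρ _ (by simp)) (hρ' _ (by simp)) (hσ _ h3)

/-- **the contradiction** -/
theorem comb (R U A P N : Set ℤ)
    (h0 : (0 : ℤ) ∈ R)
    (hR : (1 : ℤ) ∈ R ∨ (2 : ℤ) ∈ R ∨ (3 : ℤ) ∈ R)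
    (hC : ∀ x t : ℤ, x ∉ R → t - x ∈ U ∨ t ∈ U ∨ t + x ∈ U)
    (S1 : ∀ x y : ℤ, x ∈ R → y ∈ R → x + y ∉ U)
    (S2 : ∀ x y : ℤ, x ∈ A → y ∈ A → x + y ∉ R)
    (S4 : ∀ x y : ℤ, x ∈ N → y ∈ N → x + y ∉ P)
    (hU : ∃ z, z ∈ U) (hA : ∃ z, z ∈ A)
    (hN : ∀ x y z : ℤ, y - x ∉ R → z - x ∉ R → z - y ∉ R → x ∈ N ∨ y ∈ N ∨ z ∈ N)
    (hP : ∀ x y z : ℤ, y - x ∉ R → z - x ∉ R → z - y ∉ R → -x ∈ P ∨ -y ∈ P ∨ -z ∈ P)
    (hM : ∀ x y z : ℤ, y - x ∉ R → z - x ∉ R → z - y ∉ R → -x ∈ P ∨ y ∈ N ∨ z ∈ N) :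
    False := by
  have nRU : ∀ x ∈ R, x ∉ U := by
    intro x hx
    have := S1 x 0 hx h0
    simpa using this
  have neg : ∀ r ∈ R, -r ∈ R := by
    intro r hr
    by_contra hcon
    rcases hC (-r) r hcon with h | h | h
    · apply S1 r r hr hr
      have e : r - -r = r + r := by ring
      rwa [e] at h
    · exact nRU r hr h
    · apply nRU 0 h0
      have e : r + -r = 0 := by ring
      rwa [e] at h
  have add : ∀ r ∈ R, ∀ s ∈ R, r + s ∈ R := by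
    intro r hr s hs
    by_contra hcon
    rcases hC (r + s) 0 hcon with h | h | h
    · apply S1 (-r) (-s) (neg r hr) (neg s hs)
      have e : 0 - (r + s) = -r + -s := by ring
      rwa [e] at h
    · exact nRU 0 h0 h
    · apply S1 r s hr hs
      have e : 0 + (r + s) = r + s := by ring
      rwa [e] at h
  set G : AddSubgroup ℤ := { carrier := R, zero_mem' := h0, add_mem' := fun {a b} ha hb => add a ha b hb,
                             neg_mem' := fun {a} ha => neg a ha } with hG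
  obtain ⟨d, hd⟩ := Int.subgroup_cyclic G
  have hdP : ∀ z : ℤ, z ∈ R ↔ d ∣ z := by
    intro z
    have e1 : z ∈ R ↔ z ∈ G := Iff.rfl
    rw [e1, hd, ← AddSubgroup.zmultiples_eq_closure, Int.mem_zmultiples_iff]
  have hcas : (∀ z : ℤ, z ∈ R) ∨ (∀ z : ℤ, (2 : ℤ) ∣ z → z ∈ R) ∨ (∀ z : ℤ, z ∈ R ↔ (3 : ℤ) ∣ z) := by
    rcases hR with h | h | h
    · left
      intro z
      rw [hdP] at h ⊢
      exact h.trans (one_dvd z)
    · right; left
      intro z hz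
      rw [hdP] at h ⊢
      exact h.trans hz
    · rw [hdP] at h
      have h5 : d.natAbs ∣ 3 := by
        have := Int.natAbs_dvd_natAbs.2 h
        simpa using this
      rcases (Nat.dvd_prime Nat.prime_three).1 h5 with h6 | h6
      · left
        intro z
        rw [hdP]
        exact (Int.natAbs_dvd.1 (by rw [h6]; simp))
      · right; right
        intro z
        rw [hdP, ← Int.natAbs_dvd, h6]
        norm_num
  rcases hcas with h | h | h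
  · obtain ⟨z, hz⟩ := hU
    exact nRU z (h z) hz
  · obtain ⟨a, ha⟩ := hA
    exact S2 a a ha ha (h _ ⟨a, by ring⟩)
  · refine comb_three P N S4 (fun x y z h1 h2 h3 => ?_) (fun x y z h1 h2 h3 => ?_)
      (fun x y z h1 h2 h3 => ?_)
    · exact hN x y z (by rwa [h]) (by rwa [h]) (by rwa [h])
    · exact hP x y z (by rwa [h]) (by rwa [h]) (by rwa [h])
    · exact hM x y z (by rwa [h]) (by rwa [h]) (by rwa [h])

end Pool.Agent.P8H77.SG
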