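import Mathlib
import Pool.Agent.P8H77.SG.Comb

/-! Limit sets along three ultrafilters, and sums of three elements of a set with the property of four
classes. -/

set_option autoImplicit false

namespace Pool.Agent.P8H77.SG

open Filter Finset

/-- `w` or `-w` is in `D` -/
def Sy (D : Set ℤ) (w : ℤ) : Prop := w ∈ D ∨ -w ∈ D

/-- the factorials -/
def fc (i : ℕ) : ℤ := (Nat.factorial i : ℤ)

/-- the ultrafilter of the indices -/
noncomputable def U : Ultrafilter ℕ := Filter.hyperfilter ℕ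

/-- the limit sets -/
def L (D : Set ℤ) (V : Ultrafilter ℕ) (a : ℤ) : Set ℤ :=
  {z | ∀ᶠ i in (U : Filter ℕ), ∀ᶠ j in (U : Filter ℕ), ∀ᶠ m : ℕ in (V : Filter ℕ),
    Sy D (a * (m : ℤ) + (fc j - fc i) + z)}

/-- the property of four classes of `K` integers, with mutual distances at least `C`, each of them in one class
modulo `W`, where these four classes have the property `P` -/
def FourP (P : (Fin 4 → ℤ) → Prop) (D : Set ℤ) (K W : ℕ) (C : ℤ) : Prop :=
  ∀ (x : Fin 4 → Fin K → ℤ) (a : Fin 4 → ℤ),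
    (∀ g g' i i', (g, i) ≠ (g', i') → C ≤ |x g' i' - x g i|) →
    (∀ g i, (W : ℤ) ∣ x g i - a g) → P a →
    ∃ g g' : Fin 4, ∃ i i' : Fin K, g < g' ∧ Sy D (x g' i' - x g i)

/-- four integers which miss a class modulo `3` -/
def Miss (a : Fin 4 → ℤ) : Prop := ∃ c : ℤ, ∀ g, ¬ (3 : ℤ) ∣ a g - c

theorem ev_ge (n : ℕ) : ∀ᶠ i in (U : Filter ℕ), n ≤ i :=
  Nat.hyperfilter_le_atTop (Filter.eventually_ge_atTop n)

theorem fc_big (i : ℕ) (B : ℤ) : ∀ᶠ j in (U : Filter ℕ), fc i + B < fc j := by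
  filter_upwards [ev_ge (Nat.factorial i + B.toNat + 1)] with j hj
  unfold fc
  have h1 : j ≤ Nat.factorial j := Nat.self_le_factorial j
  have h2 : B ≤ (B.toNat : ℤ) := Int.self_le_toNat B
  have h3 : ((Nat.factorial i + B.toNat + 1 : ℕ) : ℤ) ≤ (Nat.factorial j : ℤ) := by
    exact_mod_cast hj.trans h1
  push_cast at h3
  linarith

theorem fc_dvd {p i : ℕ} (hp : 0 < p) (h : p ≤ i) : (p : ℤ) ∣ fc i := by
  unfold fc
  exact_mod_cast Nat.dvd_factorial hp h

theorem fc_nonneg (i : ℕ) : 0 ≤ fc i := by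
  unfold fc
  positivity

theorem ev_big {V : Ultrafilter ℕ} (hV : (V : Filter ℕ) ≤ atTop) (B : ℤ) :
    ∀ᶠ m : ℕ in (V : Filter ℕ), B ≤ (m : ℤ) := by
  have h1 : ∀ᶠ m : ℕ in (V : Filter ℕ), B.toNat ≤ m := hV (eventually_ge_atTop _)
  filter_upwards [h1] with m hm
  have h2 : B ≤ (B.toNat : ℤ) := Int.self_le_toNat B
  have h3 : (B.toNat : ℤ) ≤ (m : ℤ) := by exact_mod_cast hm
  linarith

theorem not_L {D : Set ℤ} {V : Ultrafilter ℕ} {a z : ℤ} (h : z ∉ L D V a) :
    ∀ᶠ i in (U : Filter ℕ), ∀ᶠ j in (U : Filter ℕ), ∀ᶠ m : ℕ in (V : Filter ℕ),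
      ¬ Sy D (a * (m : ℤ) + (fc j - fc i) + z) := by
  unfold L at h
  rw [Set.mem_ofPred_eq, ← Ultrafilter.eventually_not] at h
  filter_upwards [h] with i hi
  rw [← Ultrafilter.eventually_not] at hi
  filter_upwards [hi] with j hj
  rwa [← Ultrafilter.eventually_not] at hj

/-- a bound for the differences -/
theorem diff_bound {T : ℕ} (e : Fin T → ℤ) : ∃ B : ℤ, 0 ≤ B ∧ ∀ g g', |e g - e g'| ≤ B := by
  refine ⟨∑ g, 2 * |e g|, sum_nonneg fun _ _ => by positivity, fun g g' => ?_⟩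
  have h1 : ∑ g'' ∈ ({g, g'} : Finset (Fin T)), 2 * |e g''| ≤ ∑ g, 2 * |e g| :=
    sum_le_sum_of_subset_of_nonneg (subset_univ _) fun _ _ _ => by positivity
  have h2 : |e g| + |e g'| ≤ ∑ g'' ∈ ({g, g'} : Finset (Fin T)), 2 * |e g''| := by
    by_cases h : g = g'
    · subst h
      simp
      have := abs_nonneg (e g)
      linarith
    · rw [sum_pair h]
      have := abs_nonneg (e g)
      have := abs_nonneg (e g')
      linarith
  exact (abs_sub _ _).trans (h2.trans h1)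

/-- **the choice of the classes** -/
theorem select {D : Set ℤ} {V : Ultrafilter ℕ} (hV : (V : Filter ℕ) ≤ atTop) {T : ℕ} (c e : Fin T → ℤ)
    (h : ∀ g g' : Fin T, g < g' → e g' - e g ∉ L D V (c g' - c g)) (K i₀ : ℕ) (C : ℤ) (Q : ℕ → Prop)
    (hQ : ∀ᶠ m : ℕ in (V : Filter ℕ), Q m) :
    ∃ (m : ℕ) (f : ℕ → ℕ), Q m ∧ (∀ i, i₀ ≤ f i) ∧
      (∀ (g g' : Fin T) (i i' : Fin K), g < g' →
        ¬ Sy D ((c g' * m + fc (f (i' + K * g')) + e g') - (c g * m + fc (f (i + K * g)) + e g))) ∧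
      (∀ (g g' : Fin T) (i i' : Fin K), (g, i) ≠ (g', i') →
        C ≤ |(c g' * m + fc (f (i' + K * g')) + e g') - (c g * m + fc (f (i + K * g)) + e g)|) := by
  classical
  obtain ⟨B, hB0, hB⟩ := diff_bound e
  obtain ⟨f, hf1, hf2⟩ := exists_seq_of_forall_finset_exists
    (fun i : ℕ => i₀ ≤ i ∧ ∀ a b : Fin T, a < b → ∀ᶠ j in (U : Filter ℕ), ∀ᶠ m : ℕ in (V : Filter ℕ),
      ¬ Sy D ((c b - c a) * (m : ℤ) + (fc j - fc i) + (e b - e a)))
    (fun i j : ℕ => fc i + (B + C) < fc j ∧ ∀ a b : Fin T, a < b → ∀ᶠ m : ℕ in (V : Filter ℕ),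
      ¬ Sy D ((c b - c a) * (m : ℤ) + (fc j - fc i) + (e b - e a)))
    (by
      intro s hs
      have h1 : ∀ᶠ y in (U : Filter ℕ), i₀ ≤ y ∧ ∀ a b : Fin T, a < b → ∀ᶠ j in (U : Filter ℕ),
          ∀ᶠ m : ℕ in (V : Filter ℕ), ¬ Sy D ((c b - c a) * (m : ℤ) + (fc j - fc y) + (e b - e a)) := by
        refine (ev_ge i₀).and ?_
        rw [Filter.eventually_all]
        intro a
        rw [Filter.eventually_all]
        intro b
        by_cases hab : a < b
        · filter_upwards [not_L (h a b hab)] with y hy _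
          exact hy
        · exact Filter.Eventually.of_forall fun y h => absurd h hab
      have h2 : ∀ᶠ y in (U : Filter ℕ), ∀ x ∈ s, fc x + (B + C) < fc y ∧
          ∀ a b : Fin T, a < b → ∀ᶠ m : ℕ in (V : Filter ℕ),
            ¬ Sy D ((c b - c a) * (m : ℤ) + (fc y - fc x) + (e b - e a)) := by
        rw [Filter.eventually_all_finset]
        intro x hx
        refine (fc_big x (B + C)).and ?_
        rw [Filter.eventually_all]
        intro a
        rw [Filter.eventually_all]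
        intro b
        by_cases hab : a < b
        · filter_upwards [(hs x hx).2 a b hab] with y hy _
          exact hy
        · exact Filter.Eventually.of_forall fun y h => absurd h hab
      exact (h1.and h2).exists)
  -- the bound for the factorials
  set F : ℤ := ∑ a ∈ range (K * T), fc (f a) with hF
  have hFa : ∀ a, a < K * T → fc (f a) ≤ F := fun a ha =>
    single_le_sum (f := fun a => fc (f a)) (fun a _ => fc_nonneg _) (mem_range.2 ha)
  have hidx : ∀ (g : Fin T) (i : Fin K), (i : ℕ) + K * g < K * T := by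
    intro g i
    have h1 : (g : ℕ) + 1 ≤ T := g.2
    have h2 : K * ((g : ℕ) + 1) ≤ K * T := Nat.mul_le_mul_left K h1
    have h3 := i.2
    nlinarith
  have hm : ∀ᶠ m : ℕ in (V : Filter ℕ), (∀ a ∈ range (K * T), ∀ b ∈ range (K * T), a < b →
      ∀ g g' : Fin T, g < g' → ¬ Sy D ((c g' - c g) * (m : ℤ) + (fc (f b) - fc (f a)) + (e g' - e g))) ∧
      F + B + C ≤ (m : ℤ) := by
    refine Filter.Eventually.and ?_ (ev_big hV _)
    rw [Filter.eventually_all_finset]
    intro a _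
    rw [Filter.eventually_all_finset]
    intro b _
    by_cases hab : a < b
    · have h1 : ∀ᶠ m : ℕ in (V : Filter ℕ), ∀ g g' : Fin T, g < g' →
          ¬ Sy D ((c g' - c g) * (m : ℤ) + (fc (f b) - fc (f a)) + (e g' - e g)) := by
        rw [Filter.eventually_all]
        intro g
        rw [Filter.eventually_all]
        intro g'
        by_cases hgg : g < g'
        · filter_upwards [(hf2 a b hab).2 g g' hgg] with m hm _
          exact hm
        · exact Filter.Eventually.of_forall fun y h => absurd h hgg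
      filter_upwards [h1] with m hm _
      exact hm
    · exact Filter.Eventually.of_forall fun y h => absurd h hab
  obtain ⟨m, ⟨hm1, hm2⟩, hmQ⟩ := (hm.and hQ).exists
  refine ⟨m, f, hmQ, fun i => (hf1 i).1, fun g g' i i' hgg => ?_, fun g g' i i' hne => ?_⟩
  · have hlt : (i : ℕ) + K * g < i' + K * g' := by
      have h1 : (g : ℕ) + 1 ≤ g' := hgg
      have h2 : K * ((g : ℕ) + 1) ≤ K * g' := Nat.mul_le_mul_left K h1
      have h3 := i.2
      nlinarith
    have h3 := hm1 _ (mem_range.2 (hidx g i)) _ (mem_range.2 (hidx g' i')) hlt g g' hgg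
    have e1 : (c g' * m + fc (f (i' + K * g')) + e g') - (c g * m + fc (f (i + K * g)) + e g) =
        (c g' - c g) * (m : ℤ) + (fc (f (i' + K * g')) - fc (f (i + K * g))) + (e g' - e g) := by ring
    rw [e1]
    exact h3
  · have e1 : (c g' * m + fc (f (i' + K * g')) + e g') - (c g * m + fc (f (i + K * g)) + e g) =
        (c g' - c g) * (m : ℤ) + (fc (f (i' + K * g')) - fc (f (i + K * g))) + (e g' - e g) := by ring
    rw [e1]
    have hBe := abs_le.1 (hB g' g)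
    by_cases hc : c g' = c g
    · rw [hc, sub_self, zero_mul, zero_add]
      have hab : (i : ℕ) + K * g ≠ i' + K * g' := by
        intro hcon
        apply hne
        have hK : 0 < K := Nat.pos_of_ne_zero (by rintro rfl; exact i.elim0)
        have h1 : ((i : ℕ) + K * g) % K = i := by
          rw [Nat.add_mul_mod_self_left, Nat.mod_eq_of_lt i.2]
        have h2 : ((i' : ℕ) + K * g') % K = i' := by
          rw [Nat.add_mul_mod_self_left, Nat.mod_eq_of_lt i'.2]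
        have h3 : (i : ℕ) = i' := by rw [← h1, ← h2, hcon]
        have h4 : K * (g : ℕ) = K * g' := by omega
        have h5 : (g : ℕ) = g' := Nat.eq_of_mul_eq_mul_left hK h4
        exact Prod.ext (Fin.ext h5) (Fin.ext h3)
      rcases lt_or_gt_of_ne hab with h1 | h1
      · have h2 := (hf2 _ _ h1).1
        refine le_trans ?_ (le_abs_self _)
        linarith [hBe.1]
      · have h2 := (hf2 _ _ h1).1
        refine le_trans ?_ (neg_le_abs _)
        linarith [hBe.2]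
    · have h1 := fc_nonneg (f (i + K * g))
      have h2 := fc_nonneg (f (i' + K * g'))
      have h3 := hFa _ (hidx g i)
      have h4 := hFa _ (hidx g' i')
      have hm0 : (0 : ℤ) ≤ (m : ℤ) := by positivity
      rcases lt_or_gt_of_ne hc with h5 | h5
      · have h6 : (c g' - c g) * (m : ℤ) ≤ -m := by nlinarith
        refine le_trans ?_ (neg_le_abs _)
        linarith [hBe.2]
      · have h6 : (m : ℤ) ≤ (c g' - c g) * (m : ℤ) := by nlinarith
        refine le_trans ?_ (le_abs_self _)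
        linarith [hBe.1]

/-- **the four point property of the limit sets** -/
theorem four_L {P : (Fin 4 → ℤ) → Prop} {D : Set ℤ} {V : Ultrafilter ℕ} (hV : (V : Filter ℕ) ≤ atTop)
    {K W : ℕ} {C : ℤ} (hW : 0 < W) (hF : FourP P D K W C) (c e : Fin 4 → ℤ)
    (h3 : ∀ᶠ m : ℕ in (V : Filter ℕ), P (fun g => c g * (m : ℤ) + e g)) :
    ∃ g g' : Fin 4, g < g' ∧ e g' - e g ∈ L D V (c g' - c g) := by
  by_contra hcon
  push Not at hcon
  obtain ⟨m, f, hmQ, hf, h1, h2⟩ := select hV c e hcon K W C _ h3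
  obtain ⟨g, g', i, i', hgg, hD⟩ := hF (fun g i => c g * m + fc (f (i + K * g)) + e g)
    (fun g => c g * m + e g) (fun g g' i i' hne => h2 g g' i i' hne) (fun g i => by
      have e1 : c g * (m : ℤ) + fc (f (i + K * g)) + e g - (c g * m + e g) = fc (f (i + K * g)) := by ring
      rw [e1]
      exact fc_dvd hW (hf _)) hmQ
  exact h1 g g' i i' hgg hD

/-- the same for four explicit classes -/
theorem four_L' {D : Set ℤ} {V : Ultrafilter ℕ} (hV : (V : Filter ℕ) ≤ atTop) {K W : ℕ} {C : ℤ} (hW : 0 < W)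
    (hF : FourP Miss D K W C) (c₀ c₁ c₂ c₃ e₀ e₁ e₂ e₃ : ℤ)
    (h3 : ∀ m : ℤ, ∃ b : ℤ, ¬ (3 : ℤ) ∣ c₀ * m + e₀ - b ∧ ¬ (3 : ℤ) ∣ c₁ * m + e₁ - b ∧
      ¬ (3 : ℤ) ∣ c₂ * m + e₂ - b ∧ ¬ (3 : ℤ) ∣ c₃ * m + e₃ - b) :
    e₁ - e₀ ∈ L D V (c₁ - c₀) ∨ e₂ - e₀ ∈ L D V (c₂ - c₀) ∨ e₃ - e₀ ∈ L D V (c₃ - c₀) ∨
      e₂ - e₁ ∈ L D V (c₂ - c₁) ∨ e₃ - e₁ ∈ L D V (c₃ - c₁) ∨ e₃ - e₂ ∈ L D V (c₃ - c₂) := by
  obtain ⟨g, g', hgg, hm⟩ := four_L hV hW hF ![c₀, c₁, c₂, c₃] ![e₀, e₁, e₂, e₃] (by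
    refine Filter.Eventually.of_forall fun m => ?_
    obtain ⟨b, h0, h1, h2, h4⟩ := h3 m
    refine ⟨b, fun g => ?_⟩
    fin_cases g
    · exact h0
    · exact h1
    · exact h2
    · exact h4)
  fin_cases g <;> fin_cases g' <;> simp at hgg hm <;> tauto

/-- **the limit sets are not empty** -/
theorem nonempty_L {P : (Fin 4 → ℤ) → Prop} {D : Set ℤ} {V : Ultrafilter ℕ} (hV : (V : Filter ℕ) ≤ atTop)
    {K W : ℕ} {C : ℤ} (hW : 0 < W) (hF : FourP P D K W C) (a : ℤ) (ha : a ≠ 0) (s : ℕ) (hs : 0 < s)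
    (hsa : ∀ᶠ m : ℕ in (V : Filter ℕ), (s : ℤ) ∣ a * (m : ℤ))
    (hP : ∀ v : Fin 4 → ℤ, (∀ g, (s : ℤ) ∣ v g) → P v) :
    ∃ z : ℤ, (s : ℤ) * z ∈ L D V a := by
  classical
  by_contra hcon
  push Not at hcon
  -- two classes without differences
  obtain ⟨m, f, h3a, hf, h1, h2⟩ := select (D := D) hV ![0, a] ![0, 0] (by
    intro g g' hgg
    fin_cases g <;> fin_cases g' <;> simp at hgg
    simpa using hcon 0) K (W + s) C _ hsa
  obtain ⟨x, hx⟩ : ∃ x : Fin 2 → Fin K → ℤ, ∀ g i,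
      x g i = ![0, a] g * m + fc (f (i + K * g)) + ![(0 : ℤ), 0] g := ⟨fun g i => _, fun g i => rfl⟩
  have hx1 : ∀ (g g' : Fin 2) (i i' : Fin K), g < g' → ¬ Sy D (x g' i' - x g i) := by
    intro g g' i i' hgg
    rw [hx, hx]
    exact h1 g g' i i' hgg
  have hx2 : ∀ (g g' : Fin 2) (i i' : Fin K), (g, i) ≠ (g', i') → C ≤ |x g' i' - x g i| := by
    intro g g' i i' hne
    rw [hx, hx]
    exact h2 g g' i i' hne
  have hx3 : ∀ g i, (s : ℤ) ∣ x g i := by
    intro g i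
    rw [hx]
    have h4 : (s : ℤ) ∣ fc (f (i + K * g)) :=
      fc_dvd (p := s) (i := f (i + K * g)) hs (by have := hf (i + K * g); omega)
    have h5 : (s : ℤ) ∣ ![0, a] g * m := by
      fin_cases g
      · simp
      · exact h3a
    have h6 : ![(0 : ℤ), 0] g = 0 := by fin_cases g <;> rfl
    rw [h6, add_zero]
    exact dvd_add h5 h4
  -- the diameter
  obtain ⟨w, hw⟩ : ∃ w : ℤ, ∀ g g' i i', |x g' i' - x g i| ≤ w := by
    refine ⟨∑ p : (Fin 2 × Fin K) × (Fin 2 × Fin K), |x p.2.1 p.2.2 - x p.1.1 p.1.2|, fun g g' i i' => ?_⟩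
    exact single_le_sum (f := fun p : (Fin 2 × Fin K) × (Fin 2 × Fin K) => |x p.2.1 p.2.2 - x p.1.1 p.1.2|)
      (fun _ _ => abs_nonneg _) (mem_univ ((g, i), (g', i')))
  -- the hole
  obtain ⟨H, hH3, hHw, hH⟩ : ∃ H : ℤ, (s : ℤ) ∣ H ∧ w + C ≤ |H| ∧ ∀ z : ℤ, |z| ≤ w → (s : ℤ) ∣ z →
      ¬ Sy D (H + z) := by
    have h4 : ∀ z ∈ Icc (-w) w, ∀ᶠ i in (U : Filter ℕ), ∀ᶠ j in (U : Filter ℕ), ∀ᶠ m : ℕ in (V : Filter ℕ),
        (s : ℤ) ∣ z → ¬ Sy D (a * (m : ℤ) + (fc j - fc i) + z) := by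
      intro z _
      by_cases hz : (s : ℤ) ∣ z
      · obtain ⟨t, rfl⟩ := hz
        filter_upwards [not_L (hcon t)] with i hi
        filter_upwards [hi] with j hj
        filter_upwards [hj] with m hm _
        exact hm
      · exact Filter.Eventually.of_forall fun i => Filter.Eventually.of_forall fun j =>
          Filter.Eventually.of_forall fun m h => absurd h hz
    rw [← Filter.eventually_all_finset] at h4
    obtain ⟨i, hi, hi3⟩ := (h4.and (ev_ge s)).exists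
    rw [← Filter.eventually_all_finset] at hi
    obtain ⟨j, hj, hj3⟩ := (hi.and (ev_ge s)).exists
    rw [← Filter.eventually_all_finset] at hj
    obtain ⟨m, ⟨hm, hmB⟩, hms⟩ := ((hj.and (ev_big hV (w + C + |fc j - fc i|))).and hsa).exists
    refine ⟨a * (m : ℤ) + (fc j - fc i), ?_, ?_, ?_⟩
    · exact dvd_add hms (dvd_sub (fc_dvd hs hj3) (fc_dvd hs hi3))
    · have hm0 : (0 : ℤ) ≤ (m : ℤ) := by positivity
      have h5 : (m : ℤ) ≤ |a * (m : ℤ)| := by
        rw [abs_mul, abs_of_nonneg hm0]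
        have h6 : 1 ≤ |a| := Int.one_le_abs ha
        nlinarith
      have h6 : |a * (m : ℤ)| - |fc j - fc i| ≤ |a * (m : ℤ) + (fc j - fc i)| := by
        have h7 := abs_sub_abs_le_abs_sub (a * (m : ℤ)) (-(fc j - fc i))
        rw [abs_neg, sub_neg_eq_add] at h7
        exact h7
      linarith
    · intro z hz hz3
      exact hm z (mem_Icc.2 (abs_le.1 hz)) hz3
  -- the four classes
  obtain ⟨y, hy⟩ : ∃ y : Fin 4 → Fin K → ℤ,
      y = ![fun i => x 0 i, fun i => x 1 i, fun i => x 0 i + H, fun i => x 1 i + H] := ⟨_, rfl⟩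
  have hy0 : ∀ i, y 0 i = x 0 i := fun i => by rw [hy]; rfl
  have hy1 : ∀ i, y 1 i = x 1 i := fun i => by rw [hy]; rfl
  have hy2 : ∀ i, y 2 i = x 0 i + H := fun i => by rw [hy]; rfl
  have hy3 : ∀ i, y 3 i = x 1 i + H := fun i => by rw [hy]; rfl
  -- a uniform description
  have hyu : ∀ g : Fin 4, ∃ (g₁ : Fin 2) (s : ℕ), s < 2 ∧ (g : ℕ) = g₁ + 2 * s ∧
      ∀ i, y g i = x g₁ i + s * H := by
    intro g
    fin_cases g
    · exact ⟨0, 0, by norm_num, rfl, fun i => by simp [hy0]⟩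
    · exact ⟨1, 0, by norm_num, rfl, fun i => by simp [hy1]⟩
    · exact ⟨0, 1, by norm_num, rfl, fun i => by simp [hy2]⟩
    · exact ⟨1, 1, by norm_num, rfl, fun i => by simp [hy3]⟩
  have hfar : ∀ g g' i i', C ≤ |H + (x g' i' - x g i)| := by
    intro g g' i i'
    have h7 := abs_sub_abs_le_abs_sub H (-(x g' i' - x g i))
    rw [abs_neg, sub_neg_eq_add] at h7
    have h8 := hw g g' i i'
    linarith
  obtain ⟨g, g', i, i', hgg, hD⟩ := hF y ![0, a * m, H, a * m + H] (by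
      intro g g' i i' hne
      obtain ⟨g₁, s, hs, hgs, hyg⟩ := hyu g
      obtain ⟨g₁', s', hs', hgs', hyg'⟩ := hyu g'
      rw [hyg, hyg']
      have hs2 : s = 0 ∨ s = 1 := by omega
      have hs2' : s' = 0 ∨ s' = 1 := by omega
      rcases hs2 with rfl | rfl <;> rcases hs2' with rfl | rfl
      · have h7 := hx2 g₁ g₁' i i' (by
          intro hcon
          apply hne
          rw [Prod.mk.injEq] at hcon ⊢
          exact ⟨Fin.ext (by rw [hgs, hgs', hcon.1]), hcon.2⟩)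
        simpa using h7
      · have h7 := hfar g₁ g₁' i i'
        have e1 : x g₁' i' + ((1 : ℕ) : ℤ) * H - (x g₁ i + ((0 : ℕ) : ℤ) * H) =
            H + (x g₁' i' - x g₁ i) := by push_cast; ring
        rw [e1]
        exact h7
      · have h7 := hfar g₁' g₁ i' i
        have e1 : x g₁' i' + ((0 : ℕ) : ℤ) * H - (x g₁ i + ((1 : ℕ) : ℤ) * H) =
            -(H + (x g₁ i - x g₁' i')) := by push_cast; ring
        rw [e1, abs_neg]
        exact h7
      · have h7 := hx2 g₁ g₁' i i' (by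
          intro hcon
          apply hne
          rw [Prod.mk.injEq] at hcon ⊢
          exact ⟨Fin.ext (by rw [hgs, hgs', hcon.1]), hcon.2⟩)
        have e1 : x g₁' i' + ((1 : ℕ) : ℤ) * H - (x g₁ i + ((1 : ℕ) : ℤ) * H) =
            x g₁' i' - x g₁ i := by push_cast; ring
        rw [e1]
        exact h7) (by
      intro g i
      have h7 : ∀ j, (W : ℤ) ∣ fc (f j) := fun j => fc_dvd hW (by have := hf j; omega)
      have e0 : ∀ i, x 0 i = fc (f (i + K * (0 : Fin 2))) := by intro i; rw [hx]; simp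
      have e1 : ∀ i, x 1 i = a * m + fc (f (i + K * (1 : Fin 2))) := by intro i; rw [hx]; simp
      fin_cases g
      · show (W : ℤ) ∣ y 0 i - 0
        rw [hy0, e0, sub_zero]
        exact h7 _
      · show (W : ℤ) ∣ y 1 i - a * m
        rw [hy1, e1]
        have e2 : a * (m : ℤ) + fc (f (i + K * (1 : Fin 2))) - a * m = fc (f (i + K * (1 : Fin 2))) := by ring
        rw [e2]
        exact h7 _
      · show (W : ℤ) ∣ y 2 i - H
        rw [hy2, e0]
        have e2 : fc (f (i + K * (0 : Fin 2))) + H - H = fc (f (i + K * (0 : Fin 2))) := by ring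
        rw [e2]
        exact h7 _
      · show (W : ℤ) ∣ y 3 i - (a * m + H)
        rw [hy3, e1]
        have e2 : a * (m : ℤ) + fc (f (i + K * (1 : Fin 2))) + H - (a * m + H) =
            fc (f (i + K * (1 : Fin 2))) := by ring
        rw [e2]
        exact h7 _) (hP _ (by
      intro g
      fin_cases g
      · exact dvd_zero _
      · exact h3a
      · exact hH3
      · exact dvd_add h3a hH3))
  obtain ⟨g₁, s, hs, hgs, hyg⟩ := hyu g
  obtain ⟨g₁', s', hs', hgs', hyg'⟩ := hyu g'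
  rw [hyg, hyg'] at hD
  have hgg' : (g : ℕ) < g' := hgg
  have hs2 : s = 0 ∨ s = 1 := by omega
  have hs2' : s' = 0 ∨ s' = 1 := by omega
  have hb := g₁.2
  have hb' := g₁'.2
  rcases hs2 with rfl | rfl <;> rcases hs2' with rfl | rfl
  · apply hx1 g₁ g₁' i i' (by rw [Fin.lt_def]; omega)
    simpa using hD
  · apply hH (x g₁' i' - x g₁ i) (hw _ _ _ _) (dvd_sub (hx3 _ _) (hx3 _ _))
    have e1 : x g₁' i' + ((1 : ℕ) : ℤ) * H - (x g₁ i + ((0 : ℕ) : ℤ) * H) =
        H + (x g₁' i' - x g₁ i) := by push_cast; ring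
    rwa [e1] at hD
  · omega
  · apply hx1 g₁ g₁' i i' (by rw [Fin.lt_def]; omega)
    have e1 : x g₁' i' + ((1 : ℕ) : ℤ) * H - (x g₁ i + ((1 : ℕ) : ℤ) * H) =
        x g₁' i' - x g₁ i := by push_cast; ring
    rwa [e1] at hD

/-- three memberships at the same time -/
theorem triple {D : Set ℤ} {V : Ultrafilter ℕ} (hV : (V : Filter ℕ) ≤ atTop) {p q s x y : ℤ}
    (hx : x ∈ L D V p) (hy : y ∈ L D V q) (hs : x + y ∈ L D V s) (Q : ℕ → Prop)
    (hQ : ∀ᶠ m : ℕ in (V : Filter ℕ), Q m) :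
    ∃ i j k m : ℕ, Q m ∧ Sy D (p * (m : ℤ) + (fc j - fc i) + x) ∧ Sy D (q * (m : ℤ) + (fc k - fc j) + y) ∧
      Sy D (s * (m : ℤ) + (fc k - fc i) + (x + y)) ∧ 0 < fc j - fc i + x ∧ 0 < fc k - fc j + y ∧
      fc k - fc i + |x| + |y| < m := by
  obtain ⟨i, hi1, hi2⟩ := (Filter.Eventually.and hx hs).exists
  obtain ⟨j, ⟨hj1, hj2⟩, hj3⟩ := ((hi1.and hy).and (fc_big i (-x))).exists
  obtain ⟨k, ⟨hk1, hk2⟩, hk3⟩ := ((hi2.and hj2).and (fc_big j (-y))).exists
  obtain ⟨m, ⟨⟨hm1, hm2⟩, hm3⟩, hm4, hm5⟩ := (((hj1.and hk1).and hk2).and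
    (hQ.and (ev_big hV (fc k - fc i + |x| + |y| + 1)))).exists
  exact ⟨i, j, k, m, hm4, hm1, hm3, hm2, by linarith, by linarith, by linarith⟩

theorem sy_pos {D : Set ℤ} (hpos : ∀ w ∈ D, 0 < w) {w : ℤ} (h : Sy D w) (hw : 0 < w) : w ∈ D := by
  rcases h with h | h
  · exact h
  · have := hpos _ h
    linarith

theorem sy_neg {D : Set ℤ} (hpos : ∀ w ∈ D, 0 < w) {w : ℤ} (h : Sy D w) (hw : w < 0) : -w ∈ D := by
  rcases h with h | h
  · have := hpos _ h
    linarith
  · exact h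

/-- **sums of three elements** -/
theorem sums {D : Set ℤ} (hpos : ∀ w ∈ D, 0 < w) {K W : ℕ} {C : ℤ} (hW : 0 < W) (hF : FourP Miss D K W C) :
    ∀ᶠ m : ℕ in atTop, ∃ d₁ ∈ D, ∃ d₂ ∈ D, ∃ d₃ ∈ D, 6 * (m : ℤ) = d₁ + d₂ + d₃ := by
  by_contra hcon
  rw [Filter.not_eventually] at hcon
  set Bad : Set ℕ := {m : ℕ | ¬ ∃ d₁ ∈ D, ∃ d₂ ∈ D, ∃ d₃ ∈ D, 6 * (m : ℤ) = d₁ + d₂ + d₃} with hBad
  have hne : (atTop ⊓ 𝓟 Bad).NeBot := Filter.frequently_mem_iff_neBot.1 hcon
  obtain ⟨V, hV'⟩ := Ultrafilter.exists_le (atTop ⊓ 𝓟 Bad)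
  have hV : (V : Filter ℕ) ≤ atTop := hV'.trans inf_le_left
  have hQ : ∀ᶠ m : ℕ in (V : Filter ℕ), m ∈ Bad := hV' (mem_inf_of_right (mem_principal_self Bad))
  have hbad : ∀ m ∈ Bad, ∀ d₁ ∈ D, ∀ d₂ ∈ D, ∀ d₃ ∈ D, 6 * (m : ℤ) ≠ d₁ + d₂ + d₃ :=
    fun m hm d₁ h₁ d₂ h₂ d₃ h₃ he => hm ⟨d₁, h₁, d₂, h₂, d₃, h₃, he⟩
  -- the residue class modulo three
  have mod3 : ∀ m : ℤ, ∃ b : ℤ, ¬ (3 : ℤ) ∣ b ∧ ¬ (3 : ℤ) ∣ 2 * m - b := by
    intro m
    have h3 : m % 3 = 0 ∨ m % 3 = 1 ∨ m % 3 = 2 := by omega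
    rcases h3 with h3 | h3 | h3
    · exact ⟨1, by omega, by omega⟩
    · exact ⟨1, by omega, by omega⟩
    · exact ⟨2, by omega, by omega⟩
  have hmiss : ∀ v : Fin 4 → ℤ, (∀ g, ((3 : ℕ) : ℤ) ∣ v g) → Miss v := by
    intro v hv
    refine ⟨1, fun g => ?_⟩
    have := hv g
    push_cast at this
    omega
  refine comb {z | 3 * z ∈ L D V 0} {z | 3 * z ∈ L D V (-6)} {z | 3 * z ∈ L D V (-3)}
    {z | 3 * z ∈ L D V 2} {z | 3 * z ∈ L D V (-2)} ?_ ?_ ?_ ?_ ?_ ?_ ?_ ?_ ?_ ?_ ?_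
  · -- `0`
    have h4 := four_L' hV hW hF 0 0 0 0 0 0 0 0 (fun m => ⟨1, by norm_num, by norm_num, by norm_num,
      by norm_num⟩)
    simpa using h4
  · have h4 := four_L' hV hW hF 0 0 0 0 0 3 6 9 (fun m => ⟨1, by norm_num, by norm_num, by norm_num,
      by norm_num⟩)
    norm_num at h4
    show 3 * (1 : ℤ) ∈ L D V 0 ∨ 3 * (2 : ℤ) ∈ L D V 0 ∨ 3 * (3 : ℤ) ∈ L D V 0
    norm_num
    tauto
  · intro x t hx
    have hx' : 3 * x ∉ L D V 0 := hx
    have h4 := four_L' hV hW hF 6 6 0 0 0 (3 * x) (3 * t) (3 * (t + x)) (fun m => ⟨1, by omega, by omega,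
      by omega, by omega⟩)
    have e1 : 3 * x - 0 = 3 * x := by ring
    have e2 : 3 * t - 0 = 3 * t := by ring
    have e3 : 3 * (t + x) - 0 = 3 * (t + x) := by ring
    have e4 : 3 * t - 3 * x = 3 * (t - x) := by ring
    have e5 : 3 * (t + x) - 3 * x = 3 * t := by ring
    have e6 : 3 * (t + x) - 3 * t = 3 * x := by ring
    rw [e1, e2, e3, e4, e5, e6, show (6 : ℤ) - 6 = 0 by norm_num, show (0 : ℤ) - 6 = -6 by norm_num,
      show (0 : ℤ) - 0 = 0 by norm_num] at h4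
    rcases h4 with h4 | h4 | h4 | h4 | h4 | h4
    · exact absurd h4 hx'
    · exact Or.inr (Or.inl h4)
    · exact Or.inr (Or.inr h4)
    · exact Or.inl h4
    · exact Or.inr (Or.inl h4)
    · exact absurd h4 hx'
  · -- `R + R` and `U`
    intro x y hx hy hxy
    have hxy' : 3 * x + 3 * y ∈ L D V (-6) := by
      have : 3 * (x + y) ∈ L D V (-6) := hxy
      rwa [mul_add] at this
    obtain ⟨i, j, k, m, hm, h1, h2, h3, h4, h5, h6⟩ := triple hV hx hy hxy' _ hQ
    have ax := neg_abs_le (3 * x)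
    have ay := neg_abs_le (3 * y)
    have bx := le_abs_self (3 * x)
    have by' := le_abs_self (3 * y)
    refine hbad m hm _ (sy_pos hpos h1 (by linarith)) _ (sy_pos hpos h2 (by linarith)) _
      (sy_neg hpos h3 (by linarith)) (by ring)
  · -- `A + A` and `R`
    intro x y hx hy hxy
    have hxy' : 3 * x + 3 * y ∈ L D V 0 := by
      have : 3 * (x + y) ∈ L D V 0 := hxy
      rwa [mul_add] at this
    obtain ⟨i, j, k, m, hm, h1, h2, h3, h4, h5, h6⟩ := triple hV hx hy hxy' _ hQ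
    have ax := neg_abs_le (3 * x)
    have ay := neg_abs_le (3 * y)
    have bx := le_abs_self (3 * x)
    have by' := le_abs_self (3 * y)
    refine hbad m hm _ (sy_neg hpos h1 (by linarith)) _ (sy_neg hpos h2 (by linarith)) _
      (sy_pos hpos h3 (by linarith)) (by ring)
  · -- `N + N` and `P`
    intro x y hx hy hxy
    have hxy' : 3 * x + 3 * y ∈ L D V 2 := by
      have : 3 * (x + y) ∈ L D V 2 := hxy
      rwa [mul_add] at this
    obtain ⟨i, j, k, m, hm, h1, h2, h3, h4, h5, h6⟩ := triple hV hx hy hxy' _ hQ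
    have ax := neg_abs_le (3 * x)
    have ay := neg_abs_le (3 * y)
    have bx := le_abs_self (3 * x)
    have by' := le_abs_self (3 * y)
    refine hbad m hm _ (sy_neg hpos h1 (by linarith)) _ (sy_neg hpos h2 (by linarith)) _
      (sy_pos hpos h3 (by linarith)) (by ring)
  · exact nonempty_L hV hW hF (-6) (by norm_num) 3 (by norm_num)
      (Filter.Eventually.of_forall fun m => ⟨-2 * m, by push_cast; ring⟩) hmiss
  · exact nonempty_L hV hW hF (-3) (by norm_num) 3 (by norm_num)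
      (Filter.Eventually.of_forall fun m => ⟨-m, by push_cast; ring⟩) hmiss
  · -- `w` first
    intro x y z h1 h2 h3
    have h4 := four_L' hV hW hF 2 0 0 0 0 (3 * x) (3 * y) (3 * z) (fun m => by
      obtain ⟨b, hb1, hb2⟩ := mod3 m
      exact ⟨b, by omega, by omega, by omega, by omega⟩)
    have e1 : 3 * y - 3 * x = 3 * (y - x) := by ring
    have e2 : 3 * z - 3 * x = 3 * (z - x) := by ring
    have e3 : 3 * z - 3 * y = 3 * (z - y) := by ring
    rw [e1, e2, e3, sub_zero, sub_zero, sub_zero, show (0 : ℤ) - 2 = -2 by norm_num,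
      show (0 : ℤ) - 0 = 0 by norm_num] at h4
    rcases h4 with h4 | h4 | h4 | h4 | h4 | h4
    · exact Or.inl h4
    · exact Or.inr (Or.inl h4)
    · exact Or.inr (Or.inr h4)
    · exact absurd h4 h1
    · exact absurd h4 h2
    · exact absurd h4 h3
  · -- `w` last
    intro x y z h1 h2 h3
    have h4 := four_L' hV hW hF 0 0 0 2 (3 * x) (3 * y) (3 * z) 0 (fun m => by
      obtain ⟨b, hb1, hb2⟩ := mod3 m
      exact ⟨b, by omega, by omega, by omega, by omega⟩)
    have e1 : 3 * y - 3 * x = 3 * (y - x) := by ring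
    have e2 : 3 * z - 3 * x = 3 * (z - x) := by ring
    have e3 : 3 * z - 3 * y = 3 * (z - y) := by ring
    have e4 : 0 - 3 * x = 3 * (-x) := by ring
    have e5 : 0 - 3 * y = 3 * (-y) := by ring
    have e6 : 0 - 3 * z = 3 * (-z) := by ring
    rw [e1, e2, e3, e4, e5, e6, show (2 : ℤ) - 0 = 2 by norm_num,
      show (0 : ℤ) - 0 = 0 by norm_num] at h4
    rcases h4 with h4 | h4 | h4 | h4 | h4 | h4
    · exact absurd h4 h1
    · exact absurd h4 h2
    · exact Or.inl h4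
    · exact absurd h4 h3
    · exact Or.inr (Or.inl h4)
    · exact Or.inr (Or.inr h4)
  · -- `w` second
    intro x y z h1 h2 h3
    have h4 := four_L' hV hW hF 0 2 0 0 (3 * x) 0 (3 * y) (3 * z) (fun m => by
      obtain ⟨b, hb1, hb2⟩ := mod3 m
      exact ⟨b, by omega, by omega, by omega, by omega⟩)
    have e1 : 3 * y - 3 * x = 3 * (y - x) := by ring
    have e2 : 3 * z - 3 * x = 3 * (z - x) := by ring
    have e3 : 3 * z - 3 * y = 3 * (z - y) := by ring
    have e4 : 0 - 3 * x = 3 * (-x) := by ring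
    rw [e1, e2, e3, e4, sub_zero (3 * y), sub_zero (3 * z), show (2 : ℤ) - 0 = 2 by norm_num,
      show (0 : ℤ) - 2 = -2 by norm_num, show (0 : ℤ) - 0 = 0 by norm_num] at h4
    rcases h4 with h4 | h4 | h4 | h4 | h4 | h4
    · exact Or.inl h4
    · exact absurd h4 h1
    · exact absurd h4 h2
    · exact Or.inr (Or.inl h4)
    · exact Or.inr (Or.inr h4)
    · exact absurd h4 h3

end Pool.Agent.P8H77.SG
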