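import Mathlib
import Pool.Agent.P8H77.SG.Lim

/-! Sums of an element of `D₁` and an element of `D₂`: one of three neighbours. -/

set_option autoImplicit false

namespace Pool.Agent.P8H77.SG

open Filter Finset

/-- the contradiction for the limit sets -/
theorem comb_two (R₁ R₂ U₁ U₂ : Set ℤ) (h₁ : (0 : ℤ) ∈ R₁) (h₂ : (0 : ℤ) ∈ R₂)
    (hC₁ : ∀ x : ℤ, x ∉ R₁ → -x ∈ U₁ ∨ (0 : ℤ) ∈ U₁ ∨ x ∈ U₁)
    (hC₂ : ∀ x : ℤ, x ∉ R₂ → -x ∈ U₂ ∨ (0 : ℤ) ∈ U₂ ∨ x ∈ U₂)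
    (S₁ : ∀ x δ : ℤ, |δ| ≤ 1 → x ∈ R₁ → x + δ ∉ U₂)
    (S₂ : ∀ x δ : ℤ, |δ| ≤ 1 → x ∈ R₂ → x + δ ∉ U₁) : ∀ z : ℤ, z ∉ U₁ := by
  have key : ∀ k : ℕ, ∀ x : ℤ, |x| ≤ k → x ∈ R₁ ∧ x ∈ R₂ := by
    intro k
    induction k with
    | zero =>
      intro x hx
      have : x = 0 := abs_nonpos_iff.1 (by simpa using hx)
      rw [this]
      exact ⟨h₁, h₂⟩
    | succ k ih =>
      -- the complements
      have hU : ∀ y : ℤ, |y| ≤ k + 1 → y ∉ U₁ ∧ y ∉ U₂ := by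
        intro y hy
        obtain ⟨x, δ, hx, hδ, rfl⟩ : ∃ x δ : ℤ, |x| ≤ k ∧ |δ| ≤ 1 ∧ y = x + δ := by
          rw [abs_le] at hy
          rcases lt_trichotomy y 0 with h | h | h
          · exact ⟨y + 1, -1, by rw [abs_le]; constructor <;> omega, by norm_num, by ring⟩
          · exact ⟨0, 0, by simp, by norm_num, by rw [h]; ring⟩
          · exact ⟨y - 1, 1, by rw [abs_le]; constructor <;> omega, by norm_num, by ring⟩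
        exact ⟨S₂ x δ hδ (ih x hx).2, S₁ x δ hδ (ih x hx).1⟩
      intro x hx
      push_cast at hx
      have hx' : |-x| ≤ (k : ℤ) + 1 := by rwa [abs_neg]
      have h0 : |(0 : ℤ)| ≤ (k : ℤ) + 1 := by rw [abs_zero]; positivity
      constructor
      · by_contra hcon
        rcases hC₁ x hcon with h | h | h
        · exact (hU _ hx').1 h
        · exact (hU _ h0).1 h
        · exact (hU _ hx).1 h
      · by_contra hcon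
        rcases hC₂ x hcon with h | h | h
        · exact (hU _ hx').2 h
        · exact (hU _ h0).2 h
        · exact (hU _ hx).2 h
  intro z
  have h1 := S₂ z 0 (by norm_num) (key z.natAbs z (by rw [Int.natCast_natAbs])).2
  rwa [add_zero] at h1

/-- two memberships at the same time -/
theorem double {D₁ D₂ : Set ℤ} {V : Ultrafilter ℕ} (hV : (V : Filter ℕ) ≤ atTop) {x y : ℤ}
    (hx : x ∈ L D₁ V 0) (hy : y ∈ L D₂ V (-1)) (Q : ℕ → Prop) (hQ : ∀ᶠ m : ℕ in (V : Filter ℕ), Q m) :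
    ∃ i j m : ℕ, Q m ∧ Sy D₁ (0 * (m : ℤ) + (fc j - fc i) + x) ∧ Sy D₂ (-1 * (m : ℤ) + (fc j - fc i) + y) ∧
      0 < fc j - fc i + x ∧ fc j - fc i + |y| < m := by
  obtain ⟨i, hi1, hi2⟩ := (Filter.Eventually.and hx hy).exists
  obtain ⟨j, ⟨hj1, hj2⟩, hj3⟩ := ((hi1.and hi2).and (fc_big i (-x))).exists
  obtain ⟨m, ⟨hm1, hm2⟩, hm3, hm4⟩ := ((hj1.and hj2).and
    (hQ.and (ev_big hV (fc j - fc i + |y| + 1)))).exists
  exact ⟨i, j, m, hm3, hm1, hm2, by linarith, by linarith⟩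

/-- **sums of two elements** -/
theorem sums_two {P : (Fin 4 → ℤ) → Prop} (s : ℕ) (hs : 0 < s)
    (hP : ∀ v : Fin 4 → ℤ, (∀ g, (s : ℤ) ∣ v g) → P v)
    (hP' : ∀ t x : ℤ, (s : ℤ) ∣ t → P ![t, t + x, 0, x])
    {D₁ D₂ : Set ℤ} (hpos₁ : ∀ w ∈ D₁, 0 < w) (hpos₂ : ∀ w ∈ D₂, 0 < w)
    {K₁ W₁ K₂ W₂ : ℕ} {C₁ C₂ : ℤ} (hW₁ : 0 < W₁) (hF₁ : FourP P D₁ K₁ W₁ C₁)
    (hW₂ : 0 < W₂) (hF₂ : FourP P D₂ K₂ W₂ C₂) :
    ∀ᶠ t : ℕ in atTop, s ∣ t → ∃ d₁ ∈ D₁, ∃ d₂ ∈ D₂, |d₁ + d₂ - (t : ℤ)| ≤ 1 := by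
  by_contra hcon
  rw [Filter.not_eventually] at hcon
  set Bad : Set ℕ := {t : ℕ | ¬ (s ∣ t → ∃ d₁ ∈ D₁, ∃ d₂ ∈ D₂, |d₁ + d₂ - (t : ℤ)| ≤ 1)} with hBad
  have hne : (atTop ⊓ 𝓟 Bad).NeBot := Filter.frequently_mem_iff_neBot.1 hcon
  obtain ⟨V, hV'⟩ := Ultrafilter.exists_le (atTop ⊓ 𝓟 Bad)
  have hV : (V : Filter ℕ) ≤ atTop := hV'.trans inf_le_left
  have hQ : ∀ᶠ m : ℕ in (V : Filter ℕ), m ∈ Bad := hV' (mem_inf_of_right (mem_principal_self Bad))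
  have hdvd : ∀ m ∈ Bad, s ∣ m := fun m hm => by
    by_contra h
    exact hm fun h' => absurd h' h
  have hbad : ∀ m ∈ Bad, ∀ d₁ ∈ D₁, ∀ d₂ ∈ D₂, ¬ |d₁ + d₂ - (m : ℤ)| ≤ 1 :=
    fun m hm d₁ h₁ d₂ h₂ he => hm fun _ => ⟨d₁, h₁, d₂, h₂, he⟩
  have hsV : ∀ᶠ m : ℕ in (V : Filter ℕ), (s : ℤ) ∣ (m : ℤ) := by
    filter_upwards [hQ] with m hm
    exact_mod_cast hdvd m hm
  -- the relations for one set
  have zero : ∀ (D : Set ℤ) (K W : ℕ) (C : ℤ), 0 < W → FourP P D K W C → (0 : ℤ) ∈ L D V 0 := by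
    intro D K W C hW hF
    obtain ⟨g, g', -, h⟩ := four_L hV hW hF (fun _ => 0) (fun _ => 0)
      (Filter.Eventually.of_forall fun m => hP _ fun g => by simp)
    simpa using h
  have rel : ∀ (D : Set ℤ) (K W : ℕ) (C : ℤ), 0 < W → FourP P D K W C → ∀ x : ℤ, x ∉ L D V 0 →
      -x ∈ L D V (-1) ∨ (0 : ℤ) ∈ L D V (-1) ∨ x ∈ L D V (-1) := by
    intro D K W C hW hF x hx
    obtain ⟨g, g', hgg, h⟩ := four_L hV hW hF ![1, 1, 0, 0] ![0, x, 0, x] (by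
      filter_upwards [hsV] with m hm
      have h1 := hP' (m : ℤ) x hm
      convert h1 using 1
      ext g
      fin_cases g
      · simp
      · simp
      · simp
      · simp)
    fin_cases g <;> fin_cases g' <;> simp at hgg h <;> tauto
  have sum : ∀ (D D' : Set ℤ), (∀ w ∈ D, 0 < w) → (∀ w ∈ D', 0 < w) →
      (∀ m ∈ Bad, ∀ d ∈ D, ∀ d' ∈ D', ¬ |d + d' - (m : ℤ)| ≤ 1) →
      ∀ x δ : ℤ, |δ| ≤ 1 → x ∈ L D V 0 → x + δ ∉ L D' V (-1) := by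
    intro D D' hp hp' hb x δ hδ hx hy
    obtain ⟨i, j, m, hm, h1, h2, h3, h4⟩ := double hV hx hy _ hQ
    have a1 := neg_abs_le (x + δ)
    have a2 := le_abs_self (x + δ)
    have e1 := sy_pos hp h1 (by linarith)
    have e2 := sy_neg hp' h2 (by linarith)
    refine hb m hm _ e1 _ e2 ?_
    have e3 : 0 * (m : ℤ) + (fc j - fc i) + x + -(-1 * (m : ℤ) + (fc j - fc i) + (x + δ)) - m = -δ := by ring
    rw [e3, abs_neg]
    exact hδ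
  obtain ⟨z, hz⟩ := nonempty_L hV hW₁ hF₁ (-1) (by norm_num) s hs (by
    filter_upwards [hsV] with m hm
    rw [neg_one_mul]
    exact hm.neg_right) hP
  exact comb_two (L D₁ V 0) (L D₂ V 0) (L D₁ V (-1)) (L D₂ V (-1))
    (zero _ _ _ _ hW₁ hF₁) (zero _ _ _ _ hW₂ hF₂) (rel _ _ _ _ hW₁ hF₁) (rel _ _ _ _ hW₂ hF₂)
    (sum _ _ hpos₁ hpos₂ hbad) (sum _ _ hpos₂ hpos₁ (fun m hm d hd d' hd' he => hbad m hm d' hd' d hd (by
      rwa [add_comm d' d]))) _ hz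

end Pool.Agent.P8H77.SG
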