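import Mathlib
import Pool.Agent.W25.UB.Final
import Pool.Agent.W150.UBC1a
import Pool.Agent.P8H77.SG.Lim
import Pool.Agent.P8H77.SG.Two

/-! The gaps between consecutive primes have the property of four classes; sums of three gaps. -/

set_option autoImplicit false

namespace Pool.Agent.P8H77.SG

open Finset Filter Pool.Agent.W59.GB Pool.Agent.H947R3.GM Pool.Agent.W25.UB

/-- few residue classes are no obstruction -/
theorem shift_int {T K p : ℕ} (hp : p.Prime) (hTK : T * K < p) (H : Fin T → Fin K → ℤ) :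
    ∃ n : ℤ, ∀ g i, ¬ ((p : ℤ) ∣ n + H g i) := by
  have : Fact p.Prime := ⟨hp⟩
  classical
  set s : Finset (ZMod p) := univ.image fun x : Fin T × Fin K => -(H x.1 x.2 : ZMod p) with hs
  have hc : s.card < Fintype.card (ZMod p) := by
    calc s.card ≤ (univ : Finset (Fin T × Fin K)).card := card_image_le
      _ = T * K := by simp
      _ < p := hTK
      _ = _ := (ZMod.card p).symm
  obtain ⟨n, hn⟩ : ∃ n : ZMod p, n ∉ s := by
    by_contra h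
    push Not at h
    have : s = univ := by
      ext x; simp [h x]
    rw [this, card_univ] at hc
    exact lt_irrefl _ hc
  refine ⟨n.val, fun g i hd => hn ?_⟩
  rw [hs, mem_image]
  refine ⟨(g, i), mem_univ _, ?_⟩
  have h1 := (ZMod.intCast_zmod_eq_zero_iff_dvd _ p).2 hd
  push_cast at h1
  rw [ZMod.natCast_zmod_val] at h1
  rw [eq_comm, eq_neg_iff_add_eq_zero]
  exact h1

/-- the multiples of `l` in the set of the gaps, divided by `l`, and at least `C` -/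
def DD (N a l : ℕ) (C : ℤ) : Set ℤ := {w | C ≤ w ∧ ∃ k : ℕ, (k : ℤ) = w ∧ l * k ∈ GapB N a}

/-- **the property of four classes** -/
theorem four_DD (P : (Fin 4 → ℤ) → Prop) (N a l : ℕ) (C : ℤ) (hC : 1 ≤ C) (hN : 0 < N) (hN2 : 2 ∣ N)
    (hsq : Squarefree N) (ha : a.Coprime N) (hl : 0 < l) (hP : ¬ 3 ∣ N * l → ∀ v, P v → Miss v) :
    ∃ K W : ℕ, 0 < W ∧ FourP P (DD N a l C) K W C := by
  classical
  obtain ⟨K, hK, hH⟩ := (Pool.Agent.W150.UBC1a.main Pool.Agent.W25.UB.thmV) N a hN hN2 hsq ha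
  refine ⟨K, (4 * K).factorial, Nat.factorial_pos _, fun x a' hsep hres h3 => ?_⟩
  -- a bound
  obtain ⟨B, hB⟩ : ∃ B : ℤ, ∀ g i, 0 ≤ x g i + B := by
    refine ⟨∑ p : Fin 4 × Fin K, |x p.1 p.2|, fun g i => ?_⟩
    have h1 := single_le_sum (f := fun p : Fin 4 × Fin K => |x p.1 p.2|)
      (fun _ _ => abs_nonneg _) (mem_univ (g, i))
    have h2 := neg_abs_le (x g i)
    simp only at h1
    linarith
  obtain ⟨h, hh⟩ : ∃ h : Fin 4 → Fin K → ℕ, ∀ g i, (h g i : ℤ) = x g i + B :=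
    ⟨fun g i => (x g i + B).toNat, fun g i => Int.toNat_of_nonneg (hB g i)⟩
  have hadm : AdmN N (fun g i => l * h g i) := by
    refine ⟨?_, ?_⟩
    · rintro ⟨g, i⟩ ⟨g', i'⟩ hxy
      by_contra hne
      have h1 : h g i = h g' i' := Nat.eq_of_mul_eq_mul_left hl hxy
      have h2 := hsep g g' i i' hne
      have h3 : x g' i' - x g i = 0 := by
        have e1 := hh g i
        have e2 := hh g' i'
        rw [h1] at e1
        linarith
      rw [h3, abs_zero] at h2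
      linarith
    · intro p hp hpN
      by_cases hpl : p ∣ l
      · refine ⟨1, fun g i hd => ?_⟩
        have h3 : (p : ℤ) ∣ ((l * h g i : ℕ) : ℤ) :=
          Int.natCast_dvd_natCast.2 (Dvd.dvd.mul_right hpl _)
        have h4 : (p : ℤ) ∣ 1 := (Int.dvd_add_left h3).1 hd
        have h5 : p ∣ 1 := by exact_mod_cast h4
        exact hp.one_lt.ne' (Nat.dvd_one.1 h5)
      · by_cases hpK : 4 * K < p
        · exact shift_int hp hpK (fun g i => ((l * h g i : ℕ) : ℤ))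
        · have hpW : (p : ℤ) ∣ ((4 * K).factorial : ℤ) := by
            exact_mod_cast Nat.dvd_factorial hp.pos (by omega)
          obtain ⟨c, hc⟩ : ∃ c : ℤ, ∀ g, ¬ (p : ℤ) ∣ a' g - c := by
            have hp2 : p ≠ 2 := by
              rintro rfl
              exact hpN hN2
            by_cases hp3 : p = 3
            · subst hp3
              obtain ⟨c, hc⟩ := hP (fun h => (hp.dvd_mul.1 h).elim hpN hpl) _ h3
              exact ⟨c, fun g => by exact_mod_cast hc g⟩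
            · have hp5 : 4 * 1 < p := by
                have := hp.two_le
                have h4 : p ≠ 4 := by rintro rfl; exact absurd hp (by norm_num)
                omega
              obtain ⟨n, hn⟩ := shift_int hp hp5 (fun g (_ : Fin 1) => a' g)
              refine ⟨-n, fun g hd => hn g 0 ?_⟩
              have e1 : a' g - -n = n + a' g := by ring
              rwa [e1] at hd
          refine ⟨-(l * (c + B)), fun g i hd => hc g ?_⟩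
          have e1 : -((l : ℤ) * (c + B)) + ((l * h g i : ℕ) : ℤ) = l * (x g i - c) := by
            push_cast
            rw [hh]
            ring
          rw [e1] at hd
          rcases (Nat.prime_iff_prime_int.1 hp).dvd_mul.1 hd with h4 | h4
          · exact absurd (by exact_mod_cast h4) hpl
          · have h5 := dvd_sub h4 (hpW.trans (hres g i))
            have e2 : x g i - c - (x g i - a' g) = a' g - c := by ring
            rwa [e2] at h5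
  obtain ⟨g, g', i, i', hgg, hlt, hmem⟩ := hH _ hadm
  have hlt' : h g i < h g' i' := Nat.lt_of_mul_lt_mul_left hlt
  have hw : ((h g' i' - h g i : ℕ) : ℤ) = x g' i' - x g i := by
    rw [Nat.cast_sub hlt'.le, hh, hh]
    ring
  have hpos : 0 < x g' i' - x g i := by
    rw [← hw]
    exact_mod_cast Nat.sub_pos_of_lt hlt'
  have hD : x g' i' - x g i ∈ DD N a l C := by
    refine ⟨?_, h g' i' - h g i, hw, ?_⟩
    · have h1 := hsep g g' i i' (fun hcon => hgg (Prod.mk.inj hcon).1)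
      rwa [abs_of_pos hpos] at h1
    · rw [Nat.mul_sub]
      exact hmem
  rcases lt_or_gt_of_ne hgg with h1 | h1
  · exact ⟨g, g', i, i', h1, Or.inl hD⟩
  · refine ⟨g', g, i', i, h1, Or.inr ?_⟩
    rw [neg_sub]
    exact hD

theorem DD_pos (N a l C : ℕ) : ∀ w ∈ DD N a l ((C : ℤ) + 1), 0 < w := by
  intro w hw
  have h1 := hw.1
  have h2 : (0 : ℤ) ≤ (C : ℤ) := Int.natCast_nonneg C
  linarith

/-- the elements of `DD` -/
theorem DD_spec {N a l C : ℕ} (hm : 0 < N * l) {k : ℕ} (hk : (C : ℤ) + 1 ≤ k) (hg : l * k ∈ GapB N a) :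
    C ≤ N * l * k ∧ N * l ∣ N * l * k ∧
      ∀ η : ℝ, 0 < η → ∃ᶠ x : ℝ in atTop,
        x ^ (1 - η) ≤ ({j : ℕ | (Nat.nth Nat.Prime j : ℝ) ≤ x ∧ Nat.nth Nat.Prime j ≡ a [MOD N] ∧
          Nat.nth Nat.Prime (j + 1) = Nat.nth Nat.Prime j + N * l * k}.ncard : ℝ) := by
  have h1 : C + 1 ≤ k := by exact_mod_cast hk
  refine ⟨?_, dvd_mul_right _ _, fun η hη => ?_⟩
  · have h2 : 1 * k ≤ N * l * k := Nat.mul_le_mul_right k hm
    omega
  · have h3 := nthB (N := N) (a := a) (k := l * k) hg η hη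
    have e : N * (l * k) = N * l * k := by ring
    rw [e] at h3
    exact h3

/-- **sums of three gaps** -/
theorem three_gaps (m N a : ℕ) (hm : 0 < m) (hN2 : 2 ∣ N) (hNm : N ∣ m) (hsq : Squarefree N)
    (ha : a.Coprime N) (C : ℕ) : ∀ᶠ n : ℕ in atTop, 6 * m ∣ n → ∃ d : Fin 3 → ℕ, n = d 0 + d 1 + d 2 ∧
      ∀ i, C ≤ d i ∧ m ∣ d i ∧ ∀ η : ℝ, 0 < η → ∃ᶠ x : ℝ in atTop,
        x ^ (1 - η) ≤ ({k : ℕ | (Nat.nth Nat.Prime k : ℝ) ≤ x ∧ Nat.nth Nat.Prime k ≡ a [MOD N] ∧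
          Nat.nth Nat.Prime (k + 1) = Nat.nth Nat.Prime k + d i}.ncard : ℝ) := by
  obtain ⟨l, rfl⟩ := hNm
  have hN : 0 < N := Nat.pos_of_mul_pos_right hm
  have hl : 0 < l := Nat.pos_of_mul_pos_left hm
  obtain ⟨K, W, hW, hF⟩ := four_DD Miss N a l ((C : ℤ) + 1) (by linarith [Int.natCast_nonneg C]) hN hN2 hsq
    ha hl (fun _ _ h => h)
  have hpos := DD_pos N a l C
  obtain ⟨t₀, ht₀⟩ := eventually_atTop.1 (sums hpos hW hF)
  refine eventually_atTop.2 ⟨6 * (N * l) * t₀, fun n hn hdvd => ?_⟩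
  obtain ⟨t, rfl⟩ := hdvd
  have htt : t₀ ≤ t := Nat.le_of_mul_le_mul_left hn (by positivity)
  obtain ⟨w₁, ⟨hC1, k₁, hk1, hg1⟩, w₂, ⟨hC2, k₂, hk2, hg2⟩, w₃, ⟨hC3, k₃, hk3, hg3⟩, hsum⟩ := ht₀ t htt
  have hs : 6 * t = k₁ + k₂ + k₃ := by
    rw [← hk1, ← hk2, ← hk3] at hsum
    exact_mod_cast hsum
  refine ⟨![N * l * k₁, N * l * k₂, N * l * k₃], ?_, ?_⟩
  · show 6 * (N * l) * t = N * l * k₁ + N * l * k₂ + N * l * k₃
    have e1 : 6 * (N * l) * t = N * l * (6 * t) := by ring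
    rw [e1, hs]
    ring
  · intro i
    fin_cases i
    · exact DD_spec hm (by rw [hk1]; exact hC1) hg1
    · exact DD_spec hm (by rw [hk2]; exact hC2) hg2
    · exact DD_spec hm (by rw [hk3]; exact hC3) hg3

/-- **sums of two gaps** -/
theorem two_gaps (m N₁ a₁ N₂ a₂ : ℕ) (hm : 0 < m) (hN₁2 : 2 ∣ N₁) (hNm₁ : N₁ ∣ m) (hsq₁ : Squarefree N₁)
    (ha₁ : a₁.Coprime N₁) (hN₂2 : 2 ∣ N₂) (hNm₂ : N₂ ∣ m) (hsq₂ : Squarefree N₂) (ha₂ : a₂.Coprime N₂)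
    (C : ℕ) : ∀ᶠ t : ℕ in atTop, 3 ∣ m * t → ∃ d₁ d₂ : ℕ,
      (d₁ + d₂ + m = m * t ∨ d₁ + d₂ = m * t ∨ d₁ + d₂ = m * t + m) ∧
      (C ≤ d₁ ∧ m ∣ d₁ ∧ ∀ η : ℝ, 0 < η → ∃ᶠ x : ℝ in atTop,
        x ^ (1 - η) ≤ ({k : ℕ | (Nat.nth Nat.Prime k : ℝ) ≤ x ∧ Nat.nth Nat.Prime k ≡ a₁ [MOD N₁] ∧
          Nat.nth Nat.Prime (k + 1) = Nat.nth Nat.Prime k + d₁}.ncard : ℝ)) ∧
      (C ≤ d₂ ∧ m ∣ d₂ ∧ ∀ η : ℝ, 0 < η → ∃ᶠ x : ℝ in atTop,
        x ^ (1 - η) ≤ ({k : ℕ | (Nat.nth Nat.Prime k : ℝ) ≤ x ∧ Nat.nth Nat.Prime k ≡ a₂ [MOD N₂] ∧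
          Nat.nth Nat.Prime (k + 1) = Nat.nth Nat.Prime k + d₂}.ncard : ℝ)) := by
  obtain ⟨l₁, hl₁⟩ := hNm₁
  obtain ⟨l₂, hl₂⟩ := hNm₂
  have hm₁ : 0 < N₁ * l₁ := hl₁ ▸ hm
  have hm₂ : 0 < N₂ * l₂ := hl₂ ▸ hm
  have hN₁ : 0 < N₁ := Nat.pos_of_mul_pos_right hm₁
  have hN₂ : 0 < N₂ := Nat.pos_of_mul_pos_right hm₂
  have hl₁0 : 0 < l₁ := Nat.pos_of_mul_pos_left hm₁
  have hl₂0 : 0 < l₂ := Nat.pos_of_mul_pos_left hm₂
  have hC1 : (1 : ℤ) ≤ (C : ℤ) + 1 := by linarith [Int.natCast_nonneg C]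
  -- the conclusion from the sums
  have conc : ∀ t : ℕ, (∃ d₁ ∈ DD N₁ a₁ l₁ ((C : ℤ) + 1), ∃ d₂ ∈ DD N₂ a₂ l₂ ((C : ℤ) + 1),
      |d₁ + d₂ - (t : ℤ)| ≤ 1) → ∃ d₁ d₂ : ℕ,
      (d₁ + d₂ + m = m * t ∨ d₁ + d₂ = m * t ∨ d₁ + d₂ = m * t + m) ∧
      (C ≤ d₁ ∧ m ∣ d₁ ∧ ∀ η : ℝ, 0 < η → ∃ᶠ x : ℝ in atTop,
        x ^ (1 - η) ≤ ({k : ℕ | (Nat.nth Nat.Prime k : ℝ) ≤ x ∧ Nat.nth Nat.Prime k ≡ a₁ [MOD N₁] ∧
          Nat.nth Nat.Prime (k + 1) = Nat.nth Nat.Prime k + d₁}.ncard : ℝ)) ∧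
      (C ≤ d₂ ∧ m ∣ d₂ ∧ ∀ η : ℝ, 0 < η → ∃ᶠ x : ℝ in atTop,
        x ^ (1 - η) ≤ ({k : ℕ | (Nat.nth Nat.Prime k : ℝ) ≤ x ∧ Nat.nth Nat.Prime k ≡ a₂ [MOD N₂] ∧
          Nat.nth Nat.Prime (k + 1) = Nat.nth Nat.Prime k + d₂}.ncard : ℝ)) := by
    rintro t ⟨w₁, ⟨hc1, k₁, hk1, hg1⟩, w₂, ⟨hc2, k₂, hk2, hg2⟩, habs⟩
    subst hk1 hk2
    refine ⟨m * k₁, m * k₂, ?_, ?_, ?_⟩
    · rw [abs_le] at habs
      have h3 : k₁ + k₂ + 1 = t ∨ k₁ + k₂ = t ∨ k₁ + k₂ = t + 1 := by omega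
      rcases h3 with h3 | h3 | h3
      · left; rw [← h3]; ring
      · right; left; rw [← h3]; ring
      · right; right
        have e1 : m * k₁ + m * k₂ = m * (k₁ + k₂) := by ring
        rw [e1, h3]; ring
    · rw [hl₁]
      exact DD_spec hm₁ hc1 hg1
    · rw [hl₂]
      exact DD_spec hm₂ hc2 hg2
  by_cases h3m : 3 ∣ m
  · obtain ⟨K₁, W₁, hW₁, hF₁⟩ := four_DD (fun _ => True) N₁ a₁ l₁ ((C : ℤ) + 1) hC1 hN₁ hN₁2 hsq₁ ha₁ hl₁0
      (fun h => absurd (hl₁ ▸ h3m) h)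
    obtain ⟨K₂, W₂, hW₂, hF₂⟩ := four_DD (fun _ => True) N₂ a₂ l₂ ((C : ℤ) + 1) hC1 hN₂ hN₂2 hsq₂ ha₂ hl₂0
      (fun h => absurd (hl₂ ▸ h3m) h)
    filter_upwards [sums_two 1 one_pos (fun _ _ => trivial) (fun _ _ _ => trivial) (DD_pos N₁ a₁ l₁ C)
      (DD_pos N₂ a₂ l₂ C) hW₁ hF₁ hW₂ hF₂] with t ht _
    exact conc t (ht (one_dvd t))
  · obtain ⟨K₁, W₁, hW₁, hF₁⟩ := four_DD Miss N₁ a₁ l₁ ((C : ℤ) + 1) hC1 hN₁ hN₁2 hsq₁ ha₁ hl₁0
      (fun _ _ h => h)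
    obtain ⟨K₂, W₂, hW₂, hF₂⟩ := four_DD Miss N₂ a₂ l₂ ((C : ℤ) + 1) hC1 hN₂ hN₂2 hsq₂ ha₂ hl₂0
      (fun _ _ h => h)
    filter_upwards [sums_two (P := Miss) 3 (by norm_num) (fun v hv => ⟨1, fun g => by
        have := hv g
        push_cast at this
        omega⟩) (fun t x ht => by
        push_cast at ht
        rcases (show x % 3 = 0 ∨ x % 3 = 1 ∨ x % 3 = 2 by omega) with h5 | h5 | h5
        · refine ⟨1, fun g => ?_⟩
          fin_cases g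
          · show ¬ (3 : ℤ) ∣ t - 1
            omega
          · show ¬ (3 : ℤ) ∣ t + x - 1
            omega
          · show ¬ (3 : ℤ) ∣ 0 - 1
            omega
          · show ¬ (3 : ℤ) ∣ x - 1
            omega
        · refine ⟨2, fun g => ?_⟩
          fin_cases g
          · show ¬ (3 : ℤ) ∣ t - 2
            omega
          · show ¬ (3 : ℤ) ∣ t + x - 2
            omega
          · show ¬ (3 : ℤ) ∣ 0 - 2
            omega
          · show ¬ (3 : ℤ) ∣ x - 2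
            omega
        · refine ⟨1, fun g => ?_⟩
          fin_cases g
          · show ¬ (3 : ℤ) ∣ t - 1
            omega
          · show ¬ (3 : ℤ) ∣ t + x - 1
            omega
          · show ¬ (3 : ℤ) ∣ 0 - 1
            omega
          · show ¬ (3 : ℤ) ∣ x - 1
            omega) (DD_pos N₁ a₁ l₁ C) (DD_pos N₂ a₂ l₂ C) hW₁ hF₁ hW₂ hF₂] with t ht h3t
    have h3t' : 3 ∣ t := (Nat.prime_three.dvd_mul.1 h3t).resolve_left h3m
    exact conc t (ht h3t')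

end Pool.Agent.P8H77.SG
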