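import Mathlib
import Pool.Agent.Y827.RO.NinE
import Pool.Agent.P8H77.SG.Gen

/-! The gaps between consecutive primes which occur along narrow progressions. -/

set_option autoImplicit false

namespace Pool.Agent.P8H77.SG

open Finset Filter Pool.Agent.H947R3.GM Pool.Agent.Y827.RO

/-- `p` is a prime `≡ a (mod N)` and the next prime is `p + d` -/
def NextGap (N a d p : ℕ) : Prop :=
  p.Prime ∧ p ≡ a [MOD N] ∧ (p + d).Prime ∧ 0 < d ∧ ∀ r, p < r → r < p + d → ¬ r.Prime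

/-- **four classes** -/
theorem meets_nar (N a : ℕ) (hN : 0 < N) (ha : a.Coprime N) :
    Meets N {k | Nar (NextGap N a (N * k))} := by
  classical
  obtain ⟨K, hK, hB⟩ := blockE 4 1 (by norm_num) (by norm_num)
  refine ⟨K, hK, fun H hH => ?_⟩
  obtain ⟨Q, r, M, E, hQ, hNQ, hr, hM, hE, hnar⟩ := hB N a hN ha H hH
  -- adjacent elements
  obtain ⟨u, v, hu, hv, huv, hlt, hmin⟩ : ∃ u v : Fin 4 × Fin K, u ∈ E ∧ v ∈ E ∧ u.1 ≠ v.1 ∧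
      H u.1 u.2 < H v.1 v.2 ∧ ∀ w ∈ E, H u.1 u.2 < H w.1 w.2 → H w.1 w.2 < H v.1 v.2 → False := by
    obtain ⟨g₁, hg₁, g₂, hg₂, hne⟩ := one_lt_card.1 (show 1 < (E.image Prod.fst).card by omega)
    obtain ⟨e₁, he₁, rfl⟩ := mem_image.1 hg₁
    obtain ⟨e₂, he₂, rfl⟩ := mem_image.1 hg₂
    set S := (E ×ˢ E).filter (fun uv => uv.1.1 ≠ uv.2.1 ∧ H uv.1.1 uv.1.2 < H uv.2.1 uv.2.2) with hS
    have hSne : S.Nonempty := by
      rcases lt_trichotomy (H e₁.1 e₁.2) (H e₂.1 e₂.2) with h | h | h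
      · exact ⟨(e₁, e₂), mem_filter.2 ⟨mem_product.2 ⟨he₁, he₂⟩, hne, h⟩⟩
      · exfalso
        have := hH.1 (a₁ := e₁) (a₂ := e₂) h
        exact hne (congrArg Prod.fst this)
      · exact ⟨(e₂, e₁), mem_filter.2 ⟨mem_product.2 ⟨he₂, he₁⟩, hne.symm, h⟩⟩
    obtain ⟨⟨u, v⟩, huv, hmin⟩ := exists_min_image S
      (fun uv => H uv.2.1 uv.2.2 - H uv.1.1 uv.1.2) hSne
    obtain ⟨h1, h2, h3⟩ := mem_filter.1 huv
    obtain ⟨h4, h5⟩ := mem_product.1 h1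
    simp only at h2 h3 h4 h5 hmin
    refine ⟨u, v, h4, h5, h2, h3, fun w hw h6 h7 => ?_⟩
    by_cases hwu : w.1 = u.1
    · have := hmin (w, v) (mem_filter.2 ⟨mem_product.2 ⟨hw, h5⟩, by
        show w.1 ≠ v.1
        rw [hwu]; exact h2, h7⟩)
      simp only at this
      omega
    · have := hmin (u, w) (mem_filter.2 ⟨mem_product.2 ⟨h4, hw⟩, fun h => hwu h.symm, h6⟩)
      simp only at this
      omega
  refine ⟨u.1, v.1, u.2, v.2, huv, hlt, ?_⟩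
  show Nar (NextGap N a (N * (H v.1 v.2 - H u.1 u.2)))
  have hle : N * H u.1 u.2 < N * H v.1 v.2 := Nat.mul_lt_mul_of_pos_left hlt hN
  have hsum : N * H u.1 u.2 + N * (H v.1 v.2 - H u.1 u.2) = N * H v.1 v.2 := by
    rw [Nat.mul_sub]
    omega
  refine Nar.affine (q := Q) (b := r + N * H u.1 u.2) hQ (hnar.mono ?_)
  rintro m ⟨hm1, hm2⟩
  refine ⟨?_, ?_, ?_, ?_, ?_⟩
  · rw [← add_assoc]
    exact (hm1 u.1 u.2).2 hu
  · have h4 : Q * m ≡ 0 [MOD N] := (Nat.modEq_zero_iff_dvd).2 (hNQ.mul_right m)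
    have h5 : N * H u.1 u.2 ≡ 0 [MOD N] := (Nat.modEq_zero_iff_dvd).2 (Dvd.intro _ rfl)
    have h6 := h4.add (hr.add h5)
    simpa using h6
  · have e1 : Q * m + (r + N * H u.1 u.2) + N * (H v.1 v.2 - H u.1 u.2) = Q * m + r + N * H v.1 v.2 := by
      omega
    rw [e1]
    exact (hm1 v.1 v.2).2 hv
  · exact Nat.mul_pos hN (by omega)
  · intro r' h1 h2 hp
    obtain ⟨t, rfl⟩ : ∃ t, r' = Q * m + r + t := ⟨r' - (Q * m + r), by omega⟩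
    have htM : t ≤ M := by
      have := hM v.1 v.2
      omega
    by_cases hex : ∃ g₀ i₀, N * H g₀ i₀ = t
    · obtain ⟨g₀, i₀, rfl⟩ := hex
      have hE0 := (hm1 g₀ i₀).1 hp
      have q1 : N * H u.1 u.2 < N * H g₀ i₀ := by omega
      have q2 : N * H g₀ i₀ < N * H v.1 v.2 := by omega
      exact hmin (g₀, i₀) hE0 (Nat.lt_of_mul_lt_mul_left q1) (Nat.lt_of_mul_lt_mul_left q2)
    · push Not at hex
      exact hm2 t htM hex hp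

/-- the number of the indices -/
theorem log_count {N a d : ℕ} (h : Nar (NextGap N a d)) :
    ∃ C : ℕ, ∃ᶠ x : ℕ in atTop, (x : ℝ) / (Real.log x) ^ C ≤
      ({k : ℕ | Nat.nth Nat.Prime k ≤ x ∧ Nat.nth Nat.Prime k ≡ a [MOD N] ∧
        Nat.nth Nat.Prime (k + 1) = Nat.nth Nat.Prime k + d}.ncard : ℝ) := by
  classical
  obtain ⟨C, hC⟩ := h 1
  refine ⟨C, hC.mono ?_⟩
  rintro x ⟨D, hD1, hD2, hD3⟩
  refine hD3.trans ?_
  rw [Nat.cast_le, ← Set.ncard_coe_finset]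
  have hfin : {k : ℕ | Nat.nth Nat.Prime k ≤ x ∧ Nat.nth Nat.Prime k ≡ a [MOD N] ∧
        Nat.nth Nat.Prime (k + 1) = Nat.nth Nat.Prime k + d}.Finite := by
    apply (Set.finite_Iic x).subset
    rintro n ⟨h, -⟩
    rw [Set.mem_Iic]
    have h1 := Nat.add_two_le_nth_prime n
    omega
  refine Set.ncard_le_ncard_of_injOn (fun p => Nat.count Nat.Prime p) ?_ ?_ hfin
  · intro p hp
    rw [mem_coe, mem_filter, mem_Icc] at hp
    obtain ⟨⟨-, hpx⟩, hp2⟩ := hp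
    have hp3 : NextGap N a d p := by simpa using hp2 0 one_pos
    refine ⟨?_, ?_, Pool.Agent.H461R2.PD.nth_gap hp3.1 hp3.2.2.1 hp3.2.2.2.1 hp3.2.2.2.2⟩
    · rw [Nat.nth_count hp3.1]; exact hpx
    · rw [Nat.nth_count hp3.1]; exact hp3.2.1
  · intro p hp q hq hpq
    rw [mem_coe, mem_filter] at hp hq
    have hp3 : NextGap N a d p := by simpa using hp.2 0 one_pos
    have hq3 : NextGap N a d q := by simpa using hq.2 0 one_pos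
    have h1 := Nat.nth_count (p := Nat.Prime) hp3.1
    have h2 := Nat.nth_count (p := Nat.Prime) hq3.1
    simp only at hpq
    rw [← h1, ← h2, hpq]

/-- three gaps, progressions -/
theorem three_nar (m N a : ℕ) (hm : 0 < m) (hN2 : 2 ∣ N) (hNm : N ∣ m) (ha : a.Coprime N) (C : ℕ) :
    ∀ᶠ n : ℕ in atTop, 6 * m ∣ n → ∃ d : Fin 3 → ℕ, n = d 0 + d 1 + d 2 ∧
      ∀ i, C ≤ d i ∧ m ∣ d i ∧ Nar (NextGap N a (d i)) := by
  have hN : 0 < N := Nat.pos_of_dvd_of_pos hNm hm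
  filter_upwards [three_of m N _ (meets_nar N a hN ha) hm hN2 hNm C] with n hn hd
  obtain ⟨d, h1, h2⟩ := hn hd
  refine ⟨d, h1, fun i => ?_⟩
  obtain ⟨h3, h4, k, hk, hdk⟩ := h2 i
  refine ⟨h3, h4, ?_⟩
  rw [hdk]
  exact hk

/-- two gaps, progressions -/
theorem two_nar (m N₁ a₁ N₂ a₂ : ℕ) (hm : 0 < m) (hN₁2 : 2 ∣ N₁) (hNm₁ : N₁ ∣ m) (ha₁ : a₁.Coprime N₁)
    (hN₂2 : 2 ∣ N₂) (hNm₂ : N₂ ∣ m) (ha₂ : a₂.Coprime N₂) (C : ℕ) :
    ∀ᶠ t : ℕ in atTop, 3 ∣ m * t → ∃ d₁ d₂ : ℕ,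
      (d₁ + d₂ + m = m * t ∨ d₁ + d₂ = m * t ∨ d₁ + d₂ = m * t + m) ∧
      (C ≤ d₁ ∧ m ∣ d₁ ∧ Nar (NextGap N₁ a₁ d₁)) ∧ (C ≤ d₂ ∧ m ∣ d₂ ∧ Nar (NextGap N₂ a₂ d₂)) := by
  have hN₁ : 0 < N₁ := Nat.pos_of_dvd_of_pos hNm₁ hm
  have hN₂ : 0 < N₂ := Nat.pos_of_dvd_of_pos hNm₂ hm
  filter_upwards [two_of m N₁ N₂ _ _ (meets_nar N₁ a₁ hN₁ ha₁) (meets_nar N₂ a₂ hN₂ ha₂) hm hN₁2 hNm₁
    hN₂2 hNm₂ C] with t ht h3
  obtain ⟨d₁, d₂, h1, ⟨h4, h5, k₁, hk₁, hd₁⟩, h6, h7, k₂, hk₂, hd₂⟩ := ht h3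
  refine ⟨d₁, d₂, h1, ⟨h4, h5, ?_⟩, h6, h7, ?_⟩
  · rw [hd₁]; exact hk₁
  · rw [hd₂]; exact hk₂

end Pool.Agent.P8H77.SG
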