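import Mathlib
import Pool.Agent.P8H77.SG.Lim

/-! Limit sets for systems of sequences, and the absence of long holes. -/

set_option autoImplicit false

namespace Pool.Agent.P8H77.SG

open Filter Finset

/-- a system of sequences: the `k`-th sequence `β k` is increasing with large steps, its terms are divisible by
many numbers and small compared with `m k` -/
structure Sys (m : ℕ → ℤ) (β : ℕ → ℕ → ℤ) : Prop where
  inc : ∀ i j : ℕ, i < j → ∀ B : ℤ, ∀ᶠ k in (U : Filter ℕ), β k i + B < β k j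
  big : ∀ i : ℕ, ∀ B : ℤ, ∀ᶠ k in (U : Filter ℕ), 4 * |β k i| + B < m k
  dvd : ∀ p : ℕ, 0 < p → ∀ i : ℕ, ∀ᶠ k in (U : Filter ℕ), (p : ℤ) ∣ β k i

/-- the limit sets -/
def LS (D : Set ℤ) (m : ℕ → ℤ) (β : ℕ → ℕ → ℤ) (a : ℤ) : Set ℤ :=
  {z | ∀ᶠ i in (U : Filter ℕ), ∀ᶠ j in (U : Filter ℕ), ∀ᶠ k in (U : Filter ℕ),
    Sy D (a * m k + (β k j - β k i) + z)}

theorem not_LS {D : Set ℤ} {m : ℕ → ℤ} {β : ℕ → ℕ → ℤ} {a z : ℤ} (h : z ∉ LS D m β a) :
    ∀ᶠ i in (U : Filter ℕ), ∀ᶠ j in (U : Filter ℕ), ∀ᶠ k in (U : Filter ℕ),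
      ¬ Sy D (a * m k + (β k j - β k i) + z) := by
  unfold LS at h
  rw [Set.mem_ofPred_eq, ← Ultrafilter.eventually_not] at h
  filter_upwards [h] with i hi
  rw [← Ultrafilter.eventually_not] at hi
  filter_upwards [hi] with j hj
  rwa [← Ultrafilter.eventually_not] at hj

/-- **the choice of the classes** -/
theorem selectS {D : Set ℤ} {m : ℕ → ℤ} {β : ℕ → ℕ → ℤ} (hS : Sys m β) {T : ℕ} (c e : Fin T → ℤ)
    (h : ∀ g g' : Fin T, g < g' → e g' - e g ∉ LS D m β (c g' - c g)) (K W : ℕ) (hW : 0 < W) (C : ℤ)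
    (Q : ℕ → Prop) (hQ : ∀ᶠ k in (U : Filter ℕ), Q k) :
    ∃ (k : ℕ) (f : ℕ → ℕ), Q k ∧
      (∀ (g : Fin T) (i : Fin K), (W : ℤ) ∣ β k (f (i + K * g))) ∧
      (∀ (g g' : Fin T) (i i' : Fin K), g < g' →
        ¬ Sy D ((c g' * m k + β k (f (i' + K * g')) + e g') -
          (c g * m k + β k (f (i + K * g)) + e g))) ∧
      (∀ (g g' : Fin T) (i i' : Fin K), (g, i) ≠ (g', i') →
        C ≤ |(c g' * m k + β k (f (i' + K * g')) + e g') -
          (c g * m k + β k (f (i + K * g)) + e g)|) := by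
  classical
  obtain ⟨B, hB0, hB⟩ := diff_bound e
  obtain ⟨f, hf1, hf2⟩ := exists_seq_of_forall_finset_exists
    (fun i : ℕ => ∀ a b : Fin T, a < b → ∀ᶠ j in (U : Filter ℕ), ∀ᶠ k in (U : Filter ℕ),
      ¬ Sy D ((c b - c a) * m k + (β k j - β k i) + (e b - e a)))
    (fun i j : ℕ => i < j ∧ ∀ a b : Fin T, a < b → ∀ᶠ k in (U : Filter ℕ),
      ¬ Sy D ((c b - c a) * m k + (β k j - β k i) + (e b - e a)))
    (by
      intro s hs
      have h1 : ∀ᶠ y in (U : Filter ℕ), ∀ a b : Fin T, a < b → ∀ᶠ j in (U : Filter ℕ),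
          ∀ᶠ k in (U : Filter ℕ), ¬ Sy D ((c b - c a) * m k + (β k j - β k y) + (e b - e a)) := by
        rw [Filter.eventually_all]
        intro a
        rw [Filter.eventually_all]
        intro b
        by_cases hab : a < b
        · filter_upwards [not_LS (h a b hab)] with y hy _
          exact hy
        · exact Filter.Eventually.of_forall fun y h => absurd h hab
      have h2 : ∀ᶠ y in (U : Filter ℕ), ∀ x ∈ s, x < y ∧
          ∀ a b : Fin T, a < b → ∀ᶠ k in (U : Filter ℕ),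
            ¬ Sy D ((c b - c a) * m k + (β k y - β k x) + (e b - e a)) := by
        rw [Filter.eventually_all_finset]
        intro x hx
        refine Filter.Eventually.and ?_ ?_
        · filter_upwards [ev_ge (x + 1)] with y hy
          omega
        rw [Filter.eventually_all]
        intro a
        rw [Filter.eventually_all]
        intro b
        by_cases hab : a < b
        · filter_upwards [hs x hx a b hab] with y hy _
          exact hy
        · exact Filter.Eventually.of_forall fun y h => absurd h hab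
      exact (h1.and h2).exists)
  have hidx : ∀ (g : Fin T) (i : Fin K), (i : ℕ) + K * g < K * T := by
    intro g i
    have h1 : (g : ℕ) + 1 ≤ T := g.2
    have h2 : K * ((g : ℕ) + 1) ≤ K * T := Nat.mul_le_mul_left K h1
    have h3 := i.2
    nlinarith
  have hm : ∀ᶠ k in (U : Filter ℕ), (∀ a ∈ range (K * T), ∀ b ∈ range (K * T), a < b →
      (β k (f a) + (B + C) < β k (f b) ∧ ∀ g g' : Fin T, g < g' →
        ¬ Sy D ((c g' - c g) * m k + (β k (f b) - β k (f a)) + (e g' - e g)))) ∧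
      (∀ a ∈ range (K * T), 4 * |β k (f a)| + (B + C) < m k ∧ (W : ℤ) ∣ β k (f a)) := by
    refine Filter.Eventually.and ?_ ?_
    · rw [Filter.eventually_all_finset]
      intro a _
      rw [Filter.eventually_all_finset]
      intro b _
      by_cases hab : a < b
      · have h1 : ∀ᶠ k in (U : Filter ℕ), ∀ g g' : Fin T, g < g' →
            ¬ Sy D ((c g' - c g) * m k + (β k (f b) - β k (f a)) + (e g' - e g)) := by
          rw [Filter.eventually_all]
          intro g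
          rw [Filter.eventually_all]
          intro g'
          by_cases hgg : g < g'
          · filter_upwards [(hf2 a b hab).2 g g' hgg] with m hm _
            exact hm
          · exact Filter.Eventually.of_forall fun y h => absurd h hgg
        filter_upwards [h1, hS.inc _ _ (hf2 a b hab).1 (B + C)] with k h2 h3 _
        exact ⟨h3, h2⟩
      · exact Filter.Eventually.of_forall fun y h => absurd h hab
    · rw [Filter.eventually_all_finset]
      intro a _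
      exact (hS.big _ _).and (hS.dvd W hW _)
  obtain ⟨k, ⟨hm1, hm2⟩, hmQ⟩ := (hm.and hQ).exists
  refine ⟨k, f, hmQ, fun g i => (hm2 _ (mem_range.2 (hidx g i))).2, fun g g' i i' hgg => ?_,
    fun g g' i i' hne => ?_⟩
  · have hlt : (i : ℕ) + K * g < i' + K * g' := by
      have h1 : (g : ℕ) + 1 ≤ g' := hgg
      have h2 : K * ((g : ℕ) + 1) ≤ K * g' := Nat.mul_le_mul_left K h1
      have h3 := i.2
      nlinarith
    have h3 := (hm1 _ (mem_range.2 (hidx g i)) _ (mem_range.2 (hidx g' i')) hlt).2 g g' hgg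
    have e1 : (c g' * m k + β k (f (i' + K * g')) + e g') - (c g * m k + β k (f (i + K * g)) + e g) =
        (c g' - c g) * m k + (β k (f (i' + K * g')) - β k (f (i + K * g))) + (e g' - e g) := by ring
    rw [e1]
    exact h3
  · have e1 : (c g' * m k + β k (f (i' + K * g')) + e g') - (c g * m k + β k (f (i + K * g)) + e g) =
        (c g' - c g) * m k + (β k (f (i' + K * g')) - β k (f (i + K * g))) + (e g' - e g) := by ring
    rw [e1]
    have hBe := abs_le.1 (hB g' g)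
    by_cases hc : c g' = c g
    · rw [hc, sub_self, zero_mul, zero_add]
      have hab : (i : ℕ) + K * g ≠ i' + K * g' := by
        intro hcon
        apply hne
        have hK : 0 < K := Nat.pos_of_ne_zero (by rintro rfl; exact i.elim0)
        have h1 : ((i : ℕ) + K * g) % K = i := by
          rw [Nat.add_mul_mod_self_left, Nat.mod_eq_of_lt i.2]
        have h2 : ((i' : ℕ) + K * g') % K = i' := by
          rw [Nat.add_mul_mod_self_left, Nat.mod_eq_of_lt i'.2]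
        have h3 : (i : ℕ) = i' := by rw [← h1, ← h2, hcon]
        have h4 : K * (g : ℕ) = K * g' := by omega
        have h5 : (g : ℕ) = g' := Nat.eq_of_mul_eq_mul_left hK h4
        exact Prod.ext (Fin.ext h5) (Fin.ext h3)
      rcases lt_or_gt_of_ne hab with h1 | h1
      · have h2 := (hm1 _ (mem_range.2 (hidx g i)) _ (mem_range.2 (hidx g' i')) h1).1
        refine le_trans ?_ (le_abs_self _)
        linarith [hBe.1]
      · have h2 := (hm1 _ (mem_range.2 (hidx g' i')) _ (mem_range.2 (hidx g i)) h1).1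
        refine le_trans ?_ (neg_le_abs _)
        linarith [hBe.2]
    · have h1 := (hm2 _ (mem_range.2 (hidx g i))).1
      have h2 := (hm2 _ (mem_range.2 (hidx g' i'))).1
      have a1 := abs_le.1 (le_refl |β k (f (i + K * g))|)
      have a2 := abs_le.1 (le_refl |β k (f (i' + K * g'))|)
      have a3 := abs_nonneg (β k (f (i + K * g)))
      have a4 := abs_nonneg (β k (f (i' + K * g')))
      rcases lt_or_gt_of_ne hc with h5 | h5
      · by_cases hm0 : 0 ≤ m k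
        · have h6 : (c g' - c g) * m k ≤ -m k := by nlinarith
          refine le_trans ?_ (neg_le_abs _)
          linarith [hBe.2]
        · push Not at hm0
          have : C ≤ 0 := by linarith
          exact this.trans (abs_nonneg _)
      · by_cases hm0 : 0 ≤ m k
        · have h6 : m k ≤ (c g' - c g) * m k := by nlinarith
          refine le_trans ?_ (le_abs_self _)
          linarith [hBe.1]
        · push Not at hm0
          have : C ≤ 0 := by linarith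
          exact this.trans (abs_nonneg _)

/-- **the four point property of the limit sets** -/
theorem four_S {P : (Fin 4 → ℤ) → Prop} {D : Set ℤ} {m : ℕ → ℤ} {β : ℕ → ℕ → ℤ} (hS : Sys m β)
    {K W : ℕ} {C : ℤ} (hW : 0 < W) (hF : FourP P D K W C) (c e : Fin 4 → ℤ)
    (h3 : ∀ᶠ k in (U : Filter ℕ), P (fun g => c g * m k + e g)) :
    ∃ g g' : Fin 4, g < g' ∧ e g' - e g ∈ LS D m β (c g' - c g) := by
  by_contra hcon
  push Not at hcon
  obtain ⟨k, f, hmQ, hf, h1, h2⟩ := selectS hS c e hcon K W hW C _ h3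
  obtain ⟨g, g', i, i', hgg, hD⟩ := hF (fun g i => c g * m k + β k (f (i + K * g)) + e g)
    (fun g => c g * m k + e g) (fun g g' i i' hne => h2 g g' i i' hne) (fun g i => by
      have e1 : c g * m k + β k (f (i + K * g)) + e g - (c g * m k + e g) = β k (f (i + K * g)) := by ring
      rw [e1]
      exact hf g i) hmQ
  exact h1 g g' i i' hgg hD

/-- the same for four explicit classes -/
theorem four_S' {D : Set ℤ} {m : ℕ → ℤ} {β : ℕ → ℕ → ℤ} (hS : Sys m β) {K W : ℕ} {C : ℤ} (hW : 0 < W)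
    (hF : FourP Miss D K W C) (c₀ c₁ c₂ c₃ e₀ e₁ e₂ e₃ : ℤ)
    (h3 : ∀ m : ℤ, ∃ b : ℤ, ¬ (3 : ℤ) ∣ c₀ * m + e₀ - b ∧ ¬ (3 : ℤ) ∣ c₁ * m + e₁ - b ∧
      ¬ (3 : ℤ) ∣ c₂ * m + e₂ - b ∧ ¬ (3 : ℤ) ∣ c₃ * m + e₃ - b) :
    e₁ - e₀ ∈ LS D m β (c₁ - c₀) ∨ e₂ - e₀ ∈ LS D m β (c₂ - c₀) ∨ e₃ - e₀ ∈ LS D m β (c₃ - c₀) ∨
      e₂ - e₁ ∈ LS D m β (c₂ - c₁) ∨ e₃ - e₁ ∈ LS D m β (c₃ - c₁) ∨ e₃ - e₂ ∈ LS D m β (c₃ - c₂) := by
  obtain ⟨g, g', hgg, hm⟩ := four_S hS hW hF ![c₀, c₁, c₂, c₃] ![e₀, e₁, e₂, e₃] (by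
    refine Filter.Eventually.of_forall fun k => ?_
    obtain ⟨b, h0, h1, h2, h4⟩ := h3 (m k)
    refine ⟨b, fun g => ?_⟩
    fin_cases g
    · exact h0
    · exact h1
    · exact h2
    · exact h4)
  fin_cases g <;> fin_cases g' <;> simp at hgg hm <;> tauto

theorem sy_neg_iff {D : Set ℤ} {w : ℤ} : Sy D (-w) ↔ Sy D w := by
  unfold Sy
  rw [neg_neg]
  exact or_comm

/-- **no long holes** -/
theorem holes {P : (Fin 4 → ℤ) → Prop} {D : Set ℤ} {K W : ℕ} {C : ℤ} (hW : 0 < W) (hF : FourP P D K W C)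
    (s : ℕ) (hs : 0 < s) (hP : ∀ v : Fin 4 → ℤ, (∀ g, (s : ℤ) ∣ v g) → P v) :
    ∃ l : ℤ, 0 ≤ l ∧ ∀ H : ℤ, (s : ℤ) ∣ H → l ≤ |H| → ∃ z : ℤ, |(s : ℤ) * z| ≤ l ∧ Sy D (H + s * z) := by
  by_contra hcon
  push Not at hcon
  obtain ⟨q, hq⟩ : ∃ q : ℤ, q = W * s * (|C| + 1) := ⟨_, rfl⟩
  have hWp : (0 : ℤ) < (W : ℤ) := by exact_mod_cast hW
  have hsp : (0 : ℤ) < (s : ℤ) := by exact_mod_cast hs
  have hC0 := abs_nonneg C
  have hqC : C ≤ q := by
    rw [hq]
    have h1 := le_abs_self C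
    have h2 : (1 : ℤ) ≤ W * s := by nlinarith
    nlinarith
  have hq0 : 0 < q := by
    rw [hq]
    positivity
  have hWq : (W : ℤ) ∣ q := ⟨s * (|C| + 1), by rw [hq]; ring⟩
  have hsq : (s : ℤ) ∣ q := ⟨W * (|C| + 1), by rw [hq]; ring⟩
  obtain ⟨Y, hY⟩ : ∃ Y : ℤ, Y = q * K := ⟨_, rfl⟩
  have hY0 : 0 ≤ Y := by
    rw [hY]
    positivity
  -- the differences of the basic class
  have hy : ∀ i i' : Fin K, |q * (i' : ℤ) - q * (i : ℤ)| ≤ Y := by
    intro i i'
    have h1 : (i : ℤ) ≤ K := by exact_mod_cast i.2.le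
    have h2 : (i' : ℤ) ≤ K := by exact_mod_cast i'.2.le
    have h3 : (0 : ℤ) ≤ (i : ℤ) := by positivity
    have h4 : (0 : ℤ) ≤ (i' : ℤ) := by positivity
    rw [hY, abs_le]
    constructor <;> nlinarith
  have hy2 : ∀ i i' : Fin K, i ≠ i' → C ≤ |q * (i' : ℤ) - q * (i : ℤ)| := by
    intro i i' hne
    have h1 : (i' : ℤ) - i ≠ 0 := by
      intro h
      apply hne
      apply Fin.ext
      omega
    have h2 := Int.one_le_abs h1
    rw [← mul_sub, abs_mul, abs_of_pos hq0]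
    nlinarith
  have hys : ∀ i i' : Fin K, (s : ℤ) ∣ q * (i' : ℤ) - q * (i : ℤ) := fun i i' =>
    dvd_sub (hsq.mul_right _) (hsq.mul_right _)
  obtain ⟨H₁, hH₁s, hH₁l, hH₁⟩ := hcon (Y + |C|) (by positivity)
  obtain ⟨H₂, hH₂s, hH₂l, hH₂⟩ := hcon (|H₁| + Y + |C|) (by positivity)
  have hole₁ : ∀ w : ℤ, (s : ℤ) ∣ w → |w| ≤ Y → ¬ Sy D (H₁ + w) := by
    rintro w ⟨t, rfl⟩ hw
    exact hH₁ t (by linarith)
  have hole₂ : ∀ w : ℤ, (s : ℤ) ∣ w → |w| ≤ |H₁| + Y → ¬ Sy D (H₂ + w) := by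
    rintro w ⟨t, rfl⟩ hw
    exact hH₂ t (by linarith)
  have far : ∀ H w b : ℤ, b + |C| ≤ |H| → |w| ≤ b → C ≤ |H + w| := by
    intro H w b h1 h2
    have h7 := abs_sub_abs_le_abs_sub H (-w)
    rw [abs_neg, sub_neg_eq_add] at h7
    have := le_abs_self C
    linarith
  -- the four places
  obtain ⟨a, ha⟩ : ∃ a : Fin 4 → ℤ, a = ![0, H₁, H₂, H₁ + H₂] := ⟨_, rfl⟩
  have a0 : a 0 = 0 := by rw [ha]; rfl
  have a1 : a 1 = H₁ := by rw [ha]; rfl
  have a2 : a 2 = H₂ := by rw [ha]; rfl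
  have a3 : a 3 = H₁ + H₂ := by rw [ha]; rfl
  have main : ∀ g g' : Fin 4, g < g' → ∀ w : ℤ, (s : ℤ) ∣ w → |w| ≤ Y →
      ¬ Sy D (a g' - a g + w) ∧ C ≤ |a g' - a g + w| := by
    have k1 : ∀ w : ℤ, (s : ℤ) ∣ w → |w| ≤ Y → ¬ Sy D (H₁ + w) ∧ C ≤ |H₁ + w| := fun w h1 h2 =>
      ⟨hole₁ w h1 h2, far H₁ w Y hH₁l h2⟩
    have k2 : ∀ w : ℤ, (s : ℤ) ∣ w → |w| ≤ |H₁| + Y → ¬ Sy D (H₂ + w) ∧ C ≤ |H₂ + w| := fun w h1 h2 =>
      ⟨hole₂ w h1 h2, far H₂ w (|H₁| + Y) hH₂l h2⟩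
    intro g g' hgg w hw hwY
    have b0 := abs_nonneg H₁
    fin_cases g <;> fin_cases g' <;> simp at hgg
    · show ¬ Sy D (a 1 - a 0 + w) ∧ C ≤ |a 1 - a 0 + w|
      rw [a0, a1, sub_zero]
      exact k1 w hw hwY
    · show ¬ Sy D (a 2 - a 0 + w) ∧ C ≤ |a 2 - a 0 + w|
      rw [a0, a2, sub_zero]
      exact k2 w hw (by linarith)
    · show ¬ Sy D (a 3 - a 0 + w) ∧ C ≤ |a 3 - a 0 + w|
      have e1 : a 3 - a 0 + w = H₂ + (H₁ + w) := by rw [a0, a3]; ring
      rw [e1]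
      exact k2 _ (dvd_add hH₁s hw) ((abs_add_le _ _).trans (by linarith))
    · show ¬ Sy D (a 2 - a 1 + w) ∧ C ≤ |a 2 - a 1 + w|
      have e1 : a 2 - a 1 + w = H₂ + (-H₁ + w) := by rw [a1, a2]; ring
      rw [e1]
      exact k2 _ (dvd_add hH₁s.neg_right hw) ((abs_add_le _ _).trans (by rw [abs_neg]; linarith))
    · show ¬ Sy D (a 3 - a 1 + w) ∧ C ≤ |a 3 - a 1 + w|
      have e1 : a 3 - a 1 + w = H₂ + w := by rw [a1, a3]; ring
      rw [e1]
      exact k2 w hw (by linarith)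
    · show ¬ Sy D (a 3 - a 2 + w) ∧ C ≤ |a 3 - a 2 + w|
      have e1 : a 3 - a 2 + w = H₁ + w := by rw [a2, a3]; ring
      rw [e1]
      exact k1 w hw hwY
  obtain ⟨g, g', i, i', hgg, hD⟩ := hF (fun g i => a g + q * (i : ℤ)) a (by
      intro g g' i i' hne
      show C ≤ |a g' + q * (i' : ℤ) - (a g + q * (i : ℤ))|
      rcases lt_trichotomy g g' with h | h | h
      · have e1 : a g' + q * (i' : ℤ) - (a g + q * (i : ℤ)) = a g' - a g + (q * (i' : ℤ) - q * (i : ℤ)) := by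
          ring
        rw [e1]
        exact (main g g' h _ (hys i i') (hy i i')).2
      · subst h
        have e1 : a g + q * (i' : ℤ) - (a g + q * (i : ℤ)) = q * (i' : ℤ) - q * (i : ℤ) := by ring
        rw [e1]
        exact hy2 i i' (fun hcon => hne (by rw [hcon]))
      · have e1 : a g' + q * (i' : ℤ) - (a g + q * (i : ℤ)) =
            -(a g - a g' + (q * (i : ℤ) - q * (i' : ℤ))) := by ring
        rw [e1, abs_neg]
        exact (main g' g h _ (hys i' i) (hy i' i)).2) (fun g i => by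
      show (W : ℤ) ∣ a g + q * (i : ℤ) - a g
      rw [add_sub_cancel_left]
      exact hWq.mul_right _) (hP _ (by
      intro g
      fin_cases g
      · show (s : ℤ) ∣ a 0
        rw [a0]; exact dvd_zero _
      · show (s : ℤ) ∣ a 1
        rw [a1]; exact hH₁s
      · show (s : ℤ) ∣ a 2
        rw [a2]; exact hH₂s
      · show (s : ℤ) ∣ a 3
        rw [a3]; exact dvd_add hH₁s hH₂s))
  have e1 : a g' + q * (i' : ℤ) - (a g + q * (i : ℤ)) = a g' - a g + (q * (i' : ℤ) - q * (i : ℤ)) := by ring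
  have hD' : Sy D (a g' - a g + (q * (i' : ℤ) - q * (i : ℤ))) := by
    rw [← e1]
    exact hD
  exact (main g g' hgg _ (hys i i') (hy i i')).1 hD'

/-- **the limit sets are not empty** -/
theorem nonempty_S {P : (Fin 4 → ℤ) → Prop} {D : Set ℤ} {m : ℕ → ℤ} {β : ℕ → ℕ → ℤ} (hS : Sys m β)
    {K W : ℕ} {C : ℤ} (hW : 0 < W) (hF : FourP P D K W C) (a : ℤ) (ha : a ≠ 0) (s : ℕ) (hs : 0 < s)
    (hsa : ∀ᶠ k in (U : Filter ℕ), (s : ℤ) ∣ a * m k)
    (hP : ∀ v : Fin 4 → ℤ, (∀ g, (s : ℤ) ∣ v g) → P v) :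
    ∃ z : ℤ, (s : ℤ) * z ∈ LS D m β a := by
  classical
  obtain ⟨l, hl0, hl⟩ := holes hW hF s hs hP
  by_contra hcon
  push Not at hcon
  have h4 : ∀ z ∈ Icc (-l) l, ∀ᶠ i in (U : Filter ℕ), ∀ᶠ j in (U : Filter ℕ), ∀ᶠ k in (U : Filter ℕ),
      ¬ Sy D (a * m k + (β k j - β k i) + s * z) := fun z _ => not_LS (hcon z)
  rw [← Filter.eventually_all_finset] at h4
  obtain ⟨i, hi⟩ := h4.exists
  rw [← Filter.eventually_all_finset] at hi
  obtain ⟨j, hj⟩ := hi.exists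
  rw [← Filter.eventually_all_finset] at hj
  obtain ⟨k, ⟨⟨⟨hk1, hk2⟩, hk3⟩, hk4⟩, hk5, hk6⟩ :=
    ((((hj.and hsa).and (hS.big i l)).and (hS.big j l)).and ((hS.dvd s hs i).and (hS.dvd s hs j))).exists
  obtain ⟨z, hz1, hz2⟩ := hl (a * m k + (β k j - β k i)) (dvd_add hk2 (dvd_sub hk6 hk5)) (by
    have h6 : 1 ≤ |a| := Int.one_le_abs ha
    have h7 := abs_sub_abs_le_abs_sub (a * m k) (-(β k j - β k i))
    rw [abs_neg, sub_neg_eq_add] at h7
    have h8 := abs_sub (β k j) (β k i)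
    have h9 : |m k| ≤ |a * m k| := by
      rw [abs_mul]
      have := abs_nonneg (m k)
      nlinarith
    have h10 := le_abs_self (m k)
    have h11 := abs_nonneg (β k i)
    have h12 := abs_nonneg (β k j)
    linarith)
  refine hk1 z ?_ hz2
  rw [mem_Icc, ← abs_le]
  have h13 : (1 : ℤ) ≤ (s : ℤ) := by exact_mod_cast hs
  have h14 : |z| ≤ |(s : ℤ) * z| := by
    rw [abs_mul, abs_of_pos (by linarith : (0 : ℤ) < s)]
    have := abs_nonneg z
    nlinarith
  exact h14.trans hz1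

/-- three memberships at the same time -/
theorem tripleS {D : Set ℤ} {m : ℕ → ℤ} {β : ℕ → ℕ → ℤ} (hS : Sys m β) {p q s x y : ℤ}
    (hx : x ∈ LS D m β p) (hy : y ∈ LS D m β q) (hs : x + y ∈ LS D m β s) :
    ∃ i j l : ℕ, i < j ∧ j < l ∧ ∀ Q : ℕ → Prop, (∀ᶠ k in (U : Filter ℕ), Q k) → ∃ k, Q k ∧
      Sy D (p * m k + (β k j - β k i) + x) ∧ Sy D (q * m k + (β k l - β k j) + y) ∧
      Sy D (s * m k + (β k l - β k i) + (x + y)) ∧ 0 < β k j - β k i + x ∧ 0 < β k l - β k j + y ∧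
      β k l - β k i + |x| + |y| < m k := by
  obtain ⟨i, hi1, hi2⟩ := (Filter.Eventually.and hx hs).exists
  obtain ⟨j, ⟨hj1, hj2⟩, hj3⟩ := ((hi1.and hy).and (ev_ge (i + 1))).exists
  obtain ⟨l, ⟨hk1, hk2⟩, hk3⟩ := ((hi2.and hj2).and (ev_ge (j + 1))).exists
  refine ⟨i, j, l, hj3, hk3, fun Q hQ => ?_⟩
  obtain ⟨k, ⟨⟨h1, h2⟩, h3⟩, ⟨⟨h4, h5⟩, h6⟩, h7, h8⟩ := (((hj1.and hk1).and hk2).and
    ((((hS.inc i j hj3 (-x)).and (hS.inc j l hk3 (-y))).and hQ).and
      ((hS.big i (|x| + |y|)).and (hS.big l (|x| + |y|))))).exists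
  refine ⟨k, h6, h1, h3, h2, by linarith, by linarith, ?_⟩
  have a1 := le_abs_self (β k l)
  have a2 := neg_abs_le (β k i)
  have a3 := abs_nonneg (β k l)
  have a4 := abs_nonneg (β k i)
  linarith

end Pool.Agent.P8H77.SG
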