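import Mathlib
import Pool.Agent.P8H77.SG.Sys

/-! The number of the representations as sums of three elements. -/

set_option autoImplicit false

namespace Pool.Agent.P8H77.SG

open Filter Finset

/-- the representations of `n` as a sum of three elements of `D` -/
def Rep (D : Set ℤ) (n : ℤ) : Set (ℤ × ℤ) := {d | d.1 ∈ D ∧ d.2 ∈ D ∧ n - d.1 - d.2 ∈ D}

theorem rep_finite {D : Set ℤ} (hpos : ∀ w ∈ D, 0 < w) (n : ℤ) : (Rep D n).Finite := by
  apply (((Icc (1 : ℤ) n) ×ˢ (Icc (1 : ℤ) n) : Finset (ℤ × ℤ)).finite_toSet).subset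
  rintro ⟨d₁, d₂⟩ ⟨h1, h2, h3⟩
  have a1 := hpos _ h1
  have a2 := hpos _ h2
  have a3 := hpos _ h3
  simp only at a1 a2 a3
  rw [mem_coe, mem_product, mem_Icc, mem_Icc]
  exact ⟨⟨by linarith, by linarith⟩, by linarith, by linarith⟩

/-- the sequence with two parameters -/
def bs (q : ℕ) (u v : ℕ) (i : ℕ) : ℤ := (q : ℤ) * ((u : ℤ) * i + (v : ℤ) * i ^ 2)

theorem bs_inj {q : ℕ} (hq : 0 < q) {i j l : ℕ} (hij : i < j) (hjl : j < l) {u v u' v' : ℕ} {A x y ε : ℤ}
    (hε : ε ≠ 0)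
    (h1 : A + ε * (bs q u v j - bs q u v i + x) = A + ε * (bs q u' v' j - bs q u' v' i + x))
    (h2 : A + ε * (bs q u v l - bs q u v j + y) = A + ε * (bs q u' v' l - bs q u' v' j + y)) :
    u = u' ∧ v = v' := by
  unfold bs at h1 h2
  have hq' : (q : ℤ) ≠ 0 := by exact_mod_cast hq.ne'
  have hij' : (j : ℤ) - i ≠ 0 := by
    have : (i : ℤ) < j := by exact_mod_cast hij
    linarith
  have hjl' : (l : ℤ) - j ≠ 0 := by
    have : (j : ℤ) < l := by exact_mod_cast hjl
    linarith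
  have hil' : (l : ℤ) - i ≠ 0 := by
    have h1 : (i : ℤ) < j := by exact_mod_cast hij
    have h2 : (j : ℤ) < l := by exact_mod_cast hjl
    linarith
  have e1 : ((u : ℤ) - u') + ((v : ℤ) - v') * (i + j) = 0 := by
    have h3 : ε * (q * ((j : ℤ) - i) * (((u : ℤ) - u') + ((v : ℤ) - v') * (i + j))) = 0 := by
      linear_combination h1
    rcases mul_eq_zero.1 h3 with h | h
    · exact absurd h hε
    · rcases mul_eq_zero.1 h with h | h
      · rcases mul_eq_zero.1 h with h | h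
        · exact absurd h hq'
        · exact absurd h hij'
      · exact h
  have e2 : ((u : ℤ) - u') + ((v : ℤ) - v') * (j + l) = 0 := by
    have h3 : ε * (q * ((l : ℤ) - j) * (((u : ℤ) - u') + ((v : ℤ) - v') * (j + l))) = 0 := by
      linear_combination h2
    rcases mul_eq_zero.1 h3 with h | h
    · exact absurd h hε
    · rcases mul_eq_zero.1 h with h | h
      · rcases mul_eq_zero.1 h with h | h
        · exact absurd h hq'
        · exact absurd h hjl'
      · exact h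
  have e3 : ((v : ℤ) - v') * ((l : ℤ) - i) = 0 := by linear_combination e2 - e1
  have e4 : (v : ℤ) - v' = 0 := (mul_eq_zero.1 e3).resolve_right hil'
  have e5 : (u : ℤ) - u' = 0 := by
    rw [e4, zero_mul, add_zero] at e1
    exact e1
  constructor
  · have : (u : ℤ) = u' := by linarith
    exact_mod_cast this
  · have : (v : ℤ) = v' := by linarith
    exact_mod_cast this

/-- the three kinds of relations -/
def kA (m : ℤ) : Fin 3 → ℤ := ![0, 3 * m, 2 * m]

def kE : Fin 3 → ℤ := ![1, -1, -1]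

theorem kE_ne (τ : Fin 3) : kE τ ≠ 0 := by
  fin_cases τ <;> simp [kE]

/-- **the choice of the parameters** -/
theorem exists_uv (R : Finset (ℤ × ℤ)) (m : ℤ) (q k T : ℕ) (hq : 0 < q)
    (hT : 3 * (k + 1) ^ 3 * (2 * k + 1) ^ 2 * R.card < T ^ 2) :
    ∃ u v : ℕ, 1 ≤ u ∧ u ≤ T ∧ 1 ≤ v ∧ v ≤ T ∧ ∀ (τ : Fin 3) (i j l : ℕ) (x y : ℤ), i < j → j < l → l ≤ k →
      |x| ≤ k → |y| ≤ k →
      (kA m τ + kE τ * (bs q u v j - bs q u v i + x), kA m τ + kE τ * (bs q u v l - bs q u v j + y)) ∉ R := by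
  classical
  set Bx : Finset (ℕ × ℕ) := Icc 1 T ×ˢ Icc 1 T with hBx
  set J : Finset (Fin 3 × ℕ × ℕ × ℕ × ℤ × ℤ) := (univ : Finset (Fin 3)) ×ˢ range (k + 1) ×ˢ range (k + 1) ×ˢ
    range (k + 1) ×ˢ Icc (-(k : ℤ)) k ×ˢ Icc (-(k : ℤ)) k with hJ
  have hJc : J.card = 3 * (k + 1) ^ 3 * (2 * k + 1) ^ 2 := by
    rw [hJ]
    simp only [card_product, card_univ, Fintype.card_fin, card_range, Int.card_Icc]
    have e1 : ((k : ℤ) + 1 - -(k : ℤ)).toNat = 2 * k + 1 := by omega
    rw [e1]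
    ring
  set rel : (Fin 3 × ℕ × ℕ × ℕ × ℤ × ℤ) → (ℕ × ℕ) → (ℤ × ℤ) := fun t w =>
    (kA m t.1 + kE t.1 * (bs q w.1 w.2 t.2.2.1 - bs q w.1 w.2 t.2.1 + t.2.2.2.2.1),
      kA m t.1 + kE t.1 * (bs q w.1 w.2 t.2.2.2.1 - bs q w.1 w.2 t.2.2.1 + t.2.2.2.2.2)) with hrel
  set bad : Finset (ℕ × ℕ) := (J.filter fun t => t.2.1 < t.2.2.1 ∧ t.2.2.1 < t.2.2.2.1).biUnion
    fun t => Bx.filter fun w => rel t w ∈ R with hbad
  have hcard : bad.card < Bx.card := by
    calc bad.card ≤ ∑ t ∈ J.filter (fun t => t.2.1 < t.2.2.1 ∧ t.2.2.1 < t.2.2.2.1),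
          (Bx.filter fun w => rel t w ∈ R).card := card_biUnion_le
      _ ≤ ∑ t ∈ J.filter (fun t => t.2.1 < t.2.2.1 ∧ t.2.2.1 < t.2.2.2.1), R.card := by
          apply sum_le_sum
          intro t ht
          obtain ⟨-, h1, h2⟩ := mem_filter.1 ht
          apply card_le_card_of_injOn (rel t)
          · intro w hw
            exact (mem_filter.1 hw).2
          · intro w _ w' _ hww
            obtain ⟨e1, e2⟩ := Prod.mk.inj hww
            obtain ⟨e3, e4⟩ := bs_inj hq h1 h2 (kE_ne t.1) e1 e2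
            exact Prod.ext e3 e4
      _ ≤ ∑ t ∈ J, R.card := sum_le_sum_of_subset_of_nonneg (filter_subset _ _) fun _ _ _ => Nat.zero_le _
      _ = J.card * R.card := by rw [sum_const, smul_eq_mul]
      _ < T ^ 2 := by rw [hJc]; exact hT
      _ = Bx.card := by rw [hBx, card_product, Nat.card_Icc]; simp [sq]
  obtain ⟨w, hw, hwb⟩ : ∃ w ∈ Bx, w ∉ bad := by
    by_contra hcon
    push Not at hcon
    exact absurd (card_le_card (show Bx ⊆ bad from hcon)) (not_le.2 hcard)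
  rw [hBx, mem_product, mem_Icc, mem_Icc] at hw
  refine ⟨w.1, w.2, hw.1.1, hw.1.2, hw.2.1, hw.2.2, ?_⟩
  intro τ i j l x y hij hjl hlk hx hy hR
  apply hwb
  rw [hbad, mem_biUnion]
  refine ⟨(τ, i, j, l, x, y), ?_, ?_⟩
  · rw [mem_filter, hJ]
    simp only [mem_product, mem_univ, mem_range, mem_Icc, true_and]
    rw [abs_le] at hx hy
    exact ⟨⟨by omega, by omega, by omega, hx, hy⟩, hij, hjl⟩
  · rw [mem_filter]
    exact ⟨by rw [hBx, mem_product, mem_Icc, mem_Icc]; exact hw, hR⟩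

/-- the `k`-th step -/
theorem step {D : Set ℤ} (hpos : ∀ w ∈ D, 0 < w)
    (hcon : ∀ c : ℝ, 0 < c → ∃ᶠ m : ℕ in atTop, ((Rep D (6 * (m : ℤ))).ncard : ℝ) < c * (m : ℝ) ^ 2) (k : ℕ) :
    ∃ m u v : ℕ, k ≤ m ∧ 1 ≤ u ∧ 1 ≤ v ∧ 16 * k.factorial * (k + 1) ^ 2 * u ≤ m ∧
      16 * k.factorial * (k + 1) ^ 2 * v ≤ m ∧
      ∀ (τ : Fin 3) (i j l : ℕ) (x y : ℤ), i < j → j < l → l ≤ k → |x| ≤ k → |y| ≤ k →
      (kA m τ + kE τ * (bs k.factorial u v j - bs k.factorial u v i + x),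
        kA m τ + kE τ * (bs k.factorial u v l - bs k.factorial u v j + y)) ∉ Rep D (6 * (m : ℤ)) := by
  classical
  set q : ℕ := 16 * k.factorial * (k + 1) ^ 2 with hq
  have hq0 : 0 < q := by
    rw [hq]
    have := Nat.factorial_pos k
    positivity
  set J : ℕ := 3 * (k + 1) ^ 3 * (2 * k + 1) ^ 2 with hJ
  have hJ0 : 0 < J := by rw [hJ]; positivity
  obtain ⟨m, hm, hmk, hmq⟩ := ((hcon (1 / (J * (2 * q) ^ 2)) (by positivity)).and_eventually
    ((eventually_ge_atTop k).and (eventually_ge_atTop (2 * q)))).exists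
  have hfin := rep_finite hpos (6 * (m : ℤ))
  obtain ⟨u, v, hu1, huT, hv1, hvT, hR⟩ := exists_uv hfin.toFinset (m : ℤ) k.factorial k (m / q)
    (Nat.factorial_pos k) (by
      rw [← hJ]
      have h1 : (hfin.toFinset.card : ℝ) < 1 / (J * (2 * q) ^ 2) * (m : ℝ) ^ 2 := by
        rw [← Set.ncard_eq_toFinset_card _ hfin]
        exact hm
      have h2 : (m : ℝ) / (2 * q) ≤ ((m / q : ℕ) : ℝ) := by
        have h3 : m < (m / q + 1) * q := by
          have h30 := Nat.div_add_mod m q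
          have h31 := Nat.mod_lt m hq0
          nlinarith
        have h4 : (m : ℝ) < ((m / q : ℕ) + 1) * q := by exact_mod_cast h3
        have h5 : 2 ≤ m / q := (Nat.le_div_iff_mul_le hq0).2 hmq
        have h6 : (2 : ℝ) ≤ ((m / q : ℕ) : ℝ) := by exact_mod_cast h5
        have h7 : (0 : ℝ) < q := by exact_mod_cast hq0
        rw [div_le_iff₀ (by positivity)]
        nlinarith
      have h8 : (J : ℝ) * hfin.toFinset.card < ((m / q : ℕ) : ℝ) ^ 2 := by
        have h9 : (0 : ℝ) < J := by exact_mod_cast hJ0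
        have h7 : (0 : ℝ) < q := by exact_mod_cast hq0
        calc (J : ℝ) * hfin.toFinset.card < J * (1 / (J * (2 * q) ^ 2) * (m : ℝ) ^ 2) :=
              mul_lt_mul_of_pos_left h1 h9
          _ = ((m : ℝ) / (2 * q)) ^ 2 := by field_simp
          _ ≤ ((m / q : ℕ) : ℝ) ^ 2 := pow_le_pow_left₀ (by positivity) h2 2
      exact_mod_cast h8)
  refine ⟨m, u, v, hmk, hu1, hv1, ?_, ?_, ?_⟩
  · exact (Nat.mul_le_mul_left q huT).trans (Nat.mul_div_le m q)
  · exact (Nat.mul_le_mul_left q hvT).trans (Nat.mul_div_le m q)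
  · intro τ i j l x y hij hjl hlk hx hy hmem
    exact hR τ i j l x y hij hjl hlk hx hy (hfin.mem_toFinset.2 hmem)

/-- the system of sequences -/
theorem sys_of {m u v : ℕ → ℕ} (hmk : ∀ k, k ≤ m k) (hu : ∀ k, 1 ≤ u k)
    (hum : ∀ k, 16 * k.factorial * (k + 1) ^ 2 * u k ≤ m k)
    (hvm : ∀ k, 16 * k.factorial * (k + 1) ^ 2 * v k ≤ m k) :
    Sys (fun k => (m k : ℤ)) (fun k i => bs k.factorial (u k) (v k) i) := by
  constructor
  · intro i j hij B
    filter_upwards [ev_ge (B.toNat + 1)] with k hk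
    have h1 : B ≤ (B.toNat : ℤ) := Int.self_le_toNat B
    have h2 : k ≤ k.factorial := Nat.self_le_factorial k
    have h3 : (B.toNat : ℤ) + 1 ≤ (k.factorial : ℤ) := by exact_mod_cast hk.trans h2
    have h4 : (1 : ℤ) ≤ (u k : ℤ) := by exact_mod_cast hu k
    have h5 : (0 : ℤ) ≤ (v k : ℤ) := by positivity
    have h6 : (i : ℤ) + 1 ≤ (j : ℤ) := by exact_mod_cast hij
    have h7 : (0 : ℤ) ≤ (i : ℤ) := by positivity
    have h8 : (1 : ℤ) ≤ (u k : ℤ) * (j - i) + v k * ((j : ℤ) ^ 2 - (i : ℤ) ^ 2) := by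
      have h9 : (0 : ℤ) ≤ (v k : ℤ) * ((j : ℤ) ^ 2 - (i : ℤ) ^ 2) := by
        apply mul_nonneg h5
        nlinarith
      nlinarith
    have h10 : (k.factorial : ℤ) * 1 ≤
        k.factorial * ((u k : ℤ) * (j - i) + v k * ((j : ℤ) ^ 2 - (i : ℤ) ^ 2)) :=
      mul_le_mul_of_nonneg_left h8 (by positivity)
    have e1 : bs k.factorial (u k) (v k) j = bs k.factorial (u k) (v k) i +
        k.factorial * ((u k : ℤ) * (j - i) + v k * ((j : ℤ) ^ 2 - (i : ℤ) ^ 2)) := by
      unfold bs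
      ring
    show bs k.factorial (u k) (v k) i + B < bs k.factorial (u k) (v k) j
    rw [e1]
    linarith
  · intro i B
    filter_upwards [ev_ge (2 * B.toNat + 1), ev_ge i] with k hk hki
    have h1 : B ≤ (B.toNat : ℤ) := Int.self_le_toNat B
    have h2 : (2 * B.toNat + 1 : ℤ) ≤ (m k : ℤ) := by exact_mod_cast hk.trans (hmk k)
    have h3 : (16 * k.factorial * (k + 1) ^ 2 * u k : ℤ) ≤ (m k : ℤ) := by exact_mod_cast hum k
    have h4 : (16 * k.factorial * (k + 1) ^ 2 * v k : ℤ) ≤ (m k : ℤ) := by exact_mod_cast hvm k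
    have h5 : (0 : ℤ) ≤ bs k.factorial (u k) (v k) i := by unfold bs; positivity
    have h6 : (i : ℤ) ≤ k := by exact_mod_cast hki
    have h7 : (0 : ℤ) ≤ (i : ℤ) := by positivity
    have hf : (0 : ℤ) ≤ (k.factorial : ℤ) := by positivity
    have h8 : (k.factorial : ℤ) * ((u k : ℤ) * i) ≤ k.factorial * ((u k : ℤ) * (k + 1) ^ 2) := by
      apply mul_le_mul_of_nonneg_left _ hf
      apply mul_le_mul_of_nonneg_left _ (by positivity)
      nlinarith
    have h9 : (k.factorial : ℤ) * ((v k : ℤ) * i ^ 2) ≤ k.factorial * ((v k : ℤ) * (k + 1) ^ 2) := by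
      apply mul_le_mul_of_nonneg_left _ hf
      apply mul_le_mul_of_nonneg_left _ (by positivity)
      nlinarith
    show 4 * |bs k.factorial (u k) (v k) i| + B < (m k : ℤ)
    rw [abs_of_nonneg h5]
    have e1 : bs k.factorial (u k) (v k) i =
        (k.factorial : ℤ) * ((u k : ℤ) * i) + (k.factorial : ℤ) * ((v k : ℤ) * i ^ 2) := by
      unfold bs
      ring
    have h10 : 8 * bs k.factorial (u k) (v k) i ≤ (m k : ℤ) := by
      rw [e1]
      nlinarith
    linarith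
  · intro p hp i
    filter_upwards [ev_ge p] with k hk
    show (p : ℤ) ∣ bs k.factorial (u k) (v k) i
    unfold bs
    apply Dvd.dvd.mul_right
    exact_mod_cast Nat.dvd_factorial hp hk

/-- **the number of the representations as a sum of three elements** -/
theorem sums_count {D : Set ℤ} (hpos : ∀ w ∈ D, 0 < w) {K W : ℕ} {C : ℤ} (hW : 0 < W)
    (hF : FourP Miss D K W C) :
    ∃ c : ℝ, 0 < c ∧ ∀ᶠ m : ℕ in atTop, c * (m : ℝ) ^ 2 ≤ ((Rep D (6 * (m : ℤ))).ncard : ℝ) := by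
  by_contra hcon0
  have hcon : ∀ c : ℝ, 0 < c → ∃ᶠ m : ℕ in atTop,
      ((Rep D (6 * (m : ℤ))).ncard : ℝ) < c * (m : ℝ) ^ 2 := by
    intro c hc
    by_contra h
    rw [Filter.not_frequently] at h
    exact hcon0 ⟨c, hc, h.mono fun m hm => not_lt.1 hm⟩
  choose m u v hmk hu hv hum hvm hrel using step hpos hcon
  set β : ℕ → ℕ → ℤ := fun k i => bs k.factorial (u k) (v k) i with hβ
  set M : ℕ → ℤ := fun k => (m k : ℤ) with hM
  have hS : Sys M β := sys_of hmk hu hum hvm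
  -- the relations
  have norel : ∀ (τ : Fin 3) (i j l : ℕ) (x y : ℤ), i < j → j < l → ∀ᶠ k in (U : Filter ℕ),
      (kA (M k) τ + kE τ * (β k j - β k i + x), kA (M k) τ + kE τ * (β k l - β k j + y)) ∉
        Rep D (6 * M k) := by
    intro τ i j l x y hij hjl
    filter_upwards [ev_ge l, ev_ge x.natAbs, ev_ge y.natAbs] with k h1 h2 h3
    exact hrel k τ i j l x y hij hjl h1 (by rw [Int.abs_eq_natAbs]; exact_mod_cast h2)
      (by rw [Int.abs_eq_natAbs]; exact_mod_cast h3)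
  -- the residue class modulo three
  have mod3 : ∀ m : ℤ, ∃ b : ℤ, ¬ (3 : ℤ) ∣ b ∧ ¬ (3 : ℤ) ∣ 2 * m - b := by
    intro m
    have h3 : m % 3 = 0 ∨ m % 3 = 1 ∨ m % 3 = 2 := by omega
    rcases h3 with h3 | h3 | h3
    · exact ⟨1, by omega, by omega⟩
    · exact ⟨1, by omega, by omega⟩
    · exact ⟨2, by omega, by omega⟩
  have hmiss : ∀ v : Fin 4 → ℤ, (∀ g, ((3 : ℕ) : ℤ) ∣ v g) → Miss v := by
    intro v hv
    refine ⟨1, fun g => ?_⟩
    have := hv g
    push_cast at this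
    omega
  refine comb {z | 3 * z ∈ LS D M β 0} {z | 3 * z ∈ LS D M β (-6)} {z | 3 * z ∈ LS D M β (-3)}
    {z | 3 * z ∈ LS D M β 2} {z | 3 * z ∈ LS D M β (-2)} ?_ ?_ ?_ ?_ ?_ ?_ ?_ ?_ ?_ ?_ ?_
  · -- `0`
    have h4 := four_S' hS hW hF 0 0 0 0 0 0 0 0 (fun m => ⟨1, by norm_num, by norm_num, by norm_num,
      by norm_num⟩)
    simpa using h4
  · have h4 := four_S' hS hW hF 0 0 0 0 0 3 6 9 (fun m => ⟨1, by norm_num, by norm_num, by norm_num,
      by norm_num⟩)
    norm_num at h4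
    show 3 * (1 : ℤ) ∈ LS D M β 0 ∨ 3 * (2 : ℤ) ∈ LS D M β 0 ∨ 3 * (3 : ℤ) ∈ LS D M β 0
    norm_num
    tauto
  · intro x t hx
    have hx' : 3 * x ∉ LS D M β 0 := hx
    have h4 := four_S' hS hW hF 6 6 0 0 0 (3 * x) (3 * t) (3 * (t + x)) (fun m => ⟨1, by omega, by omega,
      by omega, by omega⟩)
    have e1 : 3 * x - 0 = 3 * x := by ring
    have e2 : 3 * t - 0 = 3 * t := by ring
    have e3 : 3 * (t + x) - 0 = 3 * (t + x) := by ring
    have e4 : 3 * t - 3 * x = 3 * (t - x) := by ring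
    have e5 : 3 * (t + x) - 3 * x = 3 * t := by ring
    have e6 : 3 * (t + x) - 3 * t = 3 * x := by ring
    rw [e1, e2, e3, e4, e5, e6, show (6 : ℤ) - 6 = 0 by norm_num, show (0 : ℤ) - 6 = -6 by norm_num,
      show (0 : ℤ) - 0 = 0 by norm_num] at h4
    rcases h4 with h4 | h4 | h4 | h4 | h4 | h4
    · exact absurd h4 hx'
    · exact Or.inr (Or.inl h4)
    · exact Or.inr (Or.inr h4)
    · exact Or.inl h4
    · exact Or.inr (Or.inl h4)
    · exact absurd h4 hx'
  · -- `R + R` and `U`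
    intro x y hx hy hxy
    have hxy' : 3 * x + 3 * y ∈ LS D M β (-6) := by
      have : 3 * (x + y) ∈ LS D M β (-6) := hxy
      rwa [mul_add] at this
    obtain ⟨i, j, l, hij, hjl, hk⟩ := tripleS hS hx hy hxy'
    obtain ⟨k, hm, h1, h2, h3, h4, h5, h6⟩ := hk _ (norel 0 i j l (3 * x) (3 * y) hij hjl)
    have ax := neg_abs_le (3 * x)
    have ay := neg_abs_le (3 * y)
    have bx := le_abs_self (3 * x)
    have by' := le_abs_self (3 * y)
    have d1 := sy_pos hpos h1 (by linarith)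
    have d2 := sy_pos hpos h2 (by linarith)
    have d3 := sy_neg hpos h3 (by linarith)
    have c1 : kA (M k) 0 + kE 0 * (β k j - β k i + 3 * x) = 0 * M k + (β k j - β k i) + 3 * x := by
      simp [kA, kE]
    have c2 : kA (M k) 0 + kE 0 * (β k l - β k j + 3 * y) = 0 * M k + (β k l - β k j) + 3 * y := by
      simp [kA, kE]
    refine hm ⟨?_, ?_, ?_⟩
    · rw [c1]; exact d1
    · rw [c2]; exact d2
    · show 6 * M k - (kA (M k) 0 + kE 0 * (β k j - β k i + 3 * x)) -
        (kA (M k) 0 + kE 0 * (β k l - β k j + 3 * y)) ∈ D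
      rw [c1, c2]
      convert d3 using 1
      ring
  · -- `A + A` and `R`
    intro x y hx hy hxy
    have hxy' : 3 * x + 3 * y ∈ LS D M β 0 := by
      have : 3 * (x + y) ∈ LS D M β 0 := hxy
      rwa [mul_add] at this
    obtain ⟨i, j, l, hij, hjl, hk⟩ := tripleS hS hx hy hxy'
    obtain ⟨k, hm, h1, h2, h3, h4, h5, h6⟩ := hk _ (norel 1 i j l (3 * x) (3 * y) hij hjl)
    have ax := neg_abs_le (3 * x)
    have ay := neg_abs_le (3 * y)
    have bx := le_abs_self (3 * x)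
    have by' := le_abs_self (3 * y)
    have d1 := sy_neg hpos h1 (by linarith)
    have d2 := sy_neg hpos h2 (by linarith)
    have d3 := sy_pos hpos h3 (by linarith)
    have c1 : kA (M k) 1 + kE 1 * (β k j - β k i + 3 * x) = -(-3 * M k + (β k j - β k i) + 3 * x) := by
      simp [kA, kE]; ring
    have c2 : kA (M k) 1 + kE 1 * (β k l - β k j + 3 * y) = -(-3 * M k + (β k l - β k j) + 3 * y) := by
      simp [kA, kE]; ring
    refine hm ⟨?_, ?_, ?_⟩
    · rw [c1]; exact d1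
    · rw [c2]; exact d2
    · show 6 * M k - (kA (M k) 1 + kE 1 * (β k j - β k i + 3 * x)) -
        (kA (M k) 1 + kE 1 * (β k l - β k j + 3 * y)) ∈ D
      rw [c1, c2]
      convert d3 using 1
      ring
  · -- `N + N` and `P`
    intro x y hx hy hxy
    have hxy' : 3 * x + 3 * y ∈ LS D M β 2 := by
      have : 3 * (x + y) ∈ LS D M β 2 := hxy
      rwa [mul_add] at this
    obtain ⟨i, j, l, hij, hjl, hk⟩ := tripleS hS hx hy hxy'
    obtain ⟨k, hm, h1, h2, h3, h4, h5, h6⟩ := hk _ (norel 2 i j l (3 * x) (3 * y) hij hjl)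
    have ax := neg_abs_le (3 * x)
    have ay := neg_abs_le (3 * y)
    have bx := le_abs_self (3 * x)
    have by' := le_abs_self (3 * y)
    have d1 := sy_neg hpos h1 (by linarith)
    have d2 := sy_neg hpos h2 (by linarith)
    have d3 := sy_pos hpos h3 (by linarith)
    have c1 : kA (M k) 2 + kE 2 * (β k j - β k i + 3 * x) = -(-2 * M k + (β k j - β k i) + 3 * x) := by
      simp [kA, kE]; ring
    have c2 : kA (M k) 2 + kE 2 * (β k l - β k j + 3 * y) = -(-2 * M k + (β k l - β k j) + 3 * y) := by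
      simp [kA, kE]; ring
    refine hm ⟨?_, ?_, ?_⟩
    · rw [c1]; exact d1
    · rw [c2]; exact d2
    · show 6 * M k - (kA (M k) 2 + kE 2 * (β k j - β k i + 3 * x)) -
        (kA (M k) 2 + kE 2 * (β k l - β k j + 3 * y)) ∈ D
      rw [c1, c2]
      convert d3 using 1
      ring
  · exact nonempty_S hS hW hF (-6) (by norm_num) 3 (by norm_num)
      (Filter.Eventually.of_forall fun k => ⟨-2 * M k, by push_cast; ring⟩) hmiss
  · exact nonempty_S hS hW hF (-3) (by norm_num) 3 (by norm_num)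
      (Filter.Eventually.of_forall fun k => ⟨-M k, by push_cast; ring⟩) hmiss
  · -- `w` first
    intro x y z h1 h2 h3
    have h4 := four_S' hS hW hF 2 0 0 0 0 (3 * x) (3 * y) (3 * z) (fun m => by
      obtain ⟨b, hb1, hb2⟩ := mod3 m
      exact ⟨b, by omega, by omega, by omega, by omega⟩)
    have e1 : 3 * y - 3 * x = 3 * (y - x) := by ring
    have e2 : 3 * z - 3 * x = 3 * (z - x) := by ring
    have e3 : 3 * z - 3 * y = 3 * (z - y) := by ring
    rw [e1, e2, e3, sub_zero, sub_zero, sub_zero, show (0 : ℤ) - 2 = -2 by norm_num,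
      show (0 : ℤ) - 0 = 0 by norm_num] at h4
    rcases h4 with h4 | h4 | h4 | h4 | h4 | h4
    · exact Or.inl h4
    · exact Or.inr (Or.inl h4)
    · exact Or.inr (Or.inr h4)
    · exact absurd h4 h1
    · exact absurd h4 h2
    · exact absurd h4 h3
  · -- `w` last
    intro x y z h1 h2 h3
    have h4 := four_S' hS hW hF 0 0 0 2 (3 * x) (3 * y) (3 * z) 0 (fun m => by
      obtain ⟨b, hb1, hb2⟩ := mod3 m
      exact ⟨b, by omega, by omega, by omega, by omega⟩)
    have e1 : 3 * y - 3 * x = 3 * (y - x) := by ring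
    have e2 : 3 * z - 3 * x = 3 * (z - x) := by ring
    have e3 : 3 * z - 3 * y = 3 * (z - y) := by ring
    have e4 : 0 - 3 * x = 3 * (-x) := by ring
    have e5 : 0 - 3 * y = 3 * (-y) := by ring
    have e6 : 0 - 3 * z = 3 * (-z) := by ring
    rw [e1, e2, e3, e4, e5, e6, show (2 : ℤ) - 0 = 2 by norm_num,
      show (0 : ℤ) - 0 = 0 by norm_num] at h4
    rcases h4 with h4 | h4 | h4 | h4 | h4 | h4
    · exact absurd h4 h1
    · exact absurd h4 h2
    · exact Or.inl h4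
    · exact absurd h4 h3
    · exact Or.inr (Or.inl h4)
    · exact Or.inr (Or.inr h4)
  · -- `w` second
    intro x y z h1 h2 h3
    have h4 := four_S' hS hW hF 0 2 0 0 (3 * x) 0 (3 * y) (3 * z) (fun m => by
      obtain ⟨b, hb1, hb2⟩ := mod3 m
      exact ⟨b, by omega, by omega, by omega, by omega⟩)
    have e1 : 3 * y - 3 * x = 3 * (y - x) := by ring
    have e2 : 3 * z - 3 * x = 3 * (z - x) := by ring
    have e3 : 3 * z - 3 * y = 3 * (z - y) := by ring
    have e4 : 0 - 3 * x = 3 * (-x) := by ring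
    rw [e1, e2, e3, e4, sub_zero (3 * y), sub_zero (3 * z), show (2 : ℤ) - 0 = 2 by norm_num,
      show (0 : ℤ) - 2 = -2 by norm_num, show (0 : ℤ) - 0 = 0 by norm_num] at h4
    rcases h4 with h4 | h4 | h4 | h4 | h4 | h4
    · exact Or.inl h4
    · exact absurd h4 h1
    · exact absurd h4 h2
    · exact Or.inr (Or.inl h4)
    · exact Or.inr (Or.inr h4)
    · exact absurd h4 h3

end Pool.Agent.P8H77.SG
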