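import Mathlib
import Pool.Agent.P8H77.SG.Cnt
import Pool.Agent.P8H77.SG.Two

/-! The number of the representations by two elements. -/

set_option autoImplicit false

namespace Pool.Agent.P8H77.SG

open Filter Finset

/-- the pairs whose sum has distance at most one from `t` -/
def Rep2 (D₁ D₂ : Set ℤ) (t : ℤ) : Set (ℤ × ℤ) := {d | d.1 ∈ D₁ ∧ d.2 ∈ D₂ ∧ |d.1 + d.2 - t| ≤ 1}

theorem rep2_finite {D₁ D₂ : Set ℤ} (hpos₁ : ∀ w ∈ D₁, 0 < w) (hpos₂ : ∀ w ∈ D₂, 0 < w) (t : ℤ) :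
    (Rep2 D₁ D₂ t).Finite := by
  apply (((Icc (1 : ℤ) (t + 1)) ×ˢ (Icc (1 : ℤ) (t + 1)) : Finset (ℤ × ℤ)).finite_toSet).subset
  rintro ⟨d₁, d₂⟩ ⟨h1, h2, h3⟩
  have a1 := hpos₁ _ h1
  have a2 := hpos₂ _ h2
  have a3 := (abs_le.1 h3).2
  simp only at a1 a2 a3
  rw [mem_coe, mem_product, mem_Icc, mem_Icc]
  exact ⟨⟨by linarith, by linarith⟩, by linarith, by linarith⟩

/-- **the choice of the parameter** -/
theorem exists_u (R : Finset (ℤ × ℤ)) (m : ℤ) (q k T : ℕ) (hq : 0 < q)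
    (hT : 2 * (k + 1) ^ 2 * (2 * k + 1) ^ 2 * R.card < T) :
    ∃ u : ℕ, 1 ≤ u ∧ u ≤ T ∧ ∀ (i j : ℕ) (x y : ℤ), i < j → j ≤ k → |x| ≤ k → |y| ≤ k →
      (bs q u 0 j - bs q u 0 i + x, m - (bs q u 0 j - bs q u 0 i) - y) ∉ R ∧
      (m - (bs q u 0 j - bs q u 0 i) - y, bs q u 0 j - bs q u 0 i + x) ∉ R := by
  classical
  set Bx : Finset ℕ := Icc 1 T with hBx
  set J : Finset (Bool × ℕ × ℕ × ℤ × ℤ) := (univ : Finset Bool) ×ˢ range (k + 1) ×ˢ range (k + 1) ×ˢ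
    Icc (-(k : ℤ)) k ×ˢ Icc (-(k : ℤ)) k with hJ
  have hJc : J.card = 2 * (k + 1) ^ 2 * (2 * k + 1) ^ 2 := by
    rw [hJ]
    simp only [card_product, card_univ, Fintype.card_bool, card_range, Int.card_Icc]
    have e1 : ((k : ℤ) + 1 - -(k : ℤ)).toNat = 2 * k + 1 := by omega
    rw [e1]
    ring
  set rel : (Bool × ℕ × ℕ × ℤ × ℤ) → ℕ → (ℤ × ℤ) := fun t w => if t.1 then
      (bs q w 0 t.2.2.1 - bs q w 0 t.2.1 + t.2.2.2.1, m - (bs q w 0 t.2.2.1 - bs q w 0 t.2.1) - t.2.2.2.2)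
    else (m - (bs q w 0 t.2.2.1 - bs q w 0 t.2.1) - t.2.2.2.2, bs q w 0 t.2.2.1 - bs q w 0 t.2.1 + t.2.2.2.1)
    with hrel
  set bad : Finset ℕ := (J.filter fun t => t.2.1 < t.2.2.1).biUnion
    fun t => Bx.filter fun w => rel t w ∈ R with hbad
  have hinj : ∀ (i j w w' : ℕ) (x : ℤ), i < j → bs q w 0 j - bs q w 0 i + x = bs q w' 0 j - bs q w' 0 i + x →
      w = w' := by
    intro i j w w' x hij h
    unfold bs at h
    have hq' : (q : ℤ) ≠ 0 := by exact_mod_cast hq.ne'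
    have hij' : (j : ℤ) - i ≠ 0 := by
      have : (i : ℤ) < j := by exact_mod_cast hij
      linarith
    have h3 : (q : ℤ) * ((j : ℤ) - i) * ((w : ℤ) - w') = 0 := by
      linear_combination h
    rcases mul_eq_zero.1 h3 with h | h
    · rcases mul_eq_zero.1 h with h | h
      · exact absurd h hq'
      · exact absurd h hij'
    · have : (w : ℤ) = w' := by linarith
      exact_mod_cast this
  have hcard : bad.card < Bx.card := by
    calc bad.card ≤ ∑ t ∈ J.filter (fun t => t.2.1 < t.2.2.1),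
          (Bx.filter fun w => rel t w ∈ R).card := card_biUnion_le
      _ ≤ ∑ t ∈ J.filter (fun t => t.2.1 < t.2.2.1), R.card := by
          apply sum_le_sum
          rintro ⟨b, i, j, x, y⟩ ht
          have h1 : i < j := (mem_filter.1 ht).2
          apply card_le_card_of_injOn (rel (b, i, j, x, y))
          · intro w hw
            exact (mem_filter.1 hw).2
          · intro w _ w' _ hww
            cases b
            · have e1 := (Prod.mk.inj hww).2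
              exact hinj i j w w' x h1 e1
            · have e1 := (Prod.mk.inj hww).1
              exact hinj i j w w' x h1 e1
      _ ≤ ∑ t ∈ J, R.card := sum_le_sum_of_subset_of_nonneg (filter_subset _ _) fun _ _ _ => Nat.zero_le _
      _ = J.card * R.card := by rw [sum_const, smul_eq_mul]
      _ < T := by rw [hJc]; exact hT
      _ = Bx.card := by rw [hBx, Nat.card_Icc]; simp
  obtain ⟨w, hw, hwb⟩ : ∃ w ∈ Bx, w ∉ bad := by
    by_contra hcon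
    push Not at hcon
    exact absurd (card_le_card (show Bx ⊆ bad from hcon)) (not_le.2 hcard)
  have hw' := hw
  rw [hBx, mem_Icc] at hw'
  refine ⟨w, hw'.1, hw'.2, ?_⟩
  intro i j x y hij hjk hx hy
  have key : ∀ b : Bool, rel (b, i, j, x, y) w ∉ R := by
    intro b hR
    apply hwb
    rw [hbad, mem_biUnion]
    refine ⟨(b, i, j, x, y), ?_, ?_⟩
    · rw [mem_filter, hJ]
      simp only [mem_product, mem_univ, mem_range, mem_Icc, true_and]
      rw [abs_le] at hx hy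
      exact ⟨⟨by omega, by omega, hx, hy⟩, hij⟩
    · rw [mem_filter]
      exact ⟨hw, hR⟩
  exact ⟨key true, key false⟩

/-- the `k`-th step -/
theorem step2 {D₁ D₂ : Set ℤ} (hpos₁ : ∀ w ∈ D₁, 0 < w) (hpos₂ : ∀ w ∈ D₂, 0 < w) (s : ℕ)
    (hcon : ∀ c : ℝ, 0 < c → ∃ᶠ t : ℕ in atTop, s ∣ t ∧ ((Rep2 D₁ D₂ (t : ℤ)).ncard : ℝ) < c * (t : ℝ)) (k : ℕ) :
    ∃ m u : ℕ, s ∣ m ∧ k ≤ m ∧ 1 ≤ u ∧ 16 * k.factorial * (k + 1) ^ 2 * u ≤ m ∧
      ∀ (i j : ℕ) (x y : ℤ), i < j → j ≤ k → |x| ≤ k → |y| ≤ k →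
      (bs k.factorial u 0 j - bs k.factorial u 0 i + x,
        (m : ℤ) - (bs k.factorial u 0 j - bs k.factorial u 0 i) - y) ∉ Rep2 D₁ D₂ (m : ℤ) ∧
      ((m : ℤ) - (bs k.factorial u 0 j - bs k.factorial u 0 i) - y,
        bs k.factorial u 0 j - bs k.factorial u 0 i + x) ∉ Rep2 D₁ D₂ (m : ℤ) := by
  classical
  set q : ℕ := 16 * k.factorial * (k + 1) ^ 2 with hq
  have hq0 : 0 < q := by
    rw [hq]
    have := Nat.factorial_pos k
    positivity
  set J : ℕ := 2 * (k + 1) ^ 2 * (2 * k + 1) ^ 2 with hJ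
  have hJ0 : 0 < J := by rw [hJ]; positivity
  obtain ⟨m, ⟨hsm, hm⟩, hmk, hmq⟩ := ((hcon (1 / (J * (2 * q))) (by positivity)).and_eventually
    ((eventually_ge_atTop k).and (eventually_ge_atTop (2 * q)))).exists
  have hfin := rep2_finite hpos₁ hpos₂ (m : ℤ)
  obtain ⟨u, hu1, huT, hR⟩ := exists_u hfin.toFinset (m : ℤ) k.factorial k (m / q)
    (Nat.factorial_pos k) (by
      rw [← hJ]
      have h1 : (hfin.toFinset.card : ℝ) < 1 / (J * (2 * q)) * (m : ℝ) := by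
        rw [← Set.ncard_eq_toFinset_card _ hfin]
        exact hm
      have h2 : (m : ℝ) / (2 * q) ≤ ((m / q : ℕ) : ℝ) := by
        have h3 : m < (m / q + 1) * q := by
          have h30 := Nat.div_add_mod m q
          have h31 := Nat.mod_lt m hq0
          nlinarith
        have h4 : (m : ℝ) < ((m / q : ℕ) + 1) * q := by exact_mod_cast h3
        have h5 : 2 ≤ m / q := (Nat.le_div_iff_mul_le hq0).2 hmq
        have h6 : (2 : ℝ) ≤ ((m / q : ℕ) : ℝ) := by exact_mod_cast h5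
        have h7 : (0 : ℝ) < q := by exact_mod_cast hq0
        rw [div_le_iff₀ (by positivity)]
        nlinarith
      have h8 : (J : ℝ) * hfin.toFinset.card < ((m / q : ℕ) : ℝ) := by
        have h9 : (0 : ℝ) < J := by exact_mod_cast hJ0
        have h7 : (0 : ℝ) < q := by exact_mod_cast hq0
        calc (J : ℝ) * hfin.toFinset.card < J * (1 / (J * (2 * q)) * (m : ℝ)) :=
              mul_lt_mul_of_pos_left h1 h9
          _ = ((m : ℝ) / (2 * q)) := by field_simp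
          _ ≤ ((m / q : ℕ) : ℝ) := h2
      exact_mod_cast h8)
  refine ⟨m, u, hsm, hmk, hu1, ?_, ?_⟩
  · exact (Nat.mul_le_mul_left q huT).trans (Nat.mul_div_le m q)
  · intro i j x y hij hjk hx hy
    have h := hR i j x y hij hjk hx hy
    rw [hfin.mem_toFinset, hfin.mem_toFinset] at h
    exact h

/-- two memberships at the same time -/
theorem doubleS {D₁ D₂ : Set ℤ} {m : ℕ → ℤ} {β : ℕ → ℕ → ℤ} (hS : Sys m β) {x y : ℤ}
    (hx : x ∈ LS D₁ m β 0) (hy : y ∈ LS D₂ m β (-1)) :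
    ∃ i j : ℕ, i < j ∧ ∀ Q : ℕ → Prop, (∀ᶠ k in (U : Filter ℕ), Q k) → ∃ k, Q k ∧
      Sy D₁ (0 * m k + (β k j - β k i) + x) ∧ Sy D₂ (-1 * m k + (β k j - β k i) + y) ∧
      0 < β k j - β k i + x ∧ β k j - β k i + |y| < m k := by
  obtain ⟨i, hi1, hi2⟩ := (Filter.Eventually.and hx hy).exists
  obtain ⟨j, ⟨hj1, hj2⟩, hj3⟩ := ((hi1.and hi2).and (ev_ge (i + 1))).exists
  refine ⟨i, j, hj3, fun Q hQ => ?_⟩
  obtain ⟨k, ⟨h1, h2⟩, ⟨h3, h4⟩, h5, h6⟩ := ((hj1.and hj2).and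
    (((hS.inc i j hj3 (-x)).and hQ).and ((hS.big i |y|).and (hS.big j |y|)))).exists
  refine ⟨k, h4, h1, h2, by linarith, ?_⟩
  have a1 := le_abs_self (β k j)
  have a2 := neg_abs_le (β k i)
  have a3 := abs_nonneg (β k j)
  have a4 := abs_nonneg (β k i)
  linarith

/-- **the number of the representations by two elements** -/
theorem sums_two_count {P : (Fin 4 → ℤ) → Prop} (s : ℕ) (hs : 0 < s)
    (hP : ∀ v : Fin 4 → ℤ, (∀ g, (s : ℤ) ∣ v g) → P v)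
    (hP' : ∀ t x : ℤ, (s : ℤ) ∣ t → P ![t, t + x, 0, x])
    {D₁ D₂ : Set ℤ} (hpos₁ : ∀ w ∈ D₁, 0 < w) (hpos₂ : ∀ w ∈ D₂, 0 < w)
    {K₁ W₁ K₂ W₂ : ℕ} {C₁ C₂ : ℤ} (hW₁ : 0 < W₁) (hF₁ : FourP P D₁ K₁ W₁ C₁)
    (hW₂ : 0 < W₂) (hF₂ : FourP P D₂ K₂ W₂ C₂) :
    ∃ c : ℝ, 0 < c ∧ ∀ᶠ t : ℕ in atTop, s ∣ t → c * (t : ℝ) ≤ ((Rep2 D₁ D₂ (t : ℤ)).ncard : ℝ) := by
  by_contra hcon0
  have hcon : ∀ c : ℝ, 0 < c → ∃ᶠ t : ℕ in atTop, s ∣ t ∧
      ((Rep2 D₁ D₂ (t : ℤ)).ncard : ℝ) < c * (t : ℝ) := by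
    intro c hc
    by_contra h
    rw [Filter.not_frequently] at h
    exact hcon0 ⟨c, hc, h.mono fun t ht hst => by
      by_contra h'
      exact ht ⟨hst, not_le.1 h'⟩⟩
  choose m u hsm hmk hu hum hrel using step2 hpos₁ hpos₂ s hcon
  set β : ℕ → ℕ → ℤ := fun k i => bs k.factorial (u k) 0 i with hβ
  set M : ℕ → ℤ := fun k => (m k : ℤ) with hM
  have hS : Sys M β := sys_of (v := fun _ => 0) hmk hu hum (fun k => by simp)
  have hsM : ∀ᶠ k in (U : Filter ℕ), (s : ℤ) ∣ M k :=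
    Filter.Eventually.of_forall fun k => Int.natCast_dvd_natCast.2 (hsm k)
  -- the relations for one set
  have zero : ∀ (D : Set ℤ) (K W : ℕ) (C : ℤ), 0 < W → FourP P D K W C → (0 : ℤ) ∈ LS D M β 0 := by
    intro D K W C hW hF
    obtain ⟨g, g', -, h⟩ := four_S hS hW hF (fun _ => 0) (fun _ => 0)
      (Filter.Eventually.of_forall fun m => hP _ fun g => by simp)
    simpa using h
  have rel : ∀ (D : Set ℤ) (K W : ℕ) (C : ℤ), 0 < W → FourP P D K W C → ∀ x : ℤ, x ∉ LS D M β 0 →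
      -x ∈ LS D M β (-1) ∨ (0 : ℤ) ∈ LS D M β (-1) ∨ x ∈ LS D M β (-1) := by
    intro D K W C hW hF x hx
    obtain ⟨g, g', hgg, h⟩ := four_S hS hW hF ![1, 1, 0, 0] ![0, x, 0, x] (by
      filter_upwards [hsM] with k hk
      have h1 := hP' (M k) x hk
      convert h1 using 1
      ext g
      fin_cases g
      · simp
      · simp
      · simp
      · simp)
    fin_cases g <;> fin_cases g' <;> simp at hgg h <;> tauto
  have sum : ∀ (D D' : Set ℤ), (∀ w ∈ D, 0 < w) → (∀ w ∈ D', 0 < w) →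
      (∀ (i j : ℕ) (x y : ℤ), i < j → ∀ᶠ k in (U : Filter ℕ),
        ¬ (β k j - β k i + x ∈ D ∧ M k - (β k j - β k i) - y ∈ D' ∧ |x - y| ≤ 1)) →
      ∀ x δ : ℤ, |δ| ≤ 1 → x ∈ LS D M β 0 → x + δ ∉ LS D' M β (-1) := by
    intro D D' hp hp' hb x δ hδ hx hy
    obtain ⟨i, j, hij, hk⟩ := doubleS hS hx hy
    obtain ⟨k, hm, h1, h2, h3, h4⟩ := hk _ (hb i j x (x + δ) hij)
    have a1 := neg_abs_le (x + δ)
    have a2 := le_abs_self (x + δ)
    have e1 := sy_pos hp h1 (by linarith)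
    have e2 := sy_neg hp' h2 (by linarith)
    refine hm ⟨?_, ?_, ?_⟩
    · convert e1 using 1
      ring
    · convert e2 using 1
      ring
    · rw [show x - (x + δ) = -δ by ring, abs_neg]
      exact hδ
  have hb1 : ∀ (i j : ℕ) (x y : ℤ), i < j → ∀ᶠ k in (U : Filter ℕ),
      ¬ (β k j - β k i + x ∈ D₁ ∧ M k - (β k j - β k i) - y ∈ D₂ ∧ |x - y| ≤ 1) := by
    intro i j x y hij
    filter_upwards [ev_ge j, ev_ge x.natAbs, ev_ge y.natAbs] with k h1 h2 h3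
    rintro ⟨h4, h5, h6⟩
    refine (hrel k i j x y hij h1 (by rw [Int.abs_eq_natAbs]; exact_mod_cast h2)
      (by rw [Int.abs_eq_natAbs]; exact_mod_cast h3)).1 ⟨h4, h5, ?_⟩
    show |bs k.factorial (u k) 0 j - bs k.factorial (u k) 0 i + x +
      ((m k : ℤ) - (bs k.factorial (u k) 0 j - bs k.factorial (u k) 0 i) - y) - (m k : ℤ)| ≤ 1
    rw [show bs k.factorial (u k) 0 j - bs k.factorial (u k) 0 i + x +
      ((m k : ℤ) - (bs k.factorial (u k) 0 j - bs k.factorial (u k) 0 i) - y) - (m k : ℤ) = x - y by ring]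
    exact h6
  have hb2 : ∀ (i j : ℕ) (x y : ℤ), i < j → ∀ᶠ k in (U : Filter ℕ),
      ¬ (β k j - β k i + x ∈ D₂ ∧ M k - (β k j - β k i) - y ∈ D₁ ∧ |x - y| ≤ 1) := by
    intro i j x y hij
    filter_upwards [ev_ge j, ev_ge x.natAbs, ev_ge y.natAbs] with k h1 h2 h3
    rintro ⟨h4, h5, h6⟩
    refine (hrel k i j x y hij h1 (by rw [Int.abs_eq_natAbs]; exact_mod_cast h2)
      (by rw [Int.abs_eq_natAbs]; exact_mod_cast h3)).2 ⟨h5, h4, ?_⟩
    show |(m k : ℤ) - (bs k.factorial (u k) 0 j - bs k.factorial (u k) 0 i) - y +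
      (bs k.factorial (u k) 0 j - bs k.factorial (u k) 0 i + x) - (m k : ℤ)| ≤ 1
    rw [show (m k : ℤ) - (bs k.factorial (u k) 0 j - bs k.factorial (u k) 0 i) - y +
      (bs k.factorial (u k) 0 j - bs k.factorial (u k) 0 i + x) - (m k : ℤ) = x - y by ring]
    exact h6
  obtain ⟨z, hz⟩ := nonempty_S hS hW₁ hF₁ (-1) (by norm_num) s hs (by
    filter_upwards [hsM] with k hk
    rw [neg_one_mul]
    exact hk.neg_right) hP
  exact comb_two (LS D₁ M β 0) (LS D₂ M β 0) (LS D₁ M β (-1)) (LS D₂ M β (-1))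
    (zero _ _ _ _ hW₁ hF₁) (zero _ _ _ _ hW₂ hF₂) (rel _ _ _ _ hW₁ hF₁) (rel _ _ _ _ hW₂ hF₂)
    (sum _ _ hpos₁ hpos₂ hb1) (sum _ _ hpos₂ hpos₁ hb2) _ hz

end Pool.Agent.P8H77.SG
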