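import Mathlib
import Pool.Agent.P8H77.SG.Gen
import Pool.Agent.P8H77.SG.CntTwo

/-! The number of the representations, for every set of gaps which meets the differences of any four admissible
classes of shifts. -/

set_option autoImplicit false

namespace Pool.Agent.P8H77.SG

open Finset Filter Pool.Agent.H947R3.GM

theorem triples_finite (n : ℕ) (p : (Fin 3 → ℕ) → Prop) :
    {d : Fin 3 → ℕ | n = d 0 + d 1 + d 2 ∧ p d}.Finite := by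
  apply ((Fintype.piFinset fun _ : Fin 3 => Finset.range (n + 1)).finite_toSet).subset
  rintro d ⟨h, -⟩
  rw [mem_coe, Fintype.mem_piFinset]
  intro i
  rw [mem_range]
  fin_cases i
  · show d 0 < n + 1
    omega
  · show d 1 < n + 1
    omega
  · show d 2 < n + 1
    omega

theorem pairs_finite (n : ℕ) (p : ℕ × ℕ → Prop) :
    {d : ℕ × ℕ | d.1 + d.2 ≤ n ∧ p d}.Finite := by
  apply ((Finset.range (n + 1) ×ˢ Finset.range (n + 1)).finite_toSet).subset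
  rintro ⟨d₁, d₂⟩ ⟨h, -⟩
  simp only at h
  rw [mem_coe, mem_product, mem_range, mem_range]
  constructor
  · show d₁ < n + 1
    omega
  · show d₂ < n + 1
    omega

/-- **sums of three elements of `N G`, number of representations** -/
theorem three_count (m N : ℕ) (G : Set ℕ) (hG : Meets N G) (hm : 0 < m) (hN2 : 2 ∣ N) (hNm : N ∣ m) :
    ∃ c : ℝ, 0 < c ∧ ∀ᶠ n : ℕ in atTop, 6 * m ∣ n → c * (n : ℝ) ^ 2 ≤
      ({d : Fin 3 → ℕ | n = d 0 + d 1 + d 2 ∧ ∀ i, m ∣ d i ∧ ∃ k ∈ G, d i = N * k}.ncard : ℝ) := by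
  obtain ⟨l, rfl⟩ := hNm
  have hl : 0 < l := Nat.pos_of_mul_pos_left hm
  obtain ⟨K, W, hW, hF⟩ := four_DG Miss N l G hG (((0 : ℕ) : ℤ) + 1) (by norm_num) hN2
    hl (fun _ _ h => h)
  have hpos := DG_pos G l 0
  obtain ⟨c, hc, hcm⟩ := sums_count hpos hW hF
  obtain ⟨t₀, ht₀⟩ := eventually_atTop.1 hcm
  have hmr : (0 : ℝ) < ((N * l : ℕ) : ℝ) := by exact_mod_cast hm
  refine ⟨c / (36 * ((N * l : ℕ) : ℝ) ^ 2), by positivity, eventually_atTop.2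
    ⟨6 * (N * l) * t₀, fun n hn hdvd => ?_⟩⟩
  obtain ⟨t, rfl⟩ := hdvd
  have htt : t₀ ≤ t := Nat.le_of_mul_le_mul_left hn (by positivity)
  have h1 := ht₀ t htt
  have h2 : c / (36 * ((N * l : ℕ) : ℝ) ^ 2) * ((6 * (N * l) * t : ℕ) : ℝ) ^ 2 = c * (t : ℝ) ^ 2 := by
    obtain ⟨M, hM⟩ : ∃ M : ℝ, M = ((N * l : ℕ) : ℝ) := ⟨_, rfl⟩
    have e1 : ((6 * (N * l) * t : ℕ) : ℝ) = 6 * M * t := by
      rw [hM]
      push_cast
      ring
    rw [e1, ← hM]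
    rw [← hM] at hmr
    have hM0 := hmr.ne'
    field_simp
    ring
  rw [h2]
  refine h1.trans ?_
  rw [Nat.cast_le]
  refine Set.ncard_le_ncard_of_injOn (fun w : ℤ × ℤ =>
    (![N * l * w.1.toNat, N * l * w.2.toNat, N * l * (6 * (t : ℤ) - w.1 - w.2).toNat] : Fin 3 → ℕ)) ?_ ?_
    (triples_finite _ _)
  · rintro ⟨w₁, w₂⟩ ⟨h3, h4, h5⟩
    obtain ⟨hC1, k₁, hk1, hg1⟩ := h3
    obtain ⟨hC2, k₂, hk2, hg2⟩ := h4
    obtain ⟨hC3, k₃, hk3, hg3⟩ := h5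
    simp only at hk1 hk2 hk3
    have e1 : w₁.toNat = k₁ := by omega
    have e2 : w₂.toNat = k₂ := by omega
    have e3 : (6 * (t : ℤ) - w₁ - w₂).toNat = k₃ := by omega
    have key : ∀ k : ℕ, l * k ∈ G → N * l ∣ N * l * k ∧ ∃ k' ∈ G, N * l * k = N * k' := by
      intro k hg
      exact ⟨dvd_mul_right _ _, l * k, hg, by ring⟩
    refine ⟨?_, ?_⟩
    · show 6 * (N * l) * t = N * l * w₁.toNat + N * l * w₂.toNat + N * l * (6 * (t : ℤ) - w₁ - w₂).toNat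
      rw [e1, e2, e3]
      have e4 : 6 * t = k₁ + k₂ + k₃ := by omega
      have e5 : 6 * (N * l) * t = N * l * (6 * t) := by ring
      rw [e5, e4]
      ring
    · intro i
      fin_cases i
      · show N * l ∣ N * l * w₁.toNat ∧ ∃ k' ∈ G, N * l * w₁.toNat = N * k'
        rw [e1]; exact key k₁ hg1
      · show N * l ∣ N * l * w₂.toNat ∧ ∃ k' ∈ G, N * l * w₂.toNat = N * k'
        rw [e2]; exact key k₂ hg2
      · show N * l ∣ N * l * (6 * (t : ℤ) - w₁ - w₂).toNat ∧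
          ∃ k' ∈ G, N * l * (6 * (t : ℤ) - w₁ - w₂).toNat = N * k'
        rw [e3]; exact key k₃ hg3
  · rintro ⟨w₁, w₂⟩ ⟨h3, h4, -⟩ ⟨w₁', w₂'⟩ ⟨h3', h4', -⟩ h
    have a1 := congrFun h 0
    have a2 := congrFun h 1
    have a3 : N * l * w₁.toNat = N * l * w₁'.toNat := a1
    have a4 : N * l * w₂.toNat = N * l * w₂'.toNat := a2
    have b1 := Nat.eq_of_mul_eq_mul_left hm a3
    have b2 := Nat.eq_of_mul_eq_mul_left hm a4
    have c1 := hpos _ h3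
    have c2 := hpos _ h4
    have c3 := hpos _ h3'
    have c4 := hpos _ h4'
    simp only at c1 c2 c3 c4
    rw [Prod.mk.injEq]
    constructor <;> omega

/-- **sums of an element of `N₁ G₁` and an element of `N₂ G₂`, number of representations** -/
theorem two_count (m N₁ N₂ : ℕ) (G₁ G₂ : Set ℕ) (hG₁ : Meets N₁ G₁) (hG₂ : Meets N₂ G₂) (hm : 0 < m)
    (hN₁2 : 2 ∣ N₁) (hNm₁ : N₁ ∣ m) (hN₂2 : 2 ∣ N₂) (hNm₂ : N₂ ∣ m) :
    ∃ c : ℝ, 0 < c ∧ ∀ᶠ t : ℕ in atTop, 3 ∣ m * t → c * (t : ℝ) ≤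
      ({d : ℕ × ℕ | (d.1 + d.2 + m = m * t ∨ d.1 + d.2 = m * t ∨ d.1 + d.2 = m * t + m) ∧
        (m ∣ d.1 ∧ ∃ k ∈ G₁, d.1 = N₁ * k) ∧ (m ∣ d.2 ∧ ∃ k ∈ G₂, d.2 = N₂ * k)}.ncard : ℝ) := by
  obtain ⟨l₁, hl₁⟩ := hNm₁
  obtain ⟨l₂, hl₂⟩ := hNm₂
  have hm₁ : 0 < N₁ * l₁ := hl₁ ▸ hm
  have hm₂ : 0 < N₂ * l₂ := hl₂ ▸ hm
  have hl₁0 : 0 < l₁ := Nat.pos_of_mul_pos_left hm₁
  have hl₂0 : 0 < l₂ := Nat.pos_of_mul_pos_left hm₂
  have hC1 : (1 : ℤ) ≤ ((0 : ℕ) : ℤ) + 1 := by norm_num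
  have hp₁ := DG_pos G₁ l₁ 0
  have hp₂ := DG_pos G₂ l₂ 0
  have spec : ∀ (N l : ℕ) (G : Set ℕ), m = N * l → ∀ k : ℕ, l * k ∈ G →
      m ∣ m * k ∧ ∃ k' ∈ G, m * k = N * k' := by
    intro N l G hml k hg
    exact ⟨dvd_mul_right _ _, l * k, hg, by rw [hml]; ring⟩
  -- the conclusion from the sums
  have conc : ∀ (t : ℕ) (c : ℝ), c * (t : ℝ) ≤
      ((Rep2 (DG G₁ l₁ (((0 : ℕ) : ℤ) + 1)) (DG G₂ l₂ (((0 : ℕ) : ℤ) + 1)) (t : ℤ)).ncard : ℝ) →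
      c * (t : ℝ) ≤ ({d : ℕ × ℕ | (d.1 + d.2 + m = m * t ∨ d.1 + d.2 = m * t ∨ d.1 + d.2 = m * t + m) ∧
        (m ∣ d.1 ∧ ∃ k ∈ G₁, d.1 = N₁ * k) ∧ (m ∣ d.2 ∧ ∃ k ∈ G₂, d.2 = N₂ * k)}.ncard : ℝ) := by
    intro t c hct
    refine hct.trans ?_
    rw [Nat.cast_le]
    refine Set.ncard_le_ncard_of_injOn (fun w : ℤ × ℤ => (m * w.1.toNat, m * w.2.toNat)) ?_ ?_ ?_
    · rintro ⟨w₁, w₂⟩ ⟨⟨hc1, k₁, hk1, hg1⟩, ⟨hc2, k₂, hk2, hg2⟩, habs⟩
      simp only at hk1 hk2 habs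
      have e1 : w₁.toNat = k₁ := by omega
      have e2 : w₂.toNat = k₂ := by omega
      show (m * w₁.toNat + m * w₂.toNat + m = m * t ∨ m * w₁.toNat + m * w₂.toNat = m * t ∨
          m * w₁.toNat + m * w₂.toNat = m * t + m) ∧
        (m ∣ m * w₁.toNat ∧ ∃ k ∈ G₁, m * w₁.toNat = N₁ * k) ∧
        (m ∣ m * w₂.toNat ∧ ∃ k ∈ G₂, m * w₂.toNat = N₂ * k)
      rw [e1, e2]
      refine ⟨?_, spec N₁ l₁ G₁ hl₁ k₁ hg1, spec N₂ l₂ G₂ hl₂ k₂ hg2⟩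
      rw [abs_le] at habs
      have h3 : k₁ + k₂ + 1 = t ∨ k₁ + k₂ = t ∨ k₁ + k₂ = t + 1 := by omega
      rcases h3 with h3 | h3 | h3
      · left; rw [← h3]; ring
      · right; left; rw [← h3]; ring
      · right; right
        have e1 : m * k₁ + m * k₂ = m * (k₁ + k₂) := by ring
        rw [e1, h3]; ring
    · rintro ⟨w₁, w₂⟩ ⟨h3, h4, -⟩ ⟨w₁', w₂'⟩ ⟨h3', h4', -⟩ h
      rw [Prod.mk.injEq] at h
      have b1 := Nat.eq_of_mul_eq_mul_left hm h.1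
      have b2 := Nat.eq_of_mul_eq_mul_left hm h.2
      have c1 := hp₁ _ h3
      have c2 := hp₂ _ h4
      have c3 := hp₁ _ h3'
      have c4 := hp₂ _ h4'
      simp only at b1 b2 c1 c2 c3 c4
      rw [Prod.mk.injEq]
      constructor <;> omega
    · apply (pairs_finite (m * t + m) fun _ => True).subset
      rintro d ⟨h, -⟩
      exact ⟨by omega, trivial⟩
  by_cases h3m : 3 ∣ m
  · obtain ⟨K₁, W₁, hW₁, hF₁⟩ := four_DG (fun _ => True) N₁ l₁ G₁ hG₁ (((0 : ℕ) : ℤ) + 1) hC1 hN₁2 hl₁0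
      (fun h => absurd (hl₁ ▸ h3m) h)
    obtain ⟨K₂, W₂, hW₂, hF₂⟩ := four_DG (fun _ => True) N₂ l₂ G₂ hG₂ (((0 : ℕ) : ℤ) + 1) hC1 hN₂2 hl₂0
      (fun h => absurd (hl₂ ▸ h3m) h)
    obtain ⟨c, hc, hev⟩ := sums_two_count 1 one_pos (fun _ _ => trivial) (fun _ _ _ => trivial) hp₁
      hp₂ hW₁ hF₁ hW₂ hF₂
    exact ⟨c, hc, hev.mono fun t ht _ => conc t c (ht (one_dvd t))⟩
  · obtain ⟨K₁, W₁, hW₁, hF₁⟩ := four_DG Miss N₁ l₁ G₁ hG₁ (((0 : ℕ) : ℤ) + 1) hC1 hN₁2 hl₁0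
      (fun _ _ h => h)
    obtain ⟨K₂, W₂, hW₂, hF₂⟩ := four_DG Miss N₂ l₂ G₂ hG₂ (((0 : ℕ) : ℤ) + 1) hC1 hN₂2 hl₂0
      (fun _ _ h => h)
    obtain ⟨c, hc, hev⟩ := sums_two_count (P := Miss) 3 (by norm_num) (fun v hv => ⟨1, fun g => by
        have := hv g
        push_cast at this
        omega⟩) (fun t x ht => by
        push_cast at ht
        rcases (show x % 3 = 0 ∨ x % 3 = 1 ∨ x % 3 = 2 by omega) with h5 | h5 | h5
        · refine ⟨1, fun g => ?_⟩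
          fin_cases g
          · show ¬ (3 : ℤ) ∣ t - 1
            omega
          · show ¬ (3 : ℤ) ∣ t + x - 1
            omega
          · show ¬ (3 : ℤ) ∣ 0 - 1
            omega
          · show ¬ (3 : ℤ) ∣ x - 1
            omega
        · refine ⟨2, fun g => ?_⟩
          fin_cases g
          · show ¬ (3 : ℤ) ∣ t - 2
            omega
          · show ¬ (3 : ℤ) ∣ t + x - 2
            omega
          · show ¬ (3 : ℤ) ∣ 0 - 2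
            omega
          · show ¬ (3 : ℤ) ∣ x - 2
            omega
        · refine ⟨1, fun g => ?_⟩
          fin_cases g
          · show ¬ (3 : ℤ) ∣ t - 1
            omega
          · show ¬ (3 : ℤ) ∣ t + x - 1
            omega
          · show ¬ (3 : ℤ) ∣ 0 - 1
            omega
          · show ¬ (3 : ℤ) ∣ x - 1
            omega) hp₁ hp₂ hW₁ hF₁ hW₂ hF₂
    refine ⟨c, hc, hev.mono fun t ht h3t => ?_⟩
    have h3t' : 3 ∣ t := (Nat.prime_three.dvd_mul.1 h3t).resolve_left h3m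
    exact conc t c (ht h3t')

end Pool.Agent.P8H77.SG
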