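import Mathlib
import Pool.Agent.P8H77.SG.App2
import Pool.Agent.P8H77.SG.Gen2

/-! Number of the representations by gaps which occur along narrow progressions. -/

set_option autoImplicit false

namespace Pool.Agent.P8H77.SG

open Finset Filter Pool.Agent.H947R3.GM Pool.Agent.Y827.RO

theorem three_nar_count (m N a : ℕ) (hm : 0 < m) (hN2 : 2 ∣ N) (hNm : N ∣ m) (ha : a.Coprime N)
    (Q : ℕ → Prop) (hQ : ∀ d, Nar (NextGap N a d) → Q d) :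
    ∃ c : ℝ, 0 < c ∧ ∀ᶠ n : ℕ in atTop, 6 * m ∣ n → c * (n : ℝ) ^ 2 ≤
      ({d : Fin 3 → ℕ | n = d 0 + d 1 + d 2 ∧ ∀ i, m ∣ d i ∧ Q (d i)}.ncard : ℝ) := by
  have hN : 0 < N := Nat.pos_of_dvd_of_pos hNm hm
  obtain ⟨c, hc, h⟩ := three_count m N _ (meets_nar N a hN ha) hm hN2 hNm
  refine ⟨c, hc, h.mono fun n hn hd => (hn hd).trans ?_⟩
  rw [Nat.cast_le]
  apply Set.ncard_le_ncard _ (triples_finite _ _)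
  rintro d ⟨h1, h2⟩
  refine ⟨h1, fun i => ⟨(h2 i).1, ?_⟩⟩
  obtain ⟨k, hk, hdk⟩ := (h2 i).2
  rw [hdk]
  exact hQ _ hk

theorem two_nar_count (m N₁ a₁ N₂ a₂ : ℕ) (hm : 0 < m) (hN₁2 : 2 ∣ N₁) (hNm₁ : N₁ ∣ m)
    (ha₁ : a₁.Coprime N₁) (hN₂2 : 2 ∣ N₂) (hNm₂ : N₂ ∣ m) (ha₂ : a₂.Coprime N₂) (Q₁ Q₂ : ℕ → Prop)
    (hQ₁ : ∀ d, Nar (NextGap N₁ a₁ d) → Q₁ d) (hQ₂ : ∀ d, Nar (NextGap N₂ a₂ d) → Q₂ d) :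
    ∃ c : ℝ, 0 < c ∧ ∀ᶠ t : ℕ in atTop, 3 ∣ m * t → c * (t : ℝ) ≤
      ({d : ℕ × ℕ | (d.1 + d.2 + m = m * t ∨ d.1 + d.2 = m * t ∨ d.1 + d.2 = m * t + m) ∧
      (m ∣ d.1 ∧ Q₁ d.1) ∧ (m ∣ d.2 ∧ Q₂ d.2)}.ncard : ℝ) := by
  have hN₁ : 0 < N₁ := Nat.pos_of_dvd_of_pos hNm₁ hm
  have hN₂ : 0 < N₂ := Nat.pos_of_dvd_of_pos hNm₂ hm
  obtain ⟨c, hc, h⟩ := two_count m N₁ N₂ _ _ (meets_nar N₁ a₁ hN₁ ha₁)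
    (meets_nar N₂ a₂ hN₂ ha₂) hm hN₁2 hNm₁ hN₂2 hNm₂
  refine ⟨c, hc, h.mono fun t ht hd => (ht hd).trans ?_⟩
  rw [Nat.cast_le]
  apply Set.ncard_le_ncard
  · rintro d ⟨h1, ⟨h2, k₁, hk₁, hd₁⟩, h3, k₂, hk₂, hd₂⟩
    refine ⟨h1, ⟨h2, ?_⟩, h3, ?_⟩
    · rw [hd₁]
      exact hQ₁ _ hk₁
    · rw [hd₂]
      exact hQ₂ _ hk₂
  · apply (pairs_finite (m * t + m) fun _ => True).subset
    rintro d ⟨h, -⟩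
    exact ⟨by omega, trivial⟩

/-- the narrow progressions, with the number of elements written as a cardinality -/
theorem nar_ncard {N a d : ℕ} (h : Nar (NextGap N a d)) : ∀ l : ℕ, ∃ C : ℕ, ∃ᶠ x : ℕ in atTop, ∃ D : ℕ,
    1 ≤ D ∧ (D : ℝ) ≤ (Real.log x) ^ C ∧ (x : ℝ) / (Real.log x) ^ C ≤
      ({m : ℕ | 1 ≤ m ∧ m ≤ x ∧ ∀ j < l, NextGap N a d (m + j * D)}.ncard : ℝ) := by
  classical
  intro l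
  obtain ⟨C, hC⟩ := h l
  refine ⟨C, hC.mono ?_⟩
  rintro x ⟨D, hD1, hD2, hD3⟩
  refine ⟨D, hD1, hD2, hD3.trans ?_⟩
  rw [Nat.cast_le, ← Set.ncard_coe_finset]
  apply Set.ncard_le_ncard
  · intro m hm
    rw [mem_coe, mem_filter, mem_Icc] at hm
    exact ⟨hm.1.1, hm.1.2, hm.2⟩
  · apply (Set.finite_Iic x).subset
    rintro m ⟨-, h, -⟩
    exact h

end Pool.Agent.P8H77.SG
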