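import Mathlib
import Pool.Agent.P8H13.AD.It
import Pool.Agent.P8H77.SG.CntTwo

/-! Sums of three and of two first return times of `x ↦ 2 x - 1`. -/

set_option autoImplicit false

namespace Pool.Agent.P8H77.SG

open Finset Filter Pool.Agent.P8H13.AD

/-- for every length there are many narrow progressions of primes with the first return time `t` -/
def NarT (t : ℕ) : Prop := ∀ l : ℕ, ∃ C : ℕ, ∃ᶠ x : ℕ in atTop, RetAt t l C x

/-- **two of four classes of times** -/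
theorem four_times : ∃ K : ℕ, 1 ≤ K ∧ ∀ c : Fin 4 × Fin K → ℕ, Function.Injective c →
    ∃ z w : Fin 4 × Fin K, z.1 ≠ w.1 ∧ c z < c w ∧ NarT (c w - c z) := by
  classical
  obtain ⟨K, hK, hnar⟩ := Pool.Agent.Y827.RO.narR 4 1 (by norm_num) (by norm_num)
  refine ⟨K, hK, fun c hcinj => ?_⟩
  by_contra hcon
  push Not at hcon
  have hneg : ∀ y : (Fin 4 × Fin K) × (Fin 4 × Fin K), ∃ l : ℕ, y.1.1 ≠ y.2.1 → c y.1 < c y.2 →
      ∀ C : ℕ, ∀ᶠ x : ℕ in atTop, ¬ RetAt (c y.2 - c y.1) l C x := by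
    rintro ⟨z, w⟩
    by_cases hzw : z.1 ≠ w.1 ∧ c z < c w
    swap
    · exact ⟨0, fun h1 h2 => absurd ⟨h1, h2⟩ hzw⟩
    have hng := hcon z w hzw.1 hzw.2
    unfold NarT at hng
    push Not at hng
    obtain ⟨l, hl⟩ := hng
    refine ⟨l, fun _ _ C => ?_⟩
    exact Filter.not_frequently.1 (by simpa using hl C)
  choose ll hll using hneg
  obtain ⟨lm, hlm⟩ : ∃ lm : ℕ, lm = ∑ y, ll y := ⟨_, rfl⟩
  have hlle : ∀ y, ll y ≤ lm := fun y => by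
    rw [hlm]; exact single_le_sum (f := ll) (fun _ _ => Nat.zero_le _) (mem_univ y)
  obtain ⟨C, hC⟩ := consI hnar c hcinj lm
  have hall : ∀ᶠ x : ℕ in atTop, ∀ y : (Fin 4 × Fin K) × (Fin 4 × Fin K), y.1.1 ≠ y.2.1 →
      c y.1 < c y.2 → ¬ RetAt (c y.2 - c y.1) (ll y) C x := by
    rw [eventually_all]
    intro y
    by_cases hy : y.1.1 ≠ y.2.1 ∧ c y.1 < c y.2
    · filter_upwards [hll y hy.1 hy.2 C] with x hx _ _
      exact hx
    · exact Eventually.of_forall fun x h1 h2 => absurd ⟨h1, h2⟩ hy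
  obtain ⟨x', h1, h2⟩ := (hC.and hall).exists
  obtain ⟨z, w, hzw, hlt, hgap⟩ := h1
  exact h2 (z, w) hzw hlt (RetAt_len (hlle (z, w)) hgap)

/-- the set of the times -/
def DT : Set ℤ := {w | ∃ k : ℕ, (k : ℤ) = w ∧ 0 < k ∧ NarT k}

theorem DT_pos : ∀ w ∈ DT, 0 < w := by
  rintro w ⟨k, rfl, hk, -⟩
  exact_mod_cast hk

theorem four_DT (P : (Fin 4 → ℤ) → Prop) : ∃ K : ℕ, FourP P DT K 1 1 := by
  classical
  obtain ⟨K, hK, h⟩ := four_times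
  refine ⟨K, fun x a hsep _ _ => ?_⟩
  obtain ⟨B, hB⟩ : ∃ B : ℤ, ∀ g i, 0 ≤ x g i + B := by
    refine ⟨∑ p : Fin 4 × Fin K, |x p.1 p.2|, fun g i => ?_⟩
    have h1 := single_le_sum (f := fun p : Fin 4 × Fin K => |x p.1 p.2|)
      (fun _ _ => abs_nonneg _) (mem_univ (g, i))
    have h2 := neg_abs_le (x g i)
    simp only at h1
    linarith
  obtain ⟨c, hc⟩ : ∃ c : Fin 4 × Fin K → ℕ, ∀ z, (c z : ℤ) = x z.1 z.2 + B :=
    ⟨fun z => (x z.1 z.2 + B).toNat, fun z => Int.toNat_of_nonneg (hB z.1 z.2)⟩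
  have hinj : Function.Injective c := by
    intro z w hzw
    by_contra hne
    have h2 := hsep z.1 w.1 z.2 w.2 hne
    have e1 := hc z
    have e2 := hc w
    rw [hzw] at e1
    have h3 : x w.1 w.2 - x z.1 z.2 = 0 := by linarith
    rw [h3, abs_zero] at h2
    norm_num at h2
  obtain ⟨z, w, hzw, hlt, hN⟩ := h c hinj
  have hw : ((c w - c z : ℕ) : ℤ) = x w.1 w.2 - x z.1 z.2 := by
    rw [Nat.cast_sub hlt.le, hc, hc]
    ring
  have hD : x w.1 w.2 - x z.1 z.2 ∈ DT := ⟨c w - c z, hw, by omega, hN⟩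
  rcases lt_or_gt_of_ne hzw with h1 | h1
  · exact ⟨z.1, w.1, z.2, w.2, h1, Or.inl hD⟩
  · refine ⟨w.1, z.1, w.2, z.2, h1, Or.inr ?_⟩
    rw [neg_sub]
    exact hD

/-- **sums of three times** -/
theorem three_times (Q : ℕ → Prop) (hQ : ∀ t, NarT t → Q t) : ∃ c : ℝ, 0 < c ∧ ∀ᶠ n : ℕ in atTop,
    6 ∣ n → c * (n : ℝ) ^ 2 ≤
      ({t : Fin 3 → ℕ | n = t 0 + t 1 + t 2 ∧ ∀ i, 0 < t i ∧ Q (t i)}.ncard : ℝ) := by
  obtain ⟨K, hF⟩ := four_DT Miss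
  obtain ⟨c, hc, hcm⟩ := sums_count DT_pos one_pos hF
  obtain ⟨t₀, ht₀⟩ := eventually_atTop.1 hcm
  refine ⟨c / 36, by positivity, eventually_atTop.2 ⟨6 * t₀, fun n hn hdvd => ?_⟩⟩
  obtain ⟨s, rfl⟩ := hdvd
  have h1 := ht₀ s (by omega)
  have h2 : c / 36 * ((6 * s : ℕ) : ℝ) ^ 2 = c * (s : ℝ) ^ 2 := by
    push_cast
    ring
  rw [h2]
  refine h1.trans ?_
  rw [Nat.cast_le]
  have hfin : {t : Fin 3 → ℕ | 6 * s = t 0 + t 1 + t 2 ∧ ∀ i, 0 < t i ∧ Q (t i)}.Finite := by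
    apply ((Fintype.piFinset fun _ : Fin 3 => Finset.range (6 * s + 1)).finite_toSet).subset
    rintro d ⟨h, -⟩
    rw [mem_coe, Fintype.mem_piFinset]
    intro i
    rw [mem_range]
    fin_cases i
    · show d 0 < 6 * s + 1
      omega
    · show d 1 < 6 * s + 1
      omega
    · show d 2 < 6 * s + 1
      omega
  refine Set.ncard_le_ncard_of_injOn (fun w : ℤ × ℤ =>
    (![w.1.toNat, w.2.toNat, (6 * (s : ℤ) - w.1 - w.2).toNat] : Fin 3 → ℕ)) ?_ ?_ hfin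
  · rintro ⟨w₁, w₂⟩ ⟨⟨k₁, hk1, hp1, hg1⟩, ⟨k₂, hk2, hp2, hg2⟩, ⟨k₃, hk3, hp3, hg3⟩⟩
    simp only at hk1 hk2 hk3
    have e1 : w₁.toNat = k₁ := by omega
    have e2 : w₂.toNat = k₂ := by omega
    have e3 : (6 * (s : ℤ) - w₁ - w₂).toNat = k₃ := by omega
    refine ⟨?_, ?_⟩
    · show 6 * s = w₁.toNat + w₂.toNat + (6 * (s : ℤ) - w₁ - w₂).toNat
      omega
    · intro i
      fin_cases i
      · show 0 < w₁.toNat ∧ Q w₁.toNat
        rw [e1]; exact ⟨hp1, hQ _ hg1⟩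
      · show 0 < w₂.toNat ∧ Q w₂.toNat
        rw [e2]; exact ⟨hp2, hQ _ hg2⟩
      · show 0 < (6 * (s : ℤ) - w₁ - w₂).toNat ∧ Q (6 * (s : ℤ) - w₁ - w₂).toNat
        rw [e3]; exact ⟨hp3, hQ _ hg3⟩
  · rintro ⟨w₁, w₂⟩ ⟨h3, h4, -⟩ ⟨w₁', w₂'⟩ ⟨h3', h4', -⟩ h
    have a1 := congrFun h 0
    have a2 := congrFun h 1
    have a3 : w₁.toNat = w₁'.toNat := a1
    have a4 : w₂.toNat = w₂'.toNat := a2
    have c1 := DT_pos _ h3
    have c2 := DT_pos _ h4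
    have c3 := DT_pos _ h3'
    have c4 := DT_pos _ h4'
    simp only at c1 c2 c3 c4
    rw [Prod.mk.injEq]
    constructor <;> omega

end Pool.Agent.P8H77.SG
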